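import Pool.Agent.UNS.StA

/-!
UNS, [EMB]: Aut(Q) inside an open interval (helper45).
-/

set_option autoImplicit false
set_option linter.unusedVariables false

namespace Pool.Agent.UNS

open FirstOrder.Language Set
open scoped FirstOrder
open Pool.Agent.AAD (Gam)

section

variable {l r : ℚ} (e : ℚ ≃o Ioo l r)

open Classical in
noncomputable def EMB_f (g : Gam) (x : ℚ) : ℚ :=
  if h : x ∈ Ioo l r then (e (g (e.symm ⟨x, h⟩))).1 else x

theorem EMB_in (g : Gam) {x : ℚ} (h : x ∈ Ioo l r) :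
    EMB_f e g x = (e (g (e.symm ⟨x, h⟩))).1 := dif_pos h

theorem EMB_out (g : Gam) {x : ℚ} (h : x ∉ Ioo l r) : EMB_f e g x = x := dif_neg h

theorem EMB_mem (g : Gam) {x : ℚ} (h : x ∈ Ioo l r) : EMB_f e g x ∈ Ioo l r := by
  rw [EMB_in e g h]
  exact (e _).2

theorem EMB_mono (g : Gam) : StrictMono (EMB_f e g) := by
  intro x y hxy
  by_cases hx : x ∈ Ioo l r
  · by_cases hy : y ∈ Ioo l r
    · rw [EMB_in e g hx, EMB_in e g hy]
      have h1 : (⟨x, hx⟩ : Ioo l r) < ⟨y, hy⟩ := hxy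
      have h2 := e.strictMono (g.strictMono (e.symm.strictMono h1))
      exact h2
    · rw [EMB_out e g hy]
      have h1 : r ≤ y := by
        by_contra hc
        exact hy ⟨hx.1.trans hxy, not_le.1 hc⟩
      exact (EMB_mem e g hx).2.trans_le h1
  · rw [EMB_out e g hx]
    by_cases hy : y ∈ Ioo l r
    · have h1 : x ≤ l := by
        by_contra hc
        exact hx ⟨not_le.1 hc, hxy.trans hy.2⟩
      exact h1.trans_lt (EMB_mem e g hy).1
    · rw [EMB_out e g hy]
      exact hxy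

theorem EMB_mul (g h : Gam) (x : ℚ) : EMB_f e (g * h) x = EMB_f e g (EMB_f e h x) := by
  by_cases hx : x ∈ Ioo l r
  · rw [EMB_in e g (EMB_mem e h hx), EMB_in e (g * h) hx]
    have : e.symm ⟨EMB_f e h x, EMB_mem e h hx⟩ = h (e.symm ⟨x, hx⟩) := by
      rw [OrderIso.symm_apply_eq]
      exact Subtype.ext (EMB_in e h hx)
    rw [this]
    rfl
  · rw [EMB_out e h hx, EMB_out e g hx, EMB_out e (g * h) hx]

theorem EMB_one (x : ℚ) : EMB_f e 1 x = x := by
  by_cases hx : x ∈ Ioo l r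
  · rw [EMB_in e 1 hx]
    show (e (e.symm ⟨x, hx⟩)).1 = x
    rw [e.apply_symm_apply]
  · exact EMB_out e 1 hx

theorem EMB_inv (g : Gam) (x : ℚ) : EMB_f e g (EMB_f e g⁻¹ x) = x := by
  rw [← EMB_mul, mul_inv_cancel, EMB_one]

noncomputable def EMB_j : Gam →* Gam where
  toFun := fun g => StrictMono.orderIsoOfRightInverse (EMB_f e g) (EMB_mono e g) (EMB_f e g⁻¹)
    (EMB_inv e g)
  map_one' := by
    ext x
    exact EMB_one e x
  map_mul' := by
    intro g h
    ext x
    exact EMB_mul e g h x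

end

instance EMB_dense (l r : ℚ) : DenselyOrdered (Ioo l r) := inferInstance

theorem thm_EMB : St_EMB := by
  intro l r hlr
  have h0 : Nonempty (Ioo l r) := (nonempty_Ioo.2 hlr).to_subtype
  obtain ⟨e⟩ := Order.iso_of_countable_dense ℚ (Ioo l r)
  refine ⟨fun q => (e q).1, EMB_j e, fun a b h => e.strictMono h, fun x => ⟨fun hx => ?_, ?_⟩,
    fun g q => ?_, fun g x hx => EMB_out e g hx⟩
  · exact ⟨e.symm ⟨x, hx⟩, by show (e (e.symm ⟨x, hx⟩)).1 = x; rw [e.apply_symm_apply]⟩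
  · rintro ⟨q, rfl⟩
    exact (e q).2
  · show EMB_f e g (e q).1 = _
    rw [EMB_in e g (e q).2]
    have : e.symm ⟨(e q).1, (e q).2⟩ = q := e.symm_apply_apply q
    rw [this]

end Pool.Agent.UNS
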