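import Pool.Agent.UNS.StA

/-!
UNS, [LOC]: moves in an open interval (helper45).
-/

set_option autoImplicit false
set_option linter.unusedVariables false

namespace Pool.Agent.UNS

open FirstOrder.Language Set
open scoped FirstOrder
open Pool.Agent.AAD (Gam)

theorem thm_LOC (hEMB : St_EMB) : St_LOC := by
  intro l r A f hA hf hmono
  by_cases hlr : l < r
  · obtain ⟨b, j, h1, h2, h3, h4⟩ := hEMB l r hlr
    choose q hq using fun a : {a // a ∈ A} => (h2 a.1).1 (hA a.1 a.2)
    choose q' hq' using fun a : {a // a ∈ A} => (h2 (f a.1)).1 (hf a.1 a.2)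
    obtain ⟨g, hg⟩ := ext_fam q q' (by
      intro x y hxy
      have e1 : x.1 < y.1 := by rw [← hq x, ← hq y]; exact h1 hxy
      have e2 := hmono x.1 x.2 y.1 y.2 e1
      rw [← hq' x, ← hq' y] at e2
      exact h1.lt_iff_lt.1 e2) (by
      intro x y hxy
      have e1 : x.1 = y.1 := by rw [← hq x, ← hq y, hxy]
      have e2 : x = y := Subtype.ext e1
      rw [e2])
    refine ⟨j g, fun a ha => ?_, fun x hx => h4 g x hx⟩
    have e1 := h3 g (q ⟨a, ha⟩)
    rw [hq ⟨a, ha⟩, hg ⟨a, ha⟩, hq' ⟨a, ha⟩] at e1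
    exact e1
  · refine ⟨1, fun a ha => ?_, fun x _ => rfl⟩
    exact absurd ((hA a ha).1.trans (hA a ha).2) hlr

end Pool.Agent.UNS
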