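import Pool.Agent.AAD.EXT
import Pool.Agent.AAD.LS
import Pool.Agent.AAD.LSC
import Pool.Agent.AAD.SU

/-!
UNS: Vaught's conjecture for all universal classes of relational structures (helper45).  Base: supports for
`Γ = Aut(ℚ, <)` (from `Pool/Agent/AAD`) and invariance of first-order formulas.
-/

set_option autoImplicit false
set_option linter.unusedVariables false

namespace Pool.Agent.UNS

open FirstOrder.Language Set
open scoped FirstOrder
open Pool.Agent.AAD (Gam Fx ls St su Ctx)

/-- finite strictly monotone maps extend -/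
theorem ext (A : Finset ℚ) (f : ℚ → ℚ) (h : ∀ a ∈ A, ∀ b ∈ A, a < b → f a < f b) :
    ∃ g : Gam, ∀ a ∈ A, g a = f a := AAD.thm_EXT A f h

/-- the same for finite families -/
theorem ext_fam {ι : Type} [Finite ι] (a b : ι → ℚ) (h : ∀ i j, a i < a j → b i < b j)
    (h' : ∀ i j, a i = a j → b i = b j) : ∃ g : Gam, ∀ i, g (a i) = b i := by
  classical
  have := Fintype.ofFinite ι
  have key : ∀ i (hx : ∃ j, a j = a i), b hx.choose = b i := fun i hx => h' _ _ hx.choose_spec
  obtain ⟨g, hg⟩ := ext (Finset.univ.image a)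
    (fun x => if hx : ∃ j, a j = x then b hx.choose else x) (by
      intro x hx y hy hxy
      obtain ⟨i, -, rfl⟩ := Finset.mem_image.1 hx
      obtain ⟨j, -, rfl⟩ := Finset.mem_image.1 hy
      rw [dif_pos ⟨i, rfl⟩, dif_pos ⟨j, rfl⟩, key i ⟨i, rfl⟩, key j ⟨j, rfl⟩]
      exact h i j hxy)
  refine ⟨g, fun i => ?_⟩
  rw [hg (a i) (Finset.mem_image_of_mem a (Finset.mem_univ i)), dif_pos ⟨i, rfl⟩]
  exact key i ⟨i, rfl⟩

/-- least supports of subgroups -/
theorem ls_spec (H : Set Gam) (h1 : (1 : Gam) ∈ H) (h2 : ∀ g ∈ H, ∀ h ∈ H, g * h ∈ H)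
    (h3 : ∀ g ∈ H, g⁻¹ ∈ H) (h4 : ∃ A : Finset ℚ, Fx A ⊆ H) :
    Fx (ls H) ⊆ H ∧ ∀ A : Finset ℚ, Fx A ⊆ H → ls H ⊆ A :=
  AAD.thm_LS AAD.thm_EXT H h1 h2 h3 h4

section

variable {L : FirstOrder.Language.{0, 0}} {C : Type} [L.Structure C] [MulAction Gam C]

theorem su_all (hC : Ctx L C) (x : C) : Fx (su x) ⊆ St x ∧ (∀ A : Finset ℚ, Fx A ⊆ St x → su x ⊆ A) ∧
      (∀ g : Gam, su (g • x) = (su x).image g) ∧
      ∀ g h : Gam, (∀ a ∈ su x, g a = h a) → g • x = h • x :=
  AAD.thm_SU (AAD.thm_LS AAD.thm_EXT) AAD.thm_LSC C hC.fin x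

/-- automorphisms which fix the support fix the element -/
theorem su_fix (hC : Ctx L C) {x : C} {g : Gam} (h : ∀ a ∈ su x, g a = a) : g • x = x :=
  (su_all hC x).1 h

theorem su_min (hC : Ctx L C) {x : C} {A : Finset ℚ}
    (h : ∀ g : Gam, (∀ a ∈ A, g a = a) → g • x = x) : su x ⊆ A :=
  (su_all hC x).2.1 A fun g hg => h g hg

theorem su_act (hC : Ctx L C) (g : Gam) (x : C) : su (g • x) = (su x).image g :=
  (su_all hC x).2.2.1 g

theorem su_eq (hC : Ctx L C) {x : C} {g h : Gam} (e : ∀ a ∈ su x, g a = h a) : g • x = h • x :=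
  (su_all hC x).2.2.2 g h e

/-- the support is fixed by the elements of `Γ` which fix the element -/
theorem su_stab (hC : Ctx L C) {x : C} {g : Gam} (h : g • x = x) : ∀ a ∈ su x, g a = a := by
  classical
  have h1 : (su x).image g = su x := by
    rw [← su_act hC g x, h]
  -- `g` is strictly increasing and permutes the finite set `su x`
  have h2 : ∀ n : ℕ, ∀ a ∈ su x, ((su x).filter (· < a)).card = n → g a = a := by
    intro n
    induction n using Nat.strong_induction_on with
    | _ n ih =>
      intro a ha hn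
      have hlt : ∀ b ∈ su x, b < a → g b = b := by
        intro b hb hba
        refine ih ((su x).filter (· < b)).card ?_ b hb rfl
        rw [← hn]
        refine Finset.card_lt_card ⟨fun y hy => ?_, fun hc => ?_⟩
        · rw [Finset.mem_filter] at hy ⊢
          exact ⟨hy.1, hy.2.trans hba⟩
        · have := hc (Finset.mem_filter.2 ⟨hb, hba⟩)
          exact lt_irrefl _ (Finset.mem_filter.1 this).2
      -- `g a ≥ a`
      have h3 : g a ∈ su x := by rw [← h1]; exact Finset.mem_image_of_mem g ha
      rcases lt_trichotomy (g a) a with h4 | h4 | h4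
      · have h5 := hlt (g a) h3 h4
        exact absurd (g.injective h5) h4.ne
      · exact h4
      · -- `a = g b` for some `b`, then `b < a`, so `g b = b`
        have h5 : a ∈ (su x).image g := by rw [h1]; exact ha
        obtain ⟨b, hb, hba⟩ := Finset.mem_image.1 h5
        have h6 : b < a := by
          have : g b < g a := by rw [hba]; exact h4
          exact g.lt_iff_lt.1 this
        have h7 := hlt b hb h6
        exact absurd (h7.symm.trans hba) h6.ne
  exact fun a ha => h2 _ a ha rfl

/-- `g` as an automorphism of the structure -/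
def aut (hC : Ctx L C) (g : Gam) : C ≃[L] C where
  toEquiv := MulAction.toPerm g
  map_fun' := fun {n} f _ => (hC.nof n).elim f
  map_rel' := fun {n} R v => hC.inv g n R v

/-- first-order formulas are invariant -/
theorem inv (hC : Ctx L C) {α : Type} (φ : L.Formula α) (g : Gam) (v : α → C) :
    φ.Realize (fun i => g • v i) ↔ φ.Realize v :=
  FirstOrder.Language.StrongHomClass.realize_formula (aut hC g) φ (v := v)

/-- the same with `Sum.elim` -/
theorem inv2 (hC : Ctx L C) {α β : Type} (φ : L.Formula (α ⊕ β)) (g : Gam) (v : α → C) (w : β → C) :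
    φ.Realize (Sum.elim (fun i => g • v i) (fun i => g • w i)) ↔ φ.Realize (Sum.elim v w) := by
  have h := inv hC φ g (Sum.elim v w)
  have e : (fun i => g • Sum.elim v w i) = Sum.elim (fun i => g • v i) (fun i => g • w i) := by
    funext i
    rcases i with i | i <;> rfl
  rw [e] at h
  exact h

end

end Pool.Agent.UNS
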