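import Pool.Agent.UNS.StA

/-!
UNS [ARR3]: infinite arrays with constant first entries by an ultrapower (helper60; after
AAD/ARR2.lean, helper73).
-/

set_option autoImplicit false
set_option linter.unusedVariables false

namespace Pool.Agent.UNS

open FirstOrder.Language Set
open scoped FirstOrder
open Pool.Agent.AAD (Gam Fx ls St su Ctx Pcs Sha)

/-- the ultrafilter -/
noncomputable def ARR3_u : Ultrafilter ℕ := Filter.hyperfilter ℕ

theorem ARR3_ev (k₀ : ℕ) : ∀ᶠ k in (ARR3_u : Filter ℕ), k₀ ≤ k := by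
  have h1 : (ARR3_u : Filter ℕ) ≤ Filter.atTop := by
    rw [← Nat.cofinite_eq_atTop]
    exact Filter.hyperfilter_le_cofinite
  exact h1 (Filter.eventually_ge_atTop k₀)

theorem ARR3_iff {P : ℕ → Prop} {c : Prop}
    (h : c ↔ ∀ᶠ k in (ARR3_u : Filter ℕ), P k) : ∀ᶠ k in (ARR3_u : Filter ℕ), (P k ↔ c) := by
  by_cases hc : c
  · filter_upwards [h.1 hc] with k hk
    exact ⟨fun _ => hc, fun _ => hk⟩
  · have h1 : ¬ ∀ᶠ k in (ARR3_u : Filter ℕ), P k := fun h2 => hc (h.2 h2)
    rw [← Ultrafilter.eventually_not] at h1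
    filter_upwards [h1] with k hk
    exact ⟨fun h2 => absurd h2 hk, fun h2 => absurd h2 hc⟩

/-- the ultrapower -/
abbrev ARR3_P (M : Type) : Type := (ARR3_u : Filter ℕ).Product (fun _ => M)

theorem ARR3_real (L : FirstOrder.Language.{0, 0}) (M : Type) [L.Structure M] [Nonempty M]
    {β : Type} (φ : L.Formula β) (x : β → ℕ → M) (c : β → ARR3_P M)
    (hc : ∀ i, c i = (x i : ARR3_P M)) :
    φ.Realize c ↔ ∀ᶠ k in (ARR3_u : Filter ℕ), φ.Realize fun i => x i k := by
  have h1 : c = fun i => (x i : ARR3_P M) := funext hc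
  rw [h1]
  exact FirstOrder.Language.Ultraproduct.realize_formula_cast (M := fun _ : ℕ => M) φ x

theorem ARR3_eq (L : FirstOrder.Language.{0, 0}) (M : Type) [L.Structure M] [Nonempty M]
    (a b : ℕ → M) (h : (a : ARR3_P M) = (b : ARR3_P M)) :
    ∀ᶠ k in (ARR3_u : Filter ℕ), a k = b k := by
  have h2 := (ARR3_real L M
    (((Term.var (L := L) true).equal (Term.var false) : L.Formula Bool))
    (fun i => if i then a else b) (fun i => if i then (a : ARR3_P M) else (b : ARR3_P M))
    (by intro i; cases i <;> rfl)).1 (by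
      rw [Formula.realize_equal]
      exact h)
  filter_upwards [h2] with k hk
  rw [Formula.realize_equal] at hk
  exact hk

theorem ARR3_pcs (L : FirstOrder.Language.{0, 0}) (M : Type) [L.Structure M]
    [Nonempty M] : Pcs L (ARR3_P M) M := by
  classical
  intro n c F
  have hx : ∀ i, ∃ x : ℕ → M, c i = (x : ARR3_P M) := fun i => by
    obtain ⟨x, hx⟩ := Quotient.exists_rep (c i)
    exact ⟨x, hx.symm⟩
  choose x hx using hx
  have h1 : ∀ i j, ∀ᶠ k in (ARR3_u : Filter ℕ), (x i k = x j k ↔ c i = c j) := by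
    intro i j
    refine ARR3_iff ?_
    have h2 := ARR3_real L M
      (((Term.var (L := L) i).equal (Term.var j) : L.Formula (Fin n))) x c hx
    rw [Formula.realize_equal] at h2
    refine h2.trans ?_
    refine Filter.eventually_congr (Filter.Eventually.of_forall fun k => ?_)
    rw [Formula.realize_equal]
    exact Iff.rfl
  have h3 : ∀ R : (Σ n, L.Relations n), ∀ w : Fin R.1 → Fin n, ∀ᶠ k in (ARR3_u : Filter ℕ),
      (Structure.RelMap R.2 (fun i => x (w i) k) ↔ Structure.RelMap R.2 (fun i => c (w i))) := by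
    intro R w
    refine ARR3_iff ?_
    have h2 := ARR3_real L M
      ((R.2.formula fun i => (Term.var (L := L) (w i)) : L.Formula (Fin n))) x c hx
    rw [Formula.realize_rel] at h2
    refine h2.trans ?_
    refine Filter.eventually_congr (Filter.Eventually.of_forall fun k => ?_)
    rw [Formula.realize_rel]
    exact Iff.rfl
  have h4 : ∀ᶠ k in (ARR3_u : Filter ℕ), ∀ i j, (x i k = x j k ↔ c i = c j) := by
    rw [Filter.eventually_all]
    intro i
    rw [Filter.eventually_all]
    exact h1 i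
  have h5 : ∀ᶠ k in (ARR3_u : Filter ℕ), ∀ R ∈ F, ∀ w : Fin R.1 → Fin n,
      (Structure.RelMap R.2 (fun i => x (w i) k) ↔ Structure.RelMap R.2 (fun i => c (w i))) := by
    rw [Filter.eventually_all_finset]
    intro R _
    rw [Filter.eventually_all]
    exact h3 R
  obtain ⟨k, hk4, hk5⟩ := (h4.and h5).exists
  exact ⟨fun i => x i k, hk4, hk5⟩

/-- shattering passes from the ultrapower to `M` -/
theorem ARR3_sh (L : FirstOrder.Language.{0, 0}) (M : Type) [L.Structure M] [Nonempty M]
    {m N : ℕ} (φ : L.Formula (Fin m ⊕ Fin N)) (t k : ℕ) (h : ShT (ARR3_P M) φ t k) :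
    ShT M φ t k := by
  classical
  obtain ⟨x, y, hxy, hc⟩ := h
  have hx : ∀ i j, ∃ z : ℕ → M, x i j = (z : ARR3_P M) := fun i j => by
    obtain ⟨z, hz⟩ := Quotient.exists_rep (x i j)
    exact ⟨z, hz.symm⟩
  have hy : ∀ s j, ∃ z : ℕ → M, y s j = (z : ARR3_P M) := fun s j => by
    obtain ⟨z, hz⟩ := Quotient.exists_rep (y s j)
    exact ⟨z, hz.symm⟩
  choose X hX using hx
  choose Y hY using hy
  have h1 : ∀ i s, ∀ᶠ n in (ARR3_u : Filter ℕ),
      (φ.Realize (Sum.elim (fun j => X i j n) (fun j => Y s j n)) ↔ i ∈ s) := by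
    intro i s
    refine ARR3_iff ?_
    rw [← hxy i s]
    have h2 := ARR3_real L M φ (Sum.elim (X i) (Y s)) (Sum.elim (x i) (y s)) (by
      intro q
      rcases q with q | q
      · exact hX i q
      · exact hY s q)
    refine h2.trans (Filter.eventually_congr (Filter.Eventually.of_forall fun n => ?_))
    have h3 : (fun q => Sum.elim (X i) (Y s) q n) =
        Sum.elim (fun j => X i j n) (fun j => Y s j n) := by
      funext q
      rcases q with q | q <;> rfl
    rw [h3]
  have h2 : ∀ s s' (j : Fin N), ∀ᶠ n in (ARR3_u : Filter ℕ), j.1 < t → Y s j n = Y s' j n := by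
    intro s s' j
    by_cases hj : j.1 < t
    · have h3 := hc s s' j hj
      rw [hY, hY] at h3
      filter_upwards [ARR3_eq L M _ _ h3] with n hn _
      exact hn
    · exact Filter.Eventually.of_forall fun n hn => absurd hn hj
  have h3 : ∀ᶠ n in (ARR3_u : Filter ℕ), ∀ i s,
      (φ.Realize (Sum.elim (fun j => X i j n) (fun j => Y s j n)) ↔ i ∈ s) := by
    rw [Filter.eventually_all]
    intro i
    rw [Filter.eventually_all]
    exact h1 i
  have h4 : ∀ᶠ n in (ARR3_u : Filter ℕ), ∀ s s' (j : Fin N), j.1 < t → Y s j n = Y s' j n := by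
    rw [Filter.eventually_all]
    intro s
    rw [Filter.eventually_all]
    intro s'
    rw [Filter.eventually_all]
    exact h2 s s'
  obtain ⟨n, hn3, hn4⟩ := (h3.and h4).exists
  exact ⟨fun i j => X i j n, fun s j => Y s j n, hn3, hn4⟩

/-- [ARR3] -/
theorem thm_ARR3 : St_ARR3 := by
  classical
  intro L hnof M _ hM m N φ t k hex
  choose X Y hXY hco using hex
  obtain ⟨m0⟩ := id hM
  -- the coordinates
  let X' : ℕ → Fin m → ℕ → M := fun i j n => if h : i < n then X n ⟨i, h⟩ j else m0
  let Y' : (Fin k → ℕ) → Fin N → ℕ → M := fun b j n =>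
    Y n {i : Fin n | ∃ t, b t = (i : ℕ)} j
  refine ⟨ARR3_P M, inferInstance, fun i j => (X' i j : ARR3_P M), fun b j => (Y' b j : ARR3_P M),
    ⟨((fun _ => m0 : ℕ → M) : ARR3_P M)⟩, ARR3_pcs L M, fun k' => ARR3_sh L M φ (t + 1) k',
    fun r b => ?_, fun b b' j hj => ?_⟩
  · let W : Fin m ⊕ Fin N → ℕ → M := Sum.elim (X' r) (Y' b)
    have h1 := ARR3_real L M φ W
      (Sum.elim (fun q => (X' r q : ARR3_P M)) (fun q => (Y' b q : ARR3_P M))) (by
        intro q
        rcases q with q | q <;> rfl)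
    refine h1.trans ?_
    have h2 : ∀ᶠ n in (ARR3_u : Filter ℕ), ((φ.Realize fun q => W q n) ↔ ∃ j, b j = r) := by
      filter_upwards [ARR3_ev (r + 1)] with n hn
      have hr : r < n := by omega
      have h3 : (fun q => W q n) =
          Sum.elim (X n ⟨r, hr⟩) (Y n {i : Fin n | ∃ t, b t = (i : ℕ)}) := by
        funext q
        rcases q with q | q
        · show X' r q n = X n ⟨r, hr⟩ q
          exact dif_pos hr
        · rfl
      rw [h3]
      exact hXY n ⟨r, hr⟩ _
    constructor
    · intro h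
      obtain ⟨n, hk1, hk2⟩ := (h.and h2).exists
      exact hk2.1 hk1
    · intro h
      filter_upwards [h2] with n hn
      exact hn.2 h
  · have h1 : Y' b j = Y' b' j := funext fun n => hco n _ _ j hj
    show (Y' b j : ARR3_P M) = (Y' b' j : ARR3_P M)
    rw [h1]

end Pool.Agent.UNS
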