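import Pool.Agent.UNS.StA
import Pool.Agent.AAD.ITU2

/-!
UNS, module ITU3: the iterated ultrapower along `ℚ`, with constant first entries.
-/

set_option autoImplicit false
set_option linter.unusedVariables false
set_option linter.unusedSectionVars false

namespace Pool.Agent.UNS

open FirstOrder.Language Set Filter
open scoped FirstOrder
open Pool.Agent.AAD

section

variable {L : FirstOrder.Language.{0, 0}} {hL : ∀ n, IsEmpty (L.Functions n)} {M : Type}
  [L.Structure M] [Nonempty M]

/-- transfer of `ShT` -/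
theorem ITU3_sht {m N : ℕ} (φ : L.Formula (Fin m ⊕ Fin N)) (t k : ℕ)
    (h : ShT (ITU_S L hL M) φ t k) : ShT M φ t k := by
  obtain ⟨x, y, h1, h2⟩ := h
  choose fx hx ex using fun i l => ITU_elim (x i l)
  choose fy hy ey using fun s l => ITU_elim (y s l)
  have a1 : ∀ᶠ v in (ITU_V : Filter (ℚ → ℕ)), ∀ (i : Fin k) (s : Set (Fin k)),
      (φ.Realize (Sum.elim (fun l => fx i l v) (fun l => fy s l v)) ↔ i ∈ s) := by
    rw [eventually_all]
    intro i
    rw [eventually_all]
    intro s
    refine ITU_iff ?_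
    have hh : ∀ j, ∃ S : Finset ℚ, ITU_Dep S ((Sum.elim (fx i) (fy s) :
        Fin m ⊕ Fin N → (ℚ → ℕ) → M) j) := by
      rintro (j | j)
      · exact hx i j
      · exact hy s j
    have e1 : (Sum.elim (x i) (y s) : Fin m ⊕ Fin N → ITU_S L hL M) =
        fun j => ITU_el _ (hh j) := by
      funext j
      rcases j with j | j
      · exact ex i j
      · exact ey s j
    rw [← h1 i s, e1, ITU_losS]
    refine eventually_congr (Eventually.of_forall fun v => ?_)
    have e3 : (fun j => (Sum.elim (fx i) (fy s) : Fin m ⊕ Fin N → (ℚ → ℕ) → M) j v) =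
        Sum.elim (fun l => fx i l v) (fun l => fy s l v) := by
      funext j
      rcases j with j | j <;> rfl
    rw [e3]
  have a2 : ∀ᶠ v in (ITU_V : Filter (ℚ → ℕ)), ∀ (s s' : Set (Fin k)) (j : Fin N),
      j.1 < t → fy s j v = fy s' j v := by
    rw [eventually_all]
    intro s
    rw [eventually_all]
    intro s'
    rw [eventually_all]
    intro j
    by_cases hj : j.1 < t
    · have h3 := h2 s s' j hj
      rw [ey s j, ey s' j, ITU_el_eq] at h3
      exact h3.mono fun v hv _ => hv
    · exact Eventually.of_forall fun v h => absurd h hj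
  obtain ⟨v, hv1, hv2⟩ := (a1.and a2).exists
  exact ⟨fun i l => fx i l v, fun s l => fy s l v, hv1, hv2⟩

/-- the array -/
theorem ITU3_arr (m N : ℕ) (φ : L.Formula (Fin m ⊕ Fin N)) (t k : ℕ) (x : ℕ → Fin m → M)
    (y : (Fin k → ℕ) → Fin N → M)
    (hxy : ∀ r b, φ.Realize (Sum.elim (x r) (y b)) ↔ ∃ j, b j = r)
    (hco : ∀ b b' (j : Fin N), j.1 < t → y b j = y b' j) :
    Nonempty (ArT (ITU_S L hL M) φ t k) := by
  have hx : ∀ (q : ℚ) (i : Fin m), ∃ s : Finset ℚ, ITU_Dep s fun v : ℚ → ℕ => x (v q) i :=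
    fun q i => ⟨{q}, fun v w h => by
      have := h q (by simp)
      simp only [this]⟩
  have hy : ∀ (b : Fin k → ℚ) (i : Fin N),
      ∃ s : Finset ℚ, ITU_Dep s fun v : ℚ → ℕ => y (fun j => v (b j)) i :=
    fun b i => ⟨Finset.univ.image b, fun v w h => by
      have h1 : (fun j => v (b j)) = fun j => w (b j) := funext fun j => h _ (by simp)
      simp only [h1]⟩
  refine ⟨⟨fun q i => ITU_el _ (hx q i), fun b i => ITU_el _ (hy b i), ?_, ?_, ?_, ?_⟩⟩
  · intro g q i
    rw [ITU_smul]
    rfl
  · intro g b i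
    rw [ITU_smul]
    rfl
  · intro r b
    have hh : ∀ i, ∃ s : Finset ℚ, ITU_Dep s ((Sum.elim (fun i v => x (v r) i)
        (fun i v => y (fun j => v (b j)) i) : Fin m ⊕ Fin N → (ℚ → ℕ) → M) i) := by
      rintro (i | i)
      · exact hx r i
      · exact hy b i
    have e1 : (Sum.elim (fun i => ITU_el _ (hx r i)) (fun i => ITU_el _ (hy b i)) :
        Fin m ⊕ Fin N → ITU_S L hL M) = fun i => ITU_el _ (hh i) := by
      funext i
      rcases i with i | i <;> rfl
    rw [e1, ITU_losS]
    have e2 : ∀ v : ℚ → ℕ, (φ.Realize fun i => (Sum.elim (fun i v => x (v r) i)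
        (fun i v => y (fun j => v (b j)) i) : Fin m ⊕ Fin N → (ℚ → ℕ) → M) i v) ↔
        ∃ j, v (b j) = v r := by
      intro v
      rw [← hxy (v r) fun j => v (b j)]
      have e3 : (fun i => (Sum.elim (fun i v => x (v r) i)
          (fun i v => y (fun j => v (b j)) i) : Fin m ⊕ Fin N → (ℚ → ℕ) → M) i v) =
          Sum.elim (x (v r)) (y fun j => v (b j)) := by
        funext i
        rcases i with i | i <;> rfl
      rw [e3]
    rw [eventually_congr (Eventually.of_forall e2)]
    constructor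
    · intro h
      by_contra hb
      push Not at hb
      have h1 : ∀ᶠ v in (ITU_V : Filter (ℚ → ℕ)), ∀ j, v (b j) ≠ v r := by
        rw [eventually_all]
        exact fun j => ITU_ne (hb j)
      obtain ⟨v, ⟨j, hv⟩, hv2⟩ := (h.and h1).exists
      exact hv2 j hv
    · rintro ⟨j, hj⟩
      exact Eventually.of_forall fun v => ⟨j, by rw [hj]⟩
  · intro b b' j hj
    rw [ITU_el_eq]
    exact Eventually.of_forall fun v => hco _ _ j hj

end

/-- [ITU3] the iterated ultrapower along `ℚ`. -/
theorem thm_ITU3 : St_ITU3 := by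
  intro L hL M _ _ m N φ t k x y hxy hco
  exact ⟨ITU_S L hL M, inferInstance, inferInstance, ITU_ctx, ITU_pcs,
    fun k' h => ITU3_sht φ (t + 1) k' h, ITU3_arr m N φ t k x y hxy hco⟩

end Pool.Agent.UNS
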