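import Pool.Agent.UNS.StA

/-!
UNS, [RED]: some element sees two points (helper45).
-/

set_option autoImplicit false
set_option linter.unusedVariables false

namespace Pool.Agent.UNS

open FirstOrder.Language Set
open scoped FirstOrder
open Pool.Agent.AAD (Gam Fx ls St su Ctx Pcs Sha UD UD_congr UD_sub UD_eq UD_and UD_iff UD_const UD_ex
  UD_fin)

/-- the offset -/
theorem RED_off (k' : ℕ) (v : ℚ) : ∃ (o : ℕ) (e : ℚ), o + k' ≤ 2 * k' + 1 ∧ (e = -1 / 2 ∨ e = 1 / 2) ∧
    ((∀ i : Fin k', ((o + i.1 : ℕ) : ℚ) < v ∧ ((o + i.1 : ℕ) : ℚ) + e < v) ∨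
      ∀ i : Fin k', v < ((o + i.1 : ℕ) : ℚ) ∧ v < ((o + i.1 : ℕ) : ℚ) + e) := by
  rcases lt_or_ge ((k' : ℚ) - 1) v with h | h
  · refine ⟨0, -1 / 2, by omega, Or.inl rfl, Or.inl fun i => ?_⟩
    have h1 : ((0 + i.1 : ℕ) : ℚ) ≤ (k' : ℚ) - 1 := by
      have : i.1 + 1 ≤ k' := i.2
      have h2 : ((i.1 + 1 : ℕ) : ℚ) ≤ (k' : ℚ) := by exact_mod_cast this
      push_cast at h2 ⊢
      linarith
    constructor <;> linarith
  · refine ⟨k' + 1, 1 / 2, by omega, Or.inr rfl, Or.inr fun i => ?_⟩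
    have h1 : (k' : ℚ) + 1 ≤ ((k' + 1 + i.1 : ℕ) : ℚ) := by
      push_cast
      have : (0 : ℚ) ≤ (i.1 : ℚ) := Nat.cast_nonneg _
      linarith
    constructor <;> linarith

/-- the formula -/
theorem RED_fml {L : FirstOrder.Language.{0, 0}} (C : Type) [L.Structure C] {m N : ℕ}
    (φ : L.Formula (Fin m ⊕ Fin N)) {t : ℕ} (ht : t < N) (k' : ℕ) (s : Set (Fin k')) :
    ∃ θ : L.Formula (((Fin k' × Fin m) ⊕ {j : Fin N // j.1 < t}) ⊕ Unit),
      ∀ v : ((Fin k' × Fin m) ⊕ {j : Fin N // j.1 < t}) ⊕ Unit → C, θ.Realize v ↔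
        ∃ y : Fin N → C, (∀ j : {j : Fin N // j.1 < t}, y j.1 = v (.inl (.inr j))) ∧
          y ⟨t, ht⟩ = v (.inr ()) ∧
          ∀ i : Fin k', (φ.Realize (Sum.elim (fun l => v (.inl (.inl (i, l)))) y) ↔ i ∈ s) := by
  have h : UD L (J := Unit) (fun _ => C) (fun _ => inferInstance)
      (((Fin k' × Fin m) ⊕ {j : Fin N // j.1 < t}) ⊕ Unit) (fun _ v =>
        ∃ y : Fin N → C, (∀ j : {j : Fin N // j.1 < t}, y j.1 = v (.inl (.inr j))) ∧
          y ⟨t, ht⟩ = v (.inr ()) ∧
          ∀ i : Fin k', (φ.Realize (Sum.elim (fun l => v (.inl (.inl (i, l)))) y) ↔ i ∈ s)) := by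
    have hφ : UD L (J := Unit) (fun _ => C) (fun _ => inferInstance) (Fin m ⊕ Fin N)
        (fun _ v => φ.Realize v) := ⟨φ, fun _ _ => Iff.rfl⟩
    refine UD_congr (UD_ex (β := Fin N) (Q := fun _ (w : (((Fin k' × Fin m) ⊕
        {j : Fin N // j.1 < t}) ⊕ Unit) ⊕ Fin N → C) =>
      (∀ j : {j : Fin N // j.1 < t}, w (.inr j.1) = w (.inl (.inl (.inr j)))) ∧
      w (.inr ⟨t, ht⟩) = w (.inl (.inr ())) ∧
      ∀ i : Fin k', (φ.Realize (fun l : Fin m ⊕ Fin N => w (Sum.elim
        (fun l => .inl (.inl (.inl (i, l)))) (fun j => .inr j) l)) ↔ i ∈ s)) ?_) ?_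
    · refine UD_and (UD_fin fun j => UD_eq _ _) (UD_and (UD_eq _ _) (UD_fin fun i =>
        UD_iff (UD_sub hφ _) (UD_const _)))
    · intro _ v
      refine exists_congr fun y => and_congr Iff.rfl (and_congr Iff.rfl
        (forall_congr' fun i => ?_))
      have : (fun l : Fin m ⊕ Fin N => (Sum.elim v y) (Sum.elim
          (fun l => (.inl (.inl (.inl (i, l))) : (((Fin k' × Fin m) ⊕
            {j : Fin N // j.1 < t}) ⊕ Unit) ⊕ Fin N)) (fun j => .inr j) l)) =
          Sum.elim (fun l => v (.inl (.inl (i, l)))) y := by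
        funext l
        rcases l with l | l <;> rfl
      rw [this]
  obtain ⟨θ, hθ⟩ := h
  exact ⟨θ, fun v => hθ () v⟩

/-- [RED] -/
theorem thm_RED (hVIS : St_VIS) : St_RED := by
  intro L C _ _ hC m N φ t k' ht D hno
  by_contra hcon
  push Not at hcon
  let b : Fin (2 * k' + 1) → ℚ := fun j => (j.1 : ℚ)
  let c : C := D.y b ⟨t, ht⟩
  obtain ⟨-, hvs, -⟩ := hVIS L C hC c
  obtain ⟨v, hv⟩ : ∃ v, ∀ a ∈ vs L c, a = v := by
    have h1 : (vs L c).card ≤ 1 := by
      have := hcon c
      omega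
    rcases (vs L c).eq_empty_or_nonempty with h2 | ⟨v, h2⟩
    · exact ⟨0, by simp [h2]⟩
    · exact ⟨v, fun a ha => Finset.card_le_one.1 h1 a ha v h2⟩
  obtain ⟨o, e, ho, he, hside⟩ := RED_off k' v
  refine hno ?_
  have hTr : ∀ g : Gam, g v = v → Tr L (g • c) c := fun g hg => hvs g fun a ha => by
    rw [hv a ha, hg]
  -- supports of the parameters
  have sx : ∀ q l, (su (D.x q l)).card ≤ 1 := by
    intro q l
    have h1 : su (D.x q l) ⊆ {q} := su_min hC fun g hg => by
      rw [D.xa, hg q (Finset.mem_singleton_self _)]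
    exact (Finset.card_le_card h1).trans (by simp)
  have sy : ∀ j : {j : Fin N // j.1 < t}, (su (D.y b j.1)).card ≤ 1 := by
    intro j
    have h1 : su (D.y b j.1) ⊆ ∅ := su_min hC fun g _ => by
      rw [D.ya]
      exact D.co _ _ j.1 j.2
    exact (Finset.card_le_card h1).trans (by simp)
  have key : ∀ s : Set (Fin k'), ∃ y : Fin N → C,
      (∀ j : {j : Fin N // j.1 < t}, y j.1 = D.y b j.1) ∧ y ⟨t, ht⟩ = c ∧
      ∀ i : Fin k', (φ.Realize (Sum.elim (D.x ((o + i.1 : ℕ) : ℚ)) y) ↔ i ∈ s) := by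
    intro s
    classical
    let q : Fin k' → ℚ := fun i => if i ∈ s then ((o + i.1 : ℕ) : ℚ) else ((o + i.1 : ℕ) : ℚ) + e
    have hq1 : ∀ i, q i = ((o + i.1 : ℕ) : ℚ) ∨ q i = ((o + i.1 : ℕ) : ℚ) + e := by
      intro i
      by_cases h : i ∈ s
      · exact Or.inl (if_pos h)
      · exact Or.inr (if_neg h)
    have hqm : ∀ i j : Fin k', i < j → q i < q j := by
      intro i j hij
      have h1 : ((o + i.1 : ℕ) : ℚ) + 1 ≤ ((o + j.1 : ℕ) : ℚ) := by
        have : o + i.1 + 1 ≤ o + j.1 := by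
          have : i.1 < j.1 := hij
          omega
        exact_mod_cast this
      rcases hq1 i with h2 | h2 <;> rcases hq1 j with h3 | h3 <;> rcases he with h4 | h4 <;>
        rw [h2, h3] <;> linarith
    -- `g` fixes `v` and moves `o + i` to `q i`
    obtain ⟨g, hg⟩ := ext_fam (ι := Option (Fin k'))
      (fun i => i.elim v fun i => ((o + i.1 : ℕ) : ℚ)) (fun i => i.elim v q) (by
        rintro (_ | i) (_ | j) hij
        · exact absurd hij (lt_irrefl _)
        · rcases hside with h | h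
          · exact absurd hij (lt_asymm (h j).1)
          · show v < q j
            rcases hq1 j with h2 | h2 <;> rw [h2]
            · exact (h j).1
            · exact (h j).2
        · rcases hside with h | h
          · show q i < v
            rcases hq1 i with h2 | h2 <;> rw [h2]
            · exact (h i).1
            · exact (h i).2
          · exact absurd hij (lt_asymm (h i).1)
        · have h1 : i < j := by
            have : ((o + i.1 : ℕ) : ℚ) < ((o + j.1 : ℕ) : ℚ) := hij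
            have h2 : o + i.1 < o + j.1 := by exact_mod_cast this
            exact Fin.lt_def.2 (by omega)
          exact hqm i j h1) (by
        rintro (_ | i) (_ | j) hij
        · rfl
        · rcases hside with h | h
          · exact absurd hij (h j).1.ne'
          · exact absurd hij (h j).1.ne
        · rcases hside with h | h
          · exact absurd hij (h i).1.ne
          · exact absurd hij (h i).1.ne'
        · have h1 : i = j := by
            have : ((o + i.1 : ℕ) : ℚ) = ((o + j.1 : ℕ) : ℚ) := hij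
            have h2 : o + i.1 = o + j.1 := by exact_mod_cast this
            exact Fin.ext (by omega)
          rw [h1])
    have hgv : g v = v := hg none
    have hgi : ∀ i : Fin k', g ((o + i.1 : ℕ) : ℚ) = q i := fun i => hg (some i)
    have giv : g⁻¹ v = v := by
      have : g⁻¹ (g v) = v := g.symm_apply_apply v
      rwa [hgv] at this
    have gii : ∀ i : Fin k', g⁻¹ (q i) = ((o + i.1 : ℕ) : ℚ) := by
      intro i
      rw [← hgi i]
      exact g.symm_apply_apply _
    obtain ⟨θ, hθ⟩ := RED_fml C φ ht k' s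
    have t1 : θ.Realize (Sum.elim (Sum.elim (fun p : Fin k' × Fin m => D.x (q p.1) p.2)
        (fun j : {j : Fin N // j.1 < t} => D.y b j.1)) fun _ => c) := by
      rw [hθ]
      refine ⟨D.y b, fun j => rfl, rfl, fun i => ?_⟩
      have h1 := D.ex (q i) b
      refine h1.trans ?_
      constructor
      · rintro ⟨j, hj⟩
        by_contra hi
        have h2 : q i = ((o + i.1 : ℕ) : ℚ) + e := if_neg hi
        have h3 : (j.1 : ℚ) = ((o + i.1 : ℕ) : ℚ) + e := hj.trans h2
        have h4 : ((2 * j.1 : ℕ) : ℤ) = (2 * (o + i.1) : ℕ) + (if e = 1 / 2 then 1 else -1) := by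
          have h5 : ((2 * j.1 : ℕ) : ℚ) = (2 * (o + i.1) : ℕ) + 2 * e := by
            push_cast
            push_cast at h3
            linarith
          rcases he with h6 | h6
          · rw [if_neg (by rw [h6]; norm_num)]
            rw [h6] at h5
            have h7 : ((2 * j.1 : ℕ) : ℚ) = ((2 * (o + i.1) : ℕ) : ℚ) + (-1 : ℚ) := by
              rw [h5]; norm_num
            exact_mod_cast h7
          · rw [if_pos h6]
            rw [h6] at h5
            have h7 : ((2 * j.1 : ℕ) : ℚ) = ((2 * (o + i.1) : ℕ) : ℚ) + (1 : ℚ) := by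
              rw [h5]; norm_num
            exact_mod_cast h7
        split_ifs at h4 <;> omega
      · intro hi
        have h2 : q i = ((o + i.1 : ℕ) : ℚ) := if_pos hi
        refine ⟨⟨o + i.1, by have := i.2; omega⟩, ?_⟩
        rw [h2]
    have t2 := (inv2 hC θ g⁻¹ (Sum.elim (fun p : Fin k' × Fin m => D.x (q p.1) p.2)
        (fun j : {j : Fin N // j.1 < t} => D.y b j.1)) fun _ : Unit => c).2 t1
    have e1 : (fun i => g⁻¹ • (Sum.elim (fun p : Fin k' × Fin m => D.x (q p.1) p.2)
        (fun j : {j : Fin N // j.1 < t} => D.y b j.1)) i) =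
        Sum.elim (fun p : Fin k' × Fin m => D.x ((o + p.1.1 : ℕ) : ℚ) p.2)
          (fun j : {j : Fin N // j.1 < t} => D.y b j.1) := by
      funext i
      rcases i with p | j
      · show g⁻¹ • D.x (q p.1) p.2 = D.x _ p.2
        rw [D.xa, gii]
      · show g⁻¹ • D.y b j.1 = D.y b j.1
        rw [D.ya]
        exact D.co _ _ j.1 j.2
    rw [e1] at t2
    have t3 := (hTr g⁻¹ giv _ θ (Sum.elim
      (fun p : Fin k' × Fin m => D.x ((o + p.1.1 : ℕ) : ℚ) p.2)
      (fun j : {j : Fin N // j.1 < t} => D.y b j.1)) (by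
        rintro (p | j)
        · exact sx _ _
        · exact sy j)).1 t2
    rw [hθ] at t3
    exact t3
  choose y hy1 hy2 hy3 using key
  refine ⟨fun i => D.x ((o + i.1 : ℕ) : ℚ), y, fun i s => hy3 s i, fun s s' j hj => ?_⟩
  rcases Nat.lt_succ_iff_lt_or_eq.1 hj with h1 | h1
  · rw [hy1 s ⟨j, h1⟩, hy1 s' ⟨j, h1⟩]
  · have h2 : j = ⟨t, ht⟩ := Fin.ext h1
    rw [h2, hy2, hy2]

end Pool.Agent.UNS
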