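import Pool.Agent.UNS.StA

/-!
UNS, module SHT: the choice of `t`.
-/

set_option autoImplicit false

namespace Pool.Agent.UNS

open FirstOrder.Language Set
open scoped FirstOrder

theorem thm_SHT : St_SHT := by
  intro L M _ m N φ h0
  by_contra hcon
  push Not at hcon
  have h1 : ∀ t ≤ N, ∀ k, ShT M φ t k := by
    intro t
    induction t with
    | zero => exact fun _ => h0
    | succ t ih => exact fun ht => hcon t (by omega) (ih (by omega))
  obtain ⟨x, y, hy, hc⟩ := h1 N le_rfl 1
  have h2 : y ∅ = y univ := funext fun j => hc _ _ j j.2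
  have h3 := (hy 0 univ).2 (mem_univ _)
  rw [← h2] at h3
  exact (hy 0 ∅).1 h3

end Pool.Agent.UNS
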