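import Pool.Agent.UNS.StA

/-!
UNI, module VIS: facts on visible points.
-/

set_option autoImplicit false
set_option linter.unusedVariables false

namespace Pool.Agent.UNS

open FirstOrder.Language Set
open scoped FirstOrder
open Pool.Agent.AAD (Gam Fx ls St su Ctx Pcs Sha)

section

variable {L : FirstOrder.Language.{0, 0}} {C : Type} [L.Structure C] [MulAction Gam C]

theorem VIS_refl (c : C) : Tr L c c := fun _ _ _ _ _ => Iff.rfl

theorem VIS_symm {c c' : C} (h : Tr L c c') : Tr L c' c := fun H _ θ z hz => (h H θ z hz).symm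

theorem VIS_trans {c c' c'' : C} (h : Tr L c c') (h' : Tr L c' c'') : Tr L c c'' :=
  fun H _ θ z hz => (h H θ z hz).trans (h' H θ z hz)

theorem VIS_act (hC : Ctx L C) {c c' : C} (h : Tr L c c') (g : Gam) : Tr L (g • c) (g • c') := by
  intro H _ θ z hz
  have e : (fun i => g • g⁻¹ • z i) = z := funext fun i => smul_inv_smul g (z i)
  have h1 := inv2 hC θ g (fun i => g⁻¹ • z i) (fun _ => c)
  have h2 := inv2 hC θ g (fun i => g⁻¹ • z i) (fun _ => c')
  rw [e] at h1 h2
  rw [h1, h2]
  refine h H θ _ fun i => ?_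
  rw [su_act hC]
  exact Finset.card_image_le.trans (hz i)

/-- the visible points are the least support of the class -/
theorem VIS_ls (hC : Ctx L C) (c : C) : (∀ g : Gam, (∀ a ∈ vs L c, g a = a) → Tr L (g • c) c) ∧
    ∀ A : Finset ℚ, (∀ g : Gam, (∀ a ∈ A, g a = a) → Tr L (g • c) c) → vs L c ⊆ A := by
  have h := ls_spec {g : Gam | Tr L (g • c) c}
    (show Tr L ((1 : Gam) • c) c by rw [one_smul]; exact VIS_refl c)
    (fun g hg h hh => show Tr L ((g * h) • c) c by
      rw [mul_smul]
      exact VIS_trans (VIS_act hC hh g) hg)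
    (fun g hg => show Tr L (g⁻¹ • c) c by
      have h1 := VIS_act hC (show Tr L (g • c) c from hg) g⁻¹
      rw [inv_smul_smul] at h1
      exact VIS_symm h1)
    ⟨su c, fun g hg => show Tr L (g • c) c by
      rw [su_fix hC hg]
      exact VIS_refl c⟩
  exact ⟨fun g hg => h.1 hg, fun A hA => h.2 A fun g hg => hA g hg⟩

end

/-- facts on visible points -/
theorem thm_VIS : St_VIS := by
  intro L C _ _ hC c
  obtain ⟨h1, h2⟩ := VIS_ls hC c
  refine ⟨h2 (su c) fun g hg => ?_, h1, fun p hp => ?_⟩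
  · rw [su_fix hC hg]
    exact VIS_refl c
  · by_contra hcon
    have h3 : ∀ g : Gam, (∀ a ∈ su c, a ≠ p → g a = a) → Tr L (g • c) c := fun g hg => by
      by_contra h4
      exact hcon ⟨g, hg, h4⟩
    have h4 := h2 ((su c).erase p) fun g hg => h3 g fun a ha hap =>
      hg a (Finset.mem_erase.2 ⟨hap, ha⟩)
    exact (Finset.mem_erase.1 (h4 hp)).1 rfl

end Pool.Agent.UNS
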