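import Pool.Agent.UNS.StT
import Pool.Agent.MNO.PRM

/-!
UNS, module SOR (helper82): a linear order which is definable with parameters depends only on the theory.
-/

set_option autoImplicit false

namespace Pool.Agent.UNS

open FirstOrder.Language Set
open scoped FirstOrder
open Pool.Agent.WOM (ThS)
open Pool.Agent.MNO (Dp)
open Pool.Agent.MNO.PRM (IsLo exlo exlo_iff)

theorem SOR_form {L : FirstOrder.Language.{0, 0}} {M : Type} [L.Structure M] (h : OrP L M) :
    ∃ (n : ℕ) (lt : L.Formula (Fin 2 ⊕ Fin n)) (c : Fin n → M), IsLo lt c := by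
  obtain ⟨r, hr, h1, h2, h3⟩ := h
  obtain ⟨B, hB, -, hr2⟩ :=
    Pool.Agent.MNO.dp_fin (P := fun v : Fin 2 → M => r (v 0) (v 1)) hr
  obtain ⟨n, c, rfl⟩ := Pool.Agent.MNO.exists_enum hB
  obtain ⟨lt, hlt⟩ := Pool.Agent.MNO.dp_form0 hr2
  have h4 : ∀ x y : M, lt.Realize (Sum.elim ![x, y] c) ↔ r x y := fun x y => (hlt ![x, y]).symm
  refine ⟨n, lt, c, ?_, ?_, ?_⟩
  · intro x
    rw [h4]
    exact h1 x
  · intro x y z
    rw [h4, h4, h4]
    exact h2 x y z
  · intro x y hxy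
    rw [h4, h4]
    exact h3 x y hxy

theorem SOR_back {L : FirstOrder.Language.{0, 0}} {M : Type} [L.Structure M] {n : ℕ}
    (lt : L.Formula (Fin 2 ⊕ Fin n)) (c : Fin n → M) (h : IsLo lt c) : OrP L M := by
  refine ⟨fun x y => lt.Realize (Sum.elim ![x, y] c), ?_, h.1, h.2.1, h.2.2⟩
  have h1 : Dp L (range c) (fun v : Fin 2 → M => lt.Realize (Sum.elim ![v 0, v 1] c)) := by
    refine Pool.Agent.MNO.dp_of_form0 lt (fun v => ?_)
    have hv : (![v 0, v 1] : Fin 2 → M) = v := by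
      funext i
      fin_cases i <;> rfl
    rw [hv]
  exact Definable.mono h1 (subset_univ _)

/-- [SOR] `OrP` depends only on the theory. -/
theorem thm_SOR : St_SOR := by
  intro L S S' hS' h
  obtain ⟨n, lt, c, hc⟩ := @SOR_form L ℕ S h
  have h1 : exlo lt ∈ ThS L S := (@exlo_iff L ℕ S n lt).2 ⟨c, hc⟩
  have h2 := @FirstOrder.Language.Theory.realize_sentence_of_mem L ℕ S' (ThS L S) hS' _ h1
  obtain ⟨c', hc'⟩ := (@exlo_iff L ℕ S' n lt).1 h2
  exact @SOR_back L ℕ S' n lt c' hc'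

end Pool.Agent.UNS
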