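import Pool.Agent.UNS.StT
import Pool.Agent.WOM.INC

/-!
UNS, module POT: monadically NIP classes of structures which are ordered or stable (helper45).
-/

set_option autoImplicit false
set_option linter.unusedVariables false

namespace Pool.Agent.UNS

open FirstOrder.Language Set
open scoped FirstOrder
open Pool.Agent.AAD (Sha)
open VPF (ModF)
open Pool.Agent.WOM (CtT PerfT ThS)

theorem POT_nip {κ ι : Type} {ar : κ → ℕ} {K : Cla ar} (hι : Countable ι) (hK : MonN K)
    (S : (LU ι ar).Structure ℕ) (h : InX K S) : @NiP (LU ι ar) ℕ S := by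
  intro P m n φ
  have hc : Countable (Option ι) := inferInstance
  obtain ⟨k, hk⟩ := hK (Option ι) hc (POU_exp S P) (POU_inK S P h) m n (POU_fm φ)
  refine ⟨k, fun ⟨x, y, hxy⟩ => hk ⟨x, y, fun i s => ?_⟩⟩
  rw [← hxy i s]
  exact POU_iff S P φ _

theorem thm_POT (hSMS : St_SMS) (hSOR : St_SOR) : St_POT := by
  intro κ hκ ar K hO hK ι hι T hT
  have hL : Countable (LU ι ar).Symbols := POU_ctb hι hκ
  have hf : ∀ n, IsEmpty ((LU ι ar).Functions n) := fun n => (inferInstance : IsEmpty Empty)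
  have key : CtT (LU ι ar) T ∨ PerfT (LU ι ar) T := by
    refine Pool.Agent.WOM.thm_INC Pool.Agent.WOM.thm_MEAS
      (Pool.Agent.WOM.thm_REAL Pool.Agent.WOM.thm_MEAS) (LU ι ar) hL T fun S hS => ?_
    have hmod : ∀ S' : (LU ι ar).Structure ℕ,
        @FirstOrder.Language.Theory.Model (LU ι ar) ℕ S' (ThS (LU ι ar) S) → InX K S' :=
      fun S' hS' => hT S' (@Pool.Agent.WOM.TOP_mono (LU ι ar) T S hS ℕ S' hS')
    by_cases ho : @OrP (LU ι ar) ℕ S
    · refine Pool.Agent.MNO.all_MAINP (LU ι ar) hL (ThS (LU ι ar) S) fun S' hS' => ?_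
      exact @Pool.Agent.MNO.HypP.mk (LU ι ar) ℕ S' (hSOR (LU ι ar) S S' hS' ho)
        (POT_nip hι hK S' (hmod S' hS'))
    · have hst : ∀ S' : (LU ι ar).Structure ℕ,
          @FirstOrder.Language.Theory.Model (LU ι ar) ℕ S' (ThS (LU ι ar) S) →
          @Pool.Agent.MST.Stb (LU ι ar) ℕ S' := by
        intro S' hS'
        refine (hO ι hι S' (hmod S' hS')).resolve_left fun h => ho (hSOR (LU ι ar) S' S ?_ h)
        have e : ThS (LU ι ar) S' = ThS (LU ι ar) S := by
          ext χ
          constructor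
          · intro h1
            by_contra h2
            have h3 : χ.not ∈ ThS (LU ι ar) S := h2
            exact (@FirstOrder.Language.Theory.realize_sentence_of_mem _ ℕ S' _ hS' _ h3) h1
          · intro h1
            exact @FirstOrder.Language.Theory.realize_sentence_of_mem _ ℕ S' _ hS' _ h1
        rw [e]
        exact @FirstOrder.Language.Theory.Model.mk _ ℕ S _ fun χ hχ => hχ
      refine Pool.Agent.MST.all_three (LU ι ar) hL (ThS (LU ι ar) S) fun S' hS' => ?_
      refine Or.inr (Or.inl (hSMS (LU ι ar) hL S' fun S'' hS'' => ?_))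
      have hS2 : @FirstOrder.Language.Theory.Model (LU ι ar) ℕ S'' (ThS (LU ι ar) S) :=
        @Pool.Agent.WOM.TOP_mono (LU ι ar) (ThS (LU ι ar) S) S' hS' ℕ S'' hS''
      exact ⟨hst S'' hS2, POT_nip hι hK S'' (hmod S'' hS2)⟩
  rcases key with ⟨g, hg⟩ | ⟨f, h1, h2, h3, _⟩
  · exact Or.inl ⟨g, fun S hS => (hg S hS).imp fun n h => VPF.CC.iso_of_equiv h⟩
  · exact Or.inr ⟨f, h1, fun x y h => h2 x y (VPF.CC.equiv_of_iso h), h3⟩

end Pool.Agent.UNS
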