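import Pool.Agent.UNS.StT

/-!
UNS, module SBD: bounded ladders in stable theories (helper22).
-/

set_option autoImplicit false
set_option linter.unusedVariables false

namespace Pool.Agent.UNS

open FirstOrder.Language Set
open scoped FirstOrder
open Pool.Agent.WOM (ThS)

section

variable {L : FirstOrder.Language.{0, 0}}

/-- the variables of an infinite ladder -/
abbrev SBD_Vr (m n : ℕ) : Type := (ℕ × Fin m) ⊕ (ℕ × Fin n)

/-- the renaming for the entry `(i, j)` -/
def SBD_ren (m n : ℕ) (p : ℕ × ℕ) : Fin m ⊕ Fin n → SBD_Vr m n ⊕ Empty :=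
  Sum.elim (fun t => Sum.inl (Sum.inl (p.1, t))) (fun t => Sum.inl (Sum.inr (p.2, t)))

/-- the condition for the entry `(i, j)` -/
noncomputable def SBD_cnd (m n : ℕ) (φ : L.Formula (Fin m ⊕ Fin n)) (p : ℕ × ℕ) :
    L.Formula (SBD_Vr m n ⊕ Empty) :=
  if p.1 < p.2 then φ.relabel (SBD_ren m n p) else (φ.relabel (SBD_ren m n p)).not

theorem SBD_cnd_iff {V : Type} [L.Structure V] (m n : ℕ) (φ : L.Formula (Fin m ⊕ Fin n))
    (p : ℕ × ℕ) (v : SBD_Vr m n → V) (c : Empty → V) :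
    (SBD_cnd m n φ p).Realize (Sum.elim v c) ↔
      (φ.Realize (Sum.elim (fun t => v (Sum.inl (p.1, t))) (fun t => v (Sum.inr (p.2, t)))) ↔
        p.1 < p.2) := by
  have e : (Sum.elim v c) ∘ SBD_ren m n p =
      (Sum.elim (fun t => v (Sum.inl (p.1, t))) (fun t => v (Sum.inr (p.2, t)))) := by
    funext i
    rcases i with i | i <;> rfl
  unfold SBD_cnd
  by_cases hp : p.1 < p.2
  · rw [if_pos hp, FirstOrder.Language.Formula.realize_relabel, e]
    simp [hp]
  · rw [if_neg hp, FirstOrder.Language.Formula.realize_not,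
      FirstOrder.Language.Formula.realize_relabel, e]
    simp [hp]

/-- ladders of all lengths give an infinite ladder in a saturated extension -/
theorem SBD_inf {U V : Type} [L.Structure U] [L.Structure V] [Nonempty U]
    (hV : Pool.Agent.MST.SatW L V) (j : U ↪ₑ[L] V) (m n : ℕ) (φ : L.Formula (Fin m ⊕ Fin n))
    (hex : ∀ k, LadT (fun (x : Fin m → U) (y : Fin n → U) => φ.Realize (Sum.elim x y)) k) :
    ∃ (a : ℕ → Fin m → V) (b : ℕ → Fin n → V), ∀ i j, φ.Realize (Sum.elim (a i) (b j)) ↔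
      i < j := by
  classical
  obtain ⟨v, hv⟩ := hV (SBD_Vr m n) Empty (fun e => e.elim) (range (SBD_cnd m n φ)) (by
    intro G hG hGf
    obtain ⟨N, hN⟩ : ∃ N : ℕ, ∀ ψ ∈ G, ∃ p : ℕ × ℕ, SBD_cnd m n φ p = ψ ∧
        p.1 < N ∧ p.2 < N := by
      induction G, hGf using Set.Finite.induction_on with
      | empty => exact ⟨0, fun ψ hψ => absurd hψ (notMem_empty ψ)⟩
      | @insert ψ t _ _ ih =>
        obtain ⟨N, hN⟩ := ih (fun x hx => hG (mem_insert_of_mem _ hx))
        obtain ⟨p, hp⟩ := hG (mem_insert ψ t)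
        refine ⟨N + p.1 + p.2 + 1, ?_⟩
        intro ψ' hψ'
        rcases hψ' with rfl | hψ'
        · exact ⟨p, hp, by omega, by omega⟩
        · obtain ⟨q, hq, h1, h2⟩ := hN ψ' hψ'
          exact ⟨q, hq, by omega, by omega⟩
    obtain ⟨x, y, hxy⟩ := hex N
    obtain ⟨u0⟩ : Nonempty U := inferInstance
    let w : SBD_Vr m n → U :=
      Sum.elim (fun q => if h : q.1 < N then x ⟨q.1, h⟩ q.2 else u0)
        (fun q => if h : q.1 < N then y ⟨q.1, h⟩ q.2 else u0)
    refine ⟨fun i => j (w i), fun ψ hψ => ?_⟩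
    obtain ⟨p, rfl, h1, h2⟩ := hN ψ hψ
    rw [SBD_cnd_iff]
    have e1 : (Sum.elim (fun t => j (w (Sum.inl (p.1, t)))) (fun t => j (w (Sum.inr (p.2, t)))) :
          Fin m ⊕ Fin n → V) = j ∘ (Sum.elim (x ⟨p.1, h1⟩) (y ⟨p.2, h2⟩)) := by
      funext i
      rcases i with i | i
      · simp only [w, Sum.elim_inl, Function.comp_apply, dif_pos h1]
      · simp only [w, Sum.elim_inr, Function.comp_apply, dif_pos h2]
    rw [e1, j.map_formula]
    refine (hxy ⟨p.1, h1⟩ ⟨p.2, h2⟩).trans ?_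
    rw [Fin.mk_lt_mk])
  refine ⟨fun i t => v (Sum.inl (i, t)), fun i t => v (Sum.inr (i, t)), fun i j => ?_⟩
  have h1 := hv _ ⟨(i, j), rfl⟩
  rw [SBD_cnd_iff] at h1
  exact h1

end

/-- [SBD] -/
theorem thm_SBD : St_SBD := by
  intro L hL S hS m n φ
  by_contra hcon
  push Not at hcon
  let _ := S
  obtain ⟨V, _, hV, ⟨j⟩⟩ := Pool.Agent.MST.thm_SAW L hL ℕ inferInstance
  have hVi : Infinite V := Infinite.of_injective j j.injective
  have e : ThS L S = L.completeTheory V := j.elementarilyEquivalent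
  have hst : Pool.Agent.MST.Stb L V :=
    (Pool.Agent.MST.all_HYP L hL V hVi).1 (fun S' hmod => hS S' (e ▸ hmod))
  obtain ⟨a, b, hab⟩ := SBD_inf hV j m n φ hcon
  exact hst m n φ a b hab

end Pool.Agent.UNS
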