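import Pool.Agent.UNS.StT

/-!
UNS, module SMC: exact arrays from a ladder of `∃ z ∈ P, φ(x, y, z)` in a stable structure (helper45).
-/

set_option autoImplicit false
set_option linter.unusedVariables false

namespace Pool.Agent.UNS

theorem SMC_mono (v0 v1 v2 v3 : ℕ) (h0 : v0 < v1) (h1 : v1 < v2) (h2 : v2 < v3) :
    StrictMono (![v0, v1, v2, v3] : Fin 4 → ℕ) := by
  rw [Fin.strictMono_iff_lt_succ]
  intro i
  fin_cases i
  · exact h0
  · exact h1
  · exact h2

theorem thm_SMC : St_SMC := by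
  classical
  intro A B Z F a b z h1 h0 hb1 hb2 N
  obtain ⟨K, hK⟩ := hb1
  obtain ⟨K', hK'⟩ := hb2
  obtain ⟨e, κ, he, hκ⟩ := HERN.thm_RAMN (Fin 4 → Fin 4 → Fin 4 → Fin 4 → Prop) 4
    (fun v p q r s => F (a (v p)) (b (v q)) (z (v r) (v s)))
  obtain ⟨G, hG⟩ : ∃ G : ℕ → ℕ → ℕ → ℕ → Prop, ∀ i k j l, G i k j l ↔
      F (a (e i)) (b (e k)) (z (e j) (e l)) := ⟨fun i k j l => _, fun i k j l => Iff.rfl⟩
  have key : ∀ v0 v1 v2 v3, v0 < v1 → v1 < v2 → v2 < v3 → ∀ p q r s : Fin 4,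
      G (![v0, v1, v2, v3] p) (![v0, v1, v2, v3] q) (![v0, v1, v2, v3] r)
        (![v0, v1, v2, v3] s) ↔ κ p q r s := by
    intro v0 v1 v2 v3 a0 a1 a2 p q r s
    rw [hG]
    have h := hκ _ (SMC_mono v0 v1 v2 v3 a0 a1 a2)
    exact iff_of_eq (congrFun (congrFun (congrFun (congrFun h p) q) r) s)
  have H1 : ∀ j l, j < l → G j l j l := fun j l h => (hG _ _ _ _).2 (h1 _ _ (he h))
  have H0 : ∀ i k j l, j < l → k ≤ i → ¬ G i k j l := fun i k j l h h' hh =>
    h0 _ _ _ _ (he h) (he.monotone h') ((hG _ _ _ _).1 hh)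
  -- the nine types
  have t1 : ∀ i k j l, j < i → i < k → k < l → (G i k j l ↔ κ 1 2 0 3) :=
    fun i k j l a0 a1 a2 => key j i k l a0 a1 a2 1 2 0 3
  have t2 : ∀ i k j l, j < l → l < i → i < k → (G i k j l ↔ κ 2 3 0 1) :=
    fun i k j l a0 a1 a2 => key j l i k a0 a1 a2 2 3 0 1
  have t3 : ∀ i k j l, i < j → j < k → k < l → (G i k j l ↔ κ 0 2 1 3) :=
    fun i k j l a0 a1 a2 => key i j k l a0 a1 a2 0 2 1 3
  have t4 : ∀ i k j l, j < i → i < l → l < k → (G i k j l ↔ κ 1 3 0 2) :=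
    fun i k j l a0 a1 a2 => key j i l k a0 a1 a2 1 3 0 2
  have t5 : ∀ i k j l, i < j → j < l → l < k → (G i k j l ↔ κ 0 3 1 2) :=
    fun i k j l a0 a1 a2 => key i j l k a0 a1 a2 0 3 1 2
  have t6 : ∀ k j l, j < k → k < l → (G j k j l ↔ κ 0 1 0 2) :=
    fun k j l a0 a1 => key j k l (l + 1) a0 a1 (by omega) 0 1 0 2
  have t7 : ∀ k j l, j < l → l < k → (G j k j l ↔ κ 0 2 0 1) :=
    fun k j l a0 a1 => key j l k (k + 1) a0 a1 (by omega) 0 2 0 1
  have t8 : ∀ i j l, j < i → i < l → (G i l j l ↔ κ 1 2 0 2) :=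
    fun i j l a0 a1 => key j i l (l + 1) a0 a1 (by omega) 1 2 0 2
  have t9 : ∀ i j l, i < j → j < l → (G i l j l ↔ κ 0 2 1 2) :=
    fun i j l a0 a1 => key i j l (l + 1) a0 a1 (by omega) 0 2 1 2
  -- ladders
  have lad1 : ∀ (i k j l : ℕ → ℕ), ¬ ∀ s t, s < K → t < K → (G (i s) (k t) (j t) (l t) ↔ s < t) := by
    intro i k j l h
    refine hK ⟨fun s => a (e (i s)), fun t => (b (e (k t)), z (e (j t)) (e (l t))), fun s t => ?_⟩
    have := h s t s.2 t.2
    rw [hG] at this
    rw [Fin.lt_def]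
    exact this
  have lad2 : ∀ (i k j l : ℕ → ℕ), ¬ ∀ s t, s < K' → t < K' →
      (G (i s) (k t) (j s) (l s) ↔ s < t) := by
    intro i k j l h
    refine hK' ⟨fun s => (a (e (i s)), z (e (j s)) (e (l s))), fun t => b (e (k t)), fun s t => ?_⟩
    have := h s t s.2 t.2
    rw [hG] at this
    rw [Fin.lt_def]
    exact this
  have n1 : ¬ κ 1 2 0 3 := by
    intro hc
    refine lad1 (fun s => 2 * s + 2) (fun t => 2 * t + 1) (fun _ => 0) (fun _ => 2 * K + 3)
      fun s t hs ht => ?_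
    by_cases h : s < t
    · exact iff_of_true ((t1 _ _ _ _ (by omega) (by omega) (by omega)).2 hc) h
    · exact iff_of_false (H0 _ _ _ _ (by omega) (by omega)) h
  have n2 : ¬ κ 2 3 0 1 := by
    intro hc
    refine lad1 (fun s => 2 * s + 3) (fun t => 2 * t + 2) (fun _ => 0) (fun _ => 1)
      fun s t hs ht => ?_
    by_cases h : s < t
    · exact iff_of_true ((t2 _ _ _ _ (by omega) (by omega) (by omega)).2 hc) h
    · exact iff_of_false (H0 _ _ _ _ (by omega) (by omega)) h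
  have n3 : ¬ κ 0 2 1 3 := by
    intro hc
    refine lad1 (fun s => 2 * s + 1) (fun _ => 2 * K + 1) (fun t => 2 * t) (fun _ => 2 * K + 2)
      fun s t hs ht => ?_
    by_cases h : s < t
    · exact iff_of_true ((t3 _ _ _ _ (by omega) (by omega) (by omega)).2 hc) h
    · exact iff_of_false (fun hh => n1 ((t1 _ _ _ _ (by omega) (by omega) (by omega)).1 hh)) h
  have n4 : ¬ κ 1 3 0 2 := by
    intro hc
    refine lad1 (fun s => 2 * s + 2) (fun _ => 2 * K + 3) (fun _ => 0) (fun t => 2 * t + 1)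
      fun s t hs ht => ?_
    by_cases h : s < t
    · exact iff_of_true ((t4 _ _ _ _ (by omega) (by omega) (by omega)).2 hc) h
    · exact iff_of_false (fun hh => n2 ((t2 _ _ _ _ (by omega) (by omega) (by omega)).1 hh)) h
  have n5 : ¬ κ 0 3 1 2 := by
    intro hc
    refine lad1 (fun s => 2 * s + 1) (fun _ => 2 * K + 3) (fun t => 2 * t) (fun _ => 2 * K + 2)
      fun s t hs ht => ?_
    by_cases h : s < t
    · exact iff_of_true ((t5 _ _ _ _ (by omega) (by omega) (by omega)).2 hc) h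
    · exact iff_of_false (fun hh => n4 ((t4 _ _ _ _ (by omega) (by omega) (by omega)).1 hh)) h
  have n6 : ¬ κ 0 1 0 2 := by
    intro hc
    refine lad2 (fun s => 2 * s + 1) (fun t => 2 * t) (fun s => 2 * s + 1) (fun _ => 2 * K' + 2)
      fun s t hs ht => ?_
    by_cases h : s < t
    · exact iff_of_true ((t6 _ _ _ (by omega) (by omega)).2 hc) h
    · exact iff_of_false (H0 _ _ _ _ (by omega) (by omega)) h
  have n7 : ¬ κ 0 2 0 1 := by
    intro hc
    refine lad2 (fun _ => 0) (fun t => 2 * t + 1) (fun _ => 0) (fun s => 2 * s + 2)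
      fun s t hs ht => ?_
    by_cases h : s < t
    · exact iff_of_true ((t7 _ _ _ (by omega) (by omega)).2 hc) h
    · exact iff_of_false (fun hh => n6 ((t6 _ _ _ (by omega) (by omega)).1 hh)) h
  have n8 : ¬ κ 1 2 0 2 := by
    intro hc
    refine lad1 (fun s => 2 * s + 2) (fun t => 2 * t + 1) (fun _ => 0) (fun t => 2 * t + 1)
      fun s t hs ht => ?_
    by_cases h : s < t
    · exact iff_of_true ((t8 _ _ _ (by omega) (by omega)).2 hc) h
    · exact iff_of_false (H0 _ _ _ _ (by omega) (by omega)) h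
  have n9 : ¬ κ 0 2 1 2 := by
    intro hc
    refine lad1 (fun s => 2 * s + 1) (fun _ => 2 * K + 2) (fun t => 2 * t) (fun _ => 2 * K + 2)
      fun s t hs ht => ?_
    by_cases h : s < t
    · exact iff_of_true ((t9 _ _ _ (by omega) (by omega)).2 hc) h
    · exact iff_of_false (fun hh => n8 ((t8 _ _ _ (by omega) (by omega)).1 hh)) h
  -- the array
  refine ⟨fun i => a (e i), fun k => b (e (N + k)), fun i k => z (e i) (e (N + k)),
    fun i k j l => ?_⟩
  have hgoal : G i (N + k) j (N + l) ↔ i = j ∧ k = l := by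
    have hi := i.2
    have hj := j.2
    rcases lt_trichotomy (i : ℕ) j with hij | hij | hij
    · refine iff_of_false (fun hh => ?_) (fun hh => by rw [hh.1] at hij; omega)
      rcases lt_trichotomy (k : ℕ) l with hkl | hkl | hkl
      · exact n3 ((t3 _ _ _ _ hij (by omega) (by omega)).1 hh)
      · rw [hkl] at hh
        exact n9 ((t9 _ _ _ hij (by omega)).1 hh)
      · exact n5 ((t5 _ _ _ _ hij (by omega) (by omega)).1 hh)
    · rcases lt_trichotomy (k : ℕ) l with hkl | hkl | hkl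
      · refine iff_of_false (fun hh => ?_) (fun hh => by rw [hh.2] at hkl; omega)
        rw [hij] at hh
        exact n6 ((t6 _ _ _ (by omega) (by omega)).1 hh)
      · refine iff_of_true ?_ ⟨Fin.ext hij, Fin.ext hkl⟩
        rw [hij, hkl]
        exact H1 _ _ (by omega)
      · refine iff_of_false (fun hh => ?_) (fun hh => by rw [hh.2] at hkl; omega)
        rw [hij] at hh
        exact n7 ((t7 _ _ _ (by omega) (by omega)).1 hh)
    · refine iff_of_false (fun hh => ?_) (fun hh => by rw [hh.1] at hij; omega)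
      rcases lt_trichotomy (k : ℕ) l with hkl | hkl | hkl
      · exact n1 ((t1 _ _ _ _ hij (by omega) (by omega)).1 hh)
      · rw [hkl] at hh
        exact n8 ((t8 _ _ _ hij (by omega)).1 hh)
      · exact n4 ((t4 _ _ _ _ hij (by omega) (by omega)).1 hh)
  rw [hG] at hgoal
  exact hgoal

end Pool.Agent.UNS
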