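import Pool.Agent.UNS.StT

/-!
UNS, module SNE: no exact arrays of all sizes.
-/

set_option autoImplicit false
set_option linter.unusedVariables false

namespace Pool.Agent.UNS

open FirstOrder.Language Set
open scoped FirstOrder
open Pool.Agent.WOM (CtT PerfT ThS)

theorem thm_SNE : St_SNE := by
  classical
  intro L hL S hnip m n φ
  by_contra hcon
  push Not at hcon
  obtain ⟨S', hmod, x, y, z, hxyz⟩ := @Pool.Agent.MNO.thm_INA L hL ℕ S inferInstance m n φ hcon
  obtain ⟨g, hg⟩ := exists_surjective_nat (Finset ℕ)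
  obtain ⟨k, hk⟩ := hnip S' hmod {w | ∃ a b, w = z a b ∧ a ∈ g b} m n φ
  have hcode : ∀ s : Set (Fin k), ∃ b : ℕ, ∀ i : Fin k, (i : ℕ) ∈ g b ↔ i ∈ s := by
    intro s
    have hfin : ((fun i : Fin k => (i : ℕ)) '' s).Finite := s.toFinite.image _
    obtain ⟨b, hb⟩ := hg hfin.toFinset
    refine ⟨b, fun i => ?_⟩
    rw [hb, Set.Finite.mem_toFinset]
    constructor
    · rintro ⟨i', h1, h2⟩
      rwa [Fin.val_injective h2] at h1
    · intro h1
      exact ⟨i, h1, rfl⟩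
  choose b hb using hcode
  refine hk ⟨fun i => x i, fun s => y (b s), fun i s => ?_⟩
  rw [← hb s i]
  constructor
  · rintro ⟨w, ⟨a, b', rfl, hab⟩, hw⟩
    obtain ⟨h1, h2⟩ := (hxyz _ _ _ _).1 hw
    rw [h1, h2]
    exact hab
  · intro h1
    exact ⟨_, ⟨i, b s, rfl, h1⟩, (hxyz _ _ _ _).2 ⟨rfl, rfl⟩⟩

end Pool.Agent.UNS
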