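import Pool.Agent.UNS.SMS
import Pool.Agent.UNS.POT
import Pool.Agent.UNS.SMC
import Pool.Agent.UNS.SBD
import Pool.Agent.UNS.SNE
import Pool.Agent.UNS.SOR

/-!
UNS: the positive half for classes of ordered or stable structures (helper45).
-/

set_option autoImplicit false

namespace Pool.Agent.UNS

theorem all_SMS : St_SMS := thm_SMS thm_SMC thm_SBD thm_SNE

theorem all_POT : St_POT := thm_POT all_SMS thm_SOR

end Pool.Agent.UNS
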