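import Pool.Agent.UNS.StA
import Pool.Agent.MNO.BAG

/-!
UNS, [CAT]: a countable structure with finitely many orbits on tuples is determined by its theory.
-/

set_option autoImplicit false
set_option linter.unusedVariables false

namespace Pool.Agent.UNS

open FirstOrder.Language Set
open scoped FirstOrder
open Pool.Agent.AAD (Gam Fx ls St su Ctx)

section CAT

variable {L : FirstOrder.Language.{0, 0}} {N M : Type} [L.Structure N] [L.Structure M]

/-- formulas which hold for all tuples of `N` hold for all tuples of `M` -/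
theorem CAT_tr (hT : ∀ σ : L.Sentence, N ⊨ σ → M ⊨ σ) {α : Type} [Finite α] (φ : L.Formula α)
    (h : ∀ v : α → N, φ.Realize v) (w : α → M) : φ.Realize w := by
  have key : ∀ (K : Type) [L.Structure K], K ⊨ (Formula.iAlls α
      (φ.relabel (Sum.inr : α → Empty ⊕ α)) : L.Sentence) ↔ ∀ v : α → K, φ.Realize v := by
    intro K _
    rw [Sentence.Realize, Formula.realize_iAlls]
    refine forall_congr' fun v => ?_
    rw [Formula.realize_relabel]
    rfl
  exact (key M).1 (hT _ ((key N).2 h)) w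

/-- `χ` is true at `y` (in `N`) and `z` (in `M`), and all tuples of `N` which satisfy `χ` have the same type -/
theorem CAT_same (hT : ∀ σ : L.Sentence, N ⊨ σ → M ⊨ σ) {α : Type} [Finite α] (χ : L.Formula α)
    (hχ : ∀ y y' : α → N, χ.Realize y → χ.Realize y' → ∀ ψ : L.Formula α,
      ψ.Realize y → ψ.Realize y') (y : α → N) (z : α → M) (hy : χ.Realize y) (hz : χ.Realize z)
    (ψ : L.Formula α) : ψ.Realize y ↔ ψ.Realize z := by
  have key : ∀ ψ : L.Formula α, ψ.Realize y → ψ.Realize z := by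
    intro ψ hψ
    have h1 := CAT_tr hT (χ.imp ψ) (fun v => by
      rw [Formula.realize_imp]
      exact fun hv => hχ y v hy hv ψ hψ) z
    rw [Formula.realize_imp] at h1
    exact h1 hz
  refine ⟨key ψ, fun h => ?_⟩
  by_contra hn
  have h1 := key ψ.not (by rwa [Formula.realize_not])
  rw [Formula.realize_not] at h1
  exact h1 h

/-- finitely many types, each isolated -/
theorem CAT_iso {α : Type} [Finite α] (T : Set (α → N)) (hTf : T.Finite)
    (hT : ∀ v : α → N, ∃ t ∈ T, ∀ φ : L.Formula α, φ.Realize v ↔ φ.Realize t) (v : α → N) :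
    ∃ χ : L.Formula α, χ.Realize v ∧ ∀ y y' : α → N, χ.Realize y → χ.Realize y' →
      ∀ ψ : L.Formula α, ψ.Realize y → ψ.Realize y' := by
  classical
  have hfin : Finite T := hTf
  have hsep : ∀ t : T, ∃ ψ : L.Formula α, ψ.Realize v ∧
      (ψ.Realize t.1 → ∀ φ : L.Formula α, φ.Realize v ↔ φ.Realize t.1) := by
    intro t
    by_cases h : ∀ φ : L.Formula α, φ.Realize v ↔ φ.Realize t.1
    · exact ⟨⊤, by simp, fun _ => h⟩
    · push Not at h
      obtain ⟨φ, hφ⟩ := h
      rcases hφ with ⟨h1, h2⟩ | ⟨h1, h2⟩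
      · exact ⟨φ, h1, fun h3 => absurd h3 h2⟩
      · exact ⟨φ.not, by rwa [Formula.realize_not], fun h3 => by
          rw [Formula.realize_not] at h3
          exact absurd h2 h3⟩
  choose ψ hψ1 hψ2 using hsep
  have hχ : ∀ y : α → N, (Formula.iInf ψ).Realize y → ∀ φ : L.Formula α, φ.Realize v ↔ φ.Realize y := by
    intro y hy φ
    obtain ⟨t, ht, h1⟩ := hT y
    have h2 : (ψ ⟨t, ht⟩).Realize t := by
      rw [← h1]
      exact (Formula.realize_iInf.1 hy) ⟨t, ht⟩
    rw [hψ2 ⟨t, ht⟩ h2 φ, ← h1]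
  refine ⟨Formula.iInf ψ, Formula.realize_iInf.2 hψ1, fun y y' hy hy' φ h => ?_⟩
  rw [← hχ y' hy', hχ y hy]
  exact h

/-- the types of all finite tuples -/
theorem CAT_fin [MulAction Gam N] (hC : Ctx L N) (hF : ∀ n : ℕ, ∃ T : Set (Fin n → N), T.Finite ∧
      ∀ v : Fin n → N, ∃ t ∈ T, ∃ g : Gam, v = fun i => g • t i) (α : Type) [Finite α] :
    ∃ T : Set (α → N), T.Finite ∧ ∀ v : α → N, ∃ t ∈ T, ∀ φ : L.Formula α,
      φ.Realize v ↔ φ.Realize t := by
  obtain ⟨n, ⟨e⟩⟩ := Finite.exists_equiv_fin α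
  obtain ⟨T, hTf, hT⟩ := hF n
  refine ⟨(fun t => t ∘ e) '' T, hTf.image _, fun v => ?_⟩
  obtain ⟨t, ht, g, hg⟩ := hT (v ∘ e.symm)
  refine ⟨t ∘ e, ⟨t, ht, rfl⟩, fun φ => ?_⟩
  have h1 : v = fun i => g • (t ∘ e) i := by
    funext i
    have h2 := congrFun hg (e i)
    simpa using h2
  rw [h1]
  exact inv hC φ g (t ∘ e)

/-- positions of the game: finite relations given by tuples with the same type -/
def CAT_P (L : FirstOrder.Language.{0, 0}) (N M : Type) [L.Structure N] [L.Structure M]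
    (t : Set (N × M)) : Prop :=
  ∃ (α : Type) (_ : Finite α) (v : α → N) (w : α → M), t = range (fun i => (v i, w i)) ∧
    ∀ φ : L.Formula α, φ.Realize v ↔ φ.Realize w

theorem CAT_range {α : Type} (v : α → N) (w : α → M) (x : N) (y : M) :
    range (fun i : α ⊕ Unit => (Sum.elim v (fun _ => x) i, Sum.elim w (fun _ => y) i)) =
      insert (x, y) (range fun i => (v i, w i)) := by
  ext c
  constructor
  · rintro ⟨i | i, rfl⟩
    · exact Or.inr ⟨i, rfl⟩
    · exact Or.inl rfl
  · rintro (rfl | ⟨i, rfl⟩)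
    · exact ⟨Sum.inr (), rfl⟩
    · exact ⟨Sum.inl i, rfl⟩

/-- the theorem -/
theorem CAT_main [MulAction Gam N] (cN : Countable N) (cM : Countable M) (hC : Ctx L N)
    (hF : ∀ n : ℕ, ∃ T : Set (Fin n → N), T.Finite ∧
      ∀ v : Fin n → N, ∃ t ∈ T, ∃ g : Gam, v = fun i => g • t i)
    (hT : ∀ σ : L.Sentence, N ⊨ σ → M ⊨ σ) : Nonempty (N ≃[L] M) := by
  classical
  have hfin := fun (α : Type) [Finite α] => CAT_fin hC hF α
  -- forth
  have forth : ∀ s, s.Finite → CAT_P L N M s → ∀ x ∈ (univ : Set N), ∃ y ∈ (univ : Set M),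
      CAT_P L N M (insert (x, y) s) := by
    rintro s - ⟨α, hα, v, w, rfl, hvw⟩ x -
    obtain ⟨T, hTf, hTT⟩ := hfin (α ⊕ Unit)
    obtain ⟨χ, hχ1, hχ2⟩ := CAT_iso T hTf hTT (Sum.elim v fun _ => x)
    have h1 : (χ.iExs Unit).Realize v := Formula.realize_iExs.2 ⟨fun _ => x, hχ1⟩
    rw [hvw] at h1
    obtain ⟨i, hi⟩ := Formula.realize_iExs.1 h1
    refine ⟨i (), trivial, α ⊕ Unit, inferInstance, Sum.elim v fun _ => x, Sum.elim w fun _ => i (),
      (CAT_range v w x (i ())).symm, fun ψ => ?_⟩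
    exact CAT_same hT χ hχ2 _ _ hχ1 hi ψ
  have back : ∀ s, s.Finite → CAT_P L N M s → ∀ y ∈ (univ : Set M), ∃ x ∈ (univ : Set N),
      CAT_P L N M (insert (x, y) s) := by
    rintro s - ⟨α, hα, v, w, rfl, hvw⟩ y -
    obtain ⟨T, hTf, hTT⟩ := hfin (α ⊕ Unit)
    have hfT : Finite T := hTf
    choose χ hχ1 hχ2 using fun t : T => CAT_iso T hTf hTT t.1
    have h1 := CAT_tr hT (Formula.iSup χ) (fun z => by
      rw [Formula.realize_iSup]
      obtain ⟨t, ht, h2⟩ := hTT z
      exact ⟨⟨t, ht⟩, (h2 _).2 (hχ1 ⟨t, ht⟩)⟩) (Sum.elim w fun _ => y)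
    rw [Formula.realize_iSup] at h1
    obtain ⟨t, ht⟩ := h1
    have h3 : ((χ t).iExs Unit).Realize w := Formula.realize_iExs.2 ⟨fun _ => y, ht⟩
    rw [← hvw] at h3
    obtain ⟨i, hi⟩ := Formula.realize_iExs.1 h3
    refine ⟨i (), trivial, α ⊕ Unit, inferInstance, Sum.elim v fun _ => i (), Sum.elim w fun _ => y,
      (CAT_range v w (i ()) y).symm, fun ψ => ?_⟩
    exact CAT_same hT (χ t) (hχ2 t) _ _ hi ht ψ
  have h0 : CAT_P L N M ∅ := by
    refine ⟨Empty, inferInstance, fun i => i.elim, fun i => i.elim, ?_, fun φ => ?_⟩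
    · symm
      rw [Set.range_eq_empty_iff]
      infer_instance
    · have key : ∀ φ : L.Formula Empty, φ.Realize (fun i => i.elim : Empty → N) →
          φ.Realize (fun i => i.elim : Empty → M) := by
        intro φ h
        refine CAT_tr hT φ (fun v => ?_) _
        have h1 : v = fun i => i.elim := funext fun i => i.elim
        rw [h1]
        exact h
      refine ⟨key φ, fun h => ?_⟩
      by_contra hn
      have h1 := key φ.not (by rwa [Formula.realize_not])
      rw [Formula.realize_not] at h1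
      exact h1 h
  have heq : ∀ s, s.Finite → CAT_P L N M s → ∀ c ∈ s, ∀ c' ∈ s, (c.1 = c'.1 ↔ c.2 = c'.2) := by
    rintro s - ⟨α, hα, v, w, rfl, hvw⟩ c ⟨i, rfl⟩ c' ⟨j, rfl⟩
    have h1 := hvw ((Term.var i).equal (Term.var j))
    rw [Formula.realize_equal, Formula.realize_equal] at h1
    exact h1
  obtain ⟨e, he⟩ := MNO.thm_BAG N M univ univ (CAT_P L N M) (to_countable _) (to_countable _) h0
    forth back heq
  let e' : N ≃ M := (Equiv.Set.univ N).symm.trans (e.trans (Equiv.Set.univ M))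
  have he' : ∀ x : N, e' x = (e ⟨x, trivial⟩ : M) := fun x => rfl
  refine ⟨{ toEquiv := e'
            map_fun' := fun {n} f _ => (hC.nof n).elim f
            map_rel' := fun {n} r x => ?_ }⟩
  obtain ⟨t, -, ⟨α, hα, v, w, rfl, hvw⟩, -, ht⟩ := he (range fun i => (⟨x i, trivial⟩ : (univ : Set N)))
    (finite_range _)
  have hj : ∀ i, ∃ j, v j = x i ∧ w j = e' (x i) := by
    intro i
    obtain ⟨j, hj⟩ := ht _ ⟨i, rfl⟩
    exact ⟨j, congrArg Prod.fst hj, congrArg Prod.snd hj⟩
  choose j hj1 hj2 using hj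
  have h1 := hvw (r.formula fun i => Term.var (j i))
  rw [Formula.realize_rel, Formula.realize_rel] at h1
  have e1 : (fun i => (Term.var (j i) : L.Term α).realize v) = x := funext hj1
  have e2 : (fun i => (Term.var (j i) : L.Term α).realize w) = e' ∘ x := funext hj2
  rw [e1, e2] at h1
  exact h1.symm

end CAT

/-- [CAT] -/
theorem thm_CAT (hFOT : St_FOT) : St_CAT := by
  intro L N M _ _ _ cN cM hC hT h
  exact CAT_main cN cM hC (hFOT L N hC hT) h

end Pool.Agent.UNS
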