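import Pool.Agent.UNS.StA

/-!
# UNS, module EDF: `E` is first-order if the levels are named (helper15)
-/

set_option autoImplicit false
set_option linter.unusedVariables false

namespace Pool.Agent.UNS

open FirstOrder.Language Set
open scoped FirstOrder
open Pool.Agent.AAD (Gam Fx ls St su Ctx Pcs Sha UD UD_congr UD_sub UD_rel UD_eq UD_imp UD_iff UD_const
  UD_all UD_fin)

section

variable {κ : Type} {ar : κ → ℕ} {ι ι' : Type}

/-- the inclusion of the languages -/
private def EDF_hom (f : ι → ι') : LU ι ar →ᴸ LU ι' ar where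
  onFunction := fun {n} f => Empty.elim f
  onRelation := fun {n} R => match n, R with
    | _, .un i => (Sm.un (f i) : Sm ι' ar 1)
    | _, .rl c => Sm.rl c

variable {C : Type} (S : (LU ι ar).Structure C) (S' : (LU ι' ar).Structure C)

private theorem EDF_real (f : ι → ι') (h1 : ∀ c v, rr S' c v ↔ rr S c v)
    (h2 : ∀ i x, uu S' (f i) x ↔ uu S i x) {α : Type} (φ : (LU ι ar).Formula α) (v : α → C) :
    @Formula.Realize _ C S' α ((EDF_hom f).onFormula φ) v ↔ @Formula.Realize _ C S α φ v := by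
  let _ := S
  let _ := S'
  have : (EDF_hom (ar := ar) f).IsExpansionOn C := by
    constructor
    · intro n f x
      exact Empty.elim f
    · intro n R x
      match n, R with
      | _, .un i =>
        have hx : (fun _ : Fin 1 => x 0) = x := by
          funext i
          rw [Subsingleton.elim i 0]
        have h3 := h2 i (x 0)
        unfold uu at h3
        rw [hx] at h3
        exact propext h3
      | _, .rl c => exact propext (h1 c x)
  exact LHom.realize_onFormula _ φ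

variable [A : MulAction Gam C] {c : C} {p p' : ℚ} {I J : Set ℚ} {H : Type} [Finite H]
  (D : @Cfg (LU ι ar) C S A c p p' I J H)

/-- definable relations of `S'` -/
private abbrev EDF_U (S' : (LU ι' ar).Structure C) (α : Type) (Q : (α → C) → Prop) : Prop :=
  UD (LU ι' ar) (J := Unit) (fun _ => C) (fun _ => S') α fun _ v => Q v

private theorem EDF_lev (j : H → ι')
    (h : ∀ h x, uu S' (j h) x ↔ x ∈ @Lev C A I J (@Cfg.z (LU ι ar) C S A c p p' I J H D h))
    {α : Type} (a : H → α) :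
    EDF_U S' α fun v => @Cfg.lev (LU ι ar) C S A c p p' I J H D fun h => v (a h) := by
  refine UD_congr (UD_fin (I := H) (Q := fun i _ v => uu S' (j i) (v (a i))) fun i => ?_)
    fun _ v => forall_congr' fun i => h i _
  exact UD_rel (B := LU ι' ar) (J := Unit) (X := fun _ => C) (S := fun _ => S') (n := 1)
    (Sm.un (j i) : Sm ι' ar 1) (fun _ => a i)

omit [Finite H] in
private theorem EDF_T (f : ι → ι') (h1 : ∀ c v, rr S' c v ↔ rr S c v)
    (h2 : ∀ i x, uu S' (f i) x ↔ uu S i x) {α : Type} (a b : H → α) (y : α) :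
    EDF_U S' α fun v => @Cfg.T (LU ι ar) C S A c p p' I J H D (fun h => v (a h))
      (fun h => v (b h)) (v y) := by
  classical
  have h3 : UD (LU ι' ar) (J := Unit) (fun _ => C) (fun _ => S') (H ⊕ Unit) fun _ v =>
      @Formula.Realize _ C S (H ⊕ Unit) (@Cfg.θ (LU ι ar) C S A c p p' I J H D) v :=
    ⟨(EDF_hom f).onFormula (@Cfg.θ (LU ι ar) C S A c p p' I J H D), fun _ v =>
      EDF_real S S' f h1 h2 _ v⟩
  refine UD_congr (UD_sub h3 (Sum.elim
    (fun h => if su (@Cfg.z (LU ι ar) C S A c p p' I J H D h) = {p'} then a h else b h)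
    (fun _ => y))) fun _ v => ?_
  have h4 : (fun i : H ⊕ Unit => v (Sum.elim
      (fun h => if su (@Cfg.z (LU ι ar) C S A c p p' I J H D h) = {p'} then a h else b h)
      (fun _ => y) i)) = Sum.elim (@Cfg.mix (LU ι ar) C S A c p p' I J H D (fun h => v (a h))
        (fun h => v (b h))) fun _ => v y := by
    funext i
    rcases i with i | i
    · simp only [Sum.elim_inl, Cfg.mix]
      split_ifs <;> rfl
    · rfl
  rw [h4]
  exact Iff.rfl

private theorem EDF_sel (f : ι → ι') (j : H → ι') (h1 : ∀ c v, rr S' c v ↔ rr S c v)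
    (h2 : ∀ i x, uu S' (f i) x ↔ uu S i x)
    (h3 : ∀ h x, uu S' (j h) x ↔ x ∈ @Lev C A I J (@Cfg.z (LU ι ar) C S A c p p' I J H D h))
    {α : Type} (y : α) (a : H → α) :
    EDF_U S' α fun v => @Cfg.sel (LU ι ar) C S A c p p' I J H D (v y) (fun h => v (a h)) := by
  have h4 := UD_imp (EDF_lev S S' D j h3 (α := (α ⊕ H) ⊕ H) Sum.inr)
    (UD_iff (EDF_T S S' D f h1 h2 (α := (α ⊕ H) ⊕ H) (fun h => Sum.inl (Sum.inl (a h))) Sum.inr
      (Sum.inl (Sum.inl y)))
      (EDF_T S S' D f h1 h2 (α := (α ⊕ H) ⊕ H) (fun h => Sum.inl (Sum.inr h)) Sum.inr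
      (Sum.inl (Sum.inl y))))
  have h5 := UD_imp (EDF_lev S S' D j h3 (α := α ⊕ H) Sum.inr) (UD_imp (UD_all h4)
    (UD_fin (I := H) fun i => UD_imp (UD_const (su (@Cfg.z (LU ι ar) C S A c p p' I J H D i) = {p'}))
      (UD_eq (Sum.inr i) (Sum.inl (a i)))))
  exact UD_congr (UD_all h5) fun _ v => Iff.rfl

private theorem EDF_E (f : ι → ι') (j : H → ι') (h1 : ∀ c v, rr S' c v ↔ rr S c v)
    (h2 : ∀ i x, uu S' (f i) x ↔ uu S i x)
    (h3 : ∀ h x, uu S' (j h) x ↔ x ∈ @Lev C A I J (@Cfg.z (LU ι ar) C S A c p p' I J H D h))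
    {α : Type} (y y' : α) :
    EDF_U S' α fun v => @Cfg.E (LU ι ar) C S A c p p' I J H D (v y) (v y') := by
  have h4 := UD_imp (EDF_lev S S' D j h3 (α := ((α ⊕ H) ⊕ H) ⊕ H) Sum.inr)
    (UD_iff (EDF_T S S' D f h1 h2 (α := ((α ⊕ H) ⊕ H) ⊕ H) (fun h => Sum.inl (Sum.inl (Sum.inr h)))
      Sum.inr (Sum.inl (Sum.inl (Sum.inl y))))
      (EDF_T S S' D f h1 h2 (α := ((α ⊕ H) ⊕ H) ⊕ H) (fun h => Sum.inl (Sum.inr h)) Sum.inr
      (Sum.inl (Sum.inl (Sum.inl y')))))
  have h5 := UD_imp (EDF_lev S S' D j h3 (α := (α ⊕ H) ⊕ H) fun h => Sum.inl (Sum.inr h))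
    (UD_imp (EDF_lev S S' D j h3 (α := (α ⊕ H) ⊕ H) Sum.inr)
    (UD_imp (EDF_sel S S' D f j h1 h2 h3 (α := (α ⊕ H) ⊕ H) (Sum.inl (Sum.inl y))
      fun h => Sum.inl (Sum.inr h))
    (UD_imp (EDF_sel S S' D f j h1 h2 h3 (α := (α ⊕ H) ⊕ H) (Sum.inl (Sum.inl y')) Sum.inr)
    (UD_all h4))))
  exact UD_congr (UD_all (UD_all h5)) fun _ v => Iff.rfl

end

theorem thm_EDF : St_EDF := by
  intro κ ar ι ι' C S S' A c p p' I J H _ D f j h1 h2 h3
  obtain ⟨e, he⟩ := EDF_E S S' D f j h1 h2 h3 (α := Fin 2) 0 1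
  exact ⟨e, fun x y => he () ![x, y]⟩

end Pool.Agent.UNS
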