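import Pool.Agent.UNS.StA

/-!
UNS, [EQ1]: the relation `E` is equality of the first coordinates (helper45).
-/

set_option autoImplicit false
set_option linter.unusedVariables false

namespace Pool.Agent.UNS

open FirstOrder.Language Set
open scoped FirstOrder
open Pool.Agent.AAD (Gam Fx ls St su Ctx Pcs Sha)

/-- global moves -/
structure EQG (I J : Set ℚ) (τ : Gam) : Prop where
  i : ∀ x ∈ I, τ x ∈ I
  j : ∀ x ∈ J, τ x ∈ J
  o : ∀ x, x ∉ I → x ∉ J → τ x = x

theorem EQG_of {I J : Set ℚ} (hd : Disjoint I J) {τ : Gam} (h : ∀ x, x ∉ I → τ x = x) :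
    EQG I J τ where
  i := by
    intro x hx
    by_contra hc
    have h1 := h _ hc
    have h2 : τ x = x := τ.injective h1
    exact hc (by rw [h2]; exact hx)
  j := by
    intro x hx
    rw [h x (fun hc => Set.disjoint_left.1 hd hc hx)]
    exact hx
  o := fun x hx _ => h x hx

theorem EQG_of' {I J : Set ℚ} (hd : Disjoint I J) {τ : Gam} (h : ∀ x, x ∉ J → τ x = x) :
    EQG I J τ where
  j := by
    intro x hx
    by_contra hc
    have h1 := h _ hc
    have h2 : τ x = x := τ.injective h1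
    exact hc (by rw [h2]; exact hx)
  i := by
    intro x hx
    rw [h x (fun hc => Set.disjoint_left.1 hd hx hc)]
    exact hx
  o := fun x _ hx => h x hx

theorem EQG_mul {I J : Set ℚ} {τ τ' : Gam} (h : EQG I J τ) (h' : EQG I J τ') :
    EQG I J (τ * τ') where
  i := fun x hx => h.i _ (h'.i _ hx)
  j := fun x hx => h.j _ (h'.j _ hx)
  o := fun x hx hy => by
    show τ (τ' x) = x
    rw [h'.o x hx hy, h.o x hx hy]

theorem EQG_inv {I J : Set ℚ} (hd : Disjoint I J) {τ : Gam} (h : ∀ x, x ∉ I → τ x = x) :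
    ∀ x, x ∉ I → τ⁻¹ x = x := by
  intro x hx
  have h1 := h x hx
  have : τ⁻¹ (τ x) = x := τ.symm_apply_apply x
  rwa [h1] at this

section

variable {L : FirstOrder.Language.{0, 0}} {C : Type} [L.Structure C] [MulAction Gam C]
  (hC : Ctx L C) {c : C} {p p' : ℚ} {I J : Set ℚ} {H : Type} (D : Cfg L c p p' I J H)

theorem EQL_smul {z : C} {x : C} {τ : Gam} (hτ : EQG I J τ) (h : x ∈ Lev I J z) :
    τ • x ∈ Lev I J z := by
  obtain ⟨g, hg, rfl⟩ := h
  refine ⟨τ * g, fun a ha => ⟨fun h => hτ.i _ ((hg a ha).1 h), fun h => hτ.j _ ((hg a ha).2.1 h),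
    fun h1 h2 => ?_⟩, by rw [mul_smul]⟩
  show τ (g a) = a
  rw [(hg a ha).2.2 h1 h2, hτ.o a h1 h2]

/-- `y` has the coordinates `a`, `b` -/
def EQA (c : C) (p p' : ℚ) (I J : Set ℚ) (y : C) (a b : ℚ) : Prop :=
  ∃ γ : Gam, Adm I J (su c) γ ∧ γ p = a ∧ γ p' = b ∧ y = γ • c

include hC D

theorem EQA_eq {y y' : C} {a b : ℚ} (h : EQA c p p' I J y a b) (h' : EQA c p p' I J y' a b) :
    y = y' := by
  obtain ⟨γ, h1, h2, h3, rfl⟩ := h
  obtain ⟨γ', h1', h2', h3', rfl⟩ := h'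
  refine su_eq hC fun x hx => ?_
  by_cases e1 : x = p
  · rw [e1, h2, h2']
  by_cases e2 : x = p'
  · rw [e2, h3, h3']
  obtain ⟨o1, o2⟩ := D.out x hx e1 e2
  rw [(h1 x hx).2.2 o1 o2, (h1' x hx).2.2 o1 o2]

omit hC D in
omit [L.Structure C] in
theorem EQA_smul {y : C} {a b : ℚ} {τ : Gam} (hτ : EQG I J τ) (h : EQA c p p' I J y a b) :
    EQA c p p' I J (τ • y) (τ a) (τ b) := by
  obtain ⟨γ, h1, h2, h3, rfl⟩ := h
  refine ⟨τ * γ, fun x hx => ⟨fun h => hτ.i _ ((h1 x hx).1 h), fun h => hτ.j _ ((h1 x hx).2.1 h),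
    fun e1 e2 => ?_⟩, ?_, ?_, by rw [mul_smul]⟩
  · show τ (γ x) = x
    rw [(h1 x hx).2.2 e1 e2, hτ.o x e1 e2]
  · show τ (γ p) = _
    rw [h2]
  · show τ (γ p') = _
    rw [h3]

omit hC in
theorem EQA_mem {y : C} {a b : ℚ} (h : EQA c p p' I J y a b) : a ∈ I ∧ b ∈ J := by
  obtain ⟨γ, h1, rfl, rfl, -⟩ := h
  exact ⟨(h1 p D.pc).1 D.pI, (h1 p' D.pc').2.1 D.pJ⟩

/-- the support of an entry of `H₂` -/
theorem EQS {w : H → C} (hw : D.lev w) {h : H} (hh : su (D.z h) = {p'}) :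
    ∃ b ∈ J, su (w h) = {b} := by
  obtain ⟨g, hg, e⟩ := hw h
  refine ⟨g p', (hg p' (by rw [hh]; exact Finset.mem_singleton_self _)).2.1 D.pJ, ?_⟩
  rw [e, su_act hC, hh, Finset.image_singleton]

/-- the support of the other entries -/
theorem EQS' {u : H → C} (hu : D.lev u) (hd : Disjoint I J) {h : H} (hh : su (D.z h) ≠ {p'}) :
    ∀ a ∈ su (u h), a ∉ J := by
  obtain ⟨g, hg, e⟩ := hu h
  intro a ha
  rw [e, su_act hC] at ha
  obtain ⟨x, hx, rfl⟩ := Finset.mem_image.1 ha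
  rcases D.zz h with h1 | h1 | h1
  · exact absurd h1 hh
  · exact fun hc => Set.disjoint_left.1 hd ((hg x hx).1 (h1 x hx)) hc
  · rw [(hg x hx).2.2 (h1 x hx).1 (h1 x hx).2]
    exact (h1 x hx).2

/-- entries of `H₂` are determined by their supports -/
theorem EQW {w w' : H → C} (hw : D.lev w) (hw' : D.lev w') {h : H} (hh : su (D.z h) = {p'})
    (e : su (w h) = su (w' h)) : w h = w' h := by
  obtain ⟨g, hg, e1⟩ := hw h
  obtain ⟨g', hg', e2⟩ := hw' h
  rw [e1, e2] at e ⊢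
  rw [su_act hC, su_act hC, hh, Finset.image_singleton, Finset.image_singleton,
    Finset.singleton_inj] at e
  refine su_eq hC fun a ha => ?_
  rw [hh, Finset.mem_singleton] at ha
  rw [ha, e]

omit hC in
theorem EQM (w u : H → C) (τ : Gam) :
    D.mix (fun h => τ • w h) (fun h => τ • u h) = fun h => τ • D.mix w u h := by
  funext h
  unfold Cfg.mix
  split_ifs <;> rfl

theorem EQT (w u : H → C) (y : C) (τ : Gam) :
    D.T (fun h => τ • w h) (fun h => τ • u h) (τ • y) ↔ D.T w u y := by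
  unfold Cfg.T
  rw [EQM D w u τ]
  exact inv2 hC D.θ τ (D.mix w u) fun _ => y

omit hC in
/-- only `H₂` matters in `w`, the rest in `u` -/
theorem EQMc {w w' u u' : H → C} (h1 : ∀ h, su (D.z h) = {p'} → w h = w' h)
    (h2 : ∀ h, su (D.z h) ≠ {p'} → u h = u' h) : D.mix w u = D.mix w' u' := by
  funext h
  unfold Cfg.mix
  split_ifs with hh
  · exact h1 h hh
  · exact h2 h hh

omit hC in
theorem EQTc {w w' u u' : H → C} (h1 : ∀ h, su (D.z h) = {p'} → w h = w' h)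
    (h2 : ∀ h, su (D.z h) ≠ {p'} → u h = u' h) (y : C) : D.T w u y ↔ D.T w' u' y := by
  unfold Cfg.T
  rw [EQMc D h1 h2]

theorem EQmin [Finite H] (hd : Disjoint I J) {w u : H → C} (hw : D.lev w) (hu : D.lev u) {y y' : C}
    {a a' b : ℚ} (hy : EQA c p p' I J y a b) (hy' : EQA c p p' I J y' a' b)
    (hb : ¬ ∀ h, su (D.z h) = {p'} → su (w h) = {b}) : D.T w u y ↔ D.T w u y' := by
  have hbJ := (EQA_mem D hy).2
  obtain ⟨γ, g1, g2, g3, rfl⟩ := hy
  obtain ⟨γ', k1, k2, k3, rfl⟩ := hy'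
  have hmix : ∀ h, ∃ g : Gam, D.mix w u h = g • D.z h := by
    intro h
    unfold Cfg.mix
    split_ifs
    · obtain ⟨g, -, e⟩ := hw h
      exact ⟨g, e⟩
    · obtain ⟨g, -, e⟩ := hu h
      exact ⟨g, e⟩
  have key := D.min (fun h => γ⁻¹ • D.mix w u h) (γ⁻¹ * γ') ?_ ?_ ?_
  · have e1 := inv2 hC D.θ γ⁻¹ (D.mix w u) fun _ : Unit => γ • c
    have e2 := inv2 hC D.θ γ⁻¹ (D.mix w u) fun _ : Unit => γ' • c
    rw [inv_smul_smul] at e1
    rw [← mul_smul] at e2
    exact e1.symm.trans (key.symm.trans e2)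
  · intro h
    obtain ⟨g, hg⟩ := hmix h
    rw [hg, ← mul_smul, su_act hC, Finset.card_image_of_injective _ (γ⁻¹ * g).injective]
    exact D.x1 h
  · intro x hx hxp
    show γ⁻¹ (γ' x) = x
    have : γ' x = γ x := by
      by_cases e2 : x = p'
      · rw [e2, g3, k3]
      obtain ⟨o1, o2⟩ := D.out x hx hxp e2
      rw [(g1 x hx).2.2 o1 o2, (k1 x hx).2.2 o1 o2]
    rw [this]
    exact γ.symm_apply_apply x
  · have h0 : ∀ h, su (γ⁻¹ • D.mix w u h) = {p'} → su (D.z h) = {p'} ∧ su (w h) = {b} := by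
      intro h hh
      have h1 : su (D.mix w u h) = {b} := by
        have h2 : su (γ • (γ⁻¹ • D.mix w u h)) = {γ p'} := by
          rw [su_act hC, hh, Finset.image_singleton]
        rw [smul_inv_smul, g3] at h2
        exact h2
      unfold Cfg.mix at h1
      split_ifs at h1 with h3
      · exact ⟨h3, h1⟩
      · exact absurd hbJ (EQS' hC D hu hd h3 b (by rw [h1]; exact Finset.mem_singleton_self _))
    push Not at hb
    obtain ⟨h₀, hh₀, hw₀⟩ := hb
    have hsub : {h | su (γ⁻¹ • D.mix w u h) = {p'}} ⊂ {h | su (D.z h) = {p'}} := by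
      refine ⟨fun h hh => (h0 h hh).1, fun hc => ?_⟩
      exact hw₀ (h0 h₀ (hc (show h₀ ∈ {h | su (D.z h) = {p'}} from hh₀))).2
    have h1 := Set.ncard_lt_ncard hsub (Set.toFinite _)
    exact h1

end

section

variable {L : FirstOrder.Language.{0, 0}} {C : Type} [L.Structure C] [MulAction Gam C]
  (hC : Ctx L C) {c : C} {p p' l r l' r' : ℚ} (hLOC : St_LOC)
  (hd : Disjoint (Ioo l r) (Ioo l' r')) {H : Type} [Finite H]
  (D : Cfg L c p p' (Ioo l r) (Ioo l' r') H)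

include hLOC in
omit [Finite H] in
theorem EQmv {a a' : ℚ} (h : a ∈ Ioo l r) (h' : a' ∈ Ioo l r) :
    ∃ τ : Gam, τ a = a' ∧ ∀ x, x ∉ Ioo l r → τ x = x := by
  obtain ⟨g, h1, h2⟩ := hLOC l r {a} (fun _ => a') (by simpa using h) (by simpa using h')
    (by
      intro x hx y hy hxy
      rw [Finset.mem_singleton] at hx hy
      rw [hx, hy] at hxy
      exact absurd hxy (lt_irrefl _))
  exact ⟨g, h1 a (Finset.mem_singleton_self _), h2⟩

include hLOC in
omit [Finite H] in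
theorem EQmv2 {a a₁ b b₁ : ℚ} (h : a ∈ Ioo l r) (h₁ : a₁ ∈ Ioo l r) (h' : b ∈ Ioo l r)
    (h₁' : b₁ ∈ Ioo l r) (hab : a < a₁) (hb : b < b₁) :
    ∃ τ : Gam, τ a = b ∧ τ a₁ = b₁ ∧ ∀ x, x ∉ Ioo l r → τ x = x := by
  classical
  obtain ⟨g, h1, h2⟩ := hLOC l r {a, a₁} (fun x => if x = a then b else b₁)
    (by
      intro x hx
      rw [Finset.mem_insert, Finset.mem_singleton] at hx
      rcases hx with rfl | rfl
      · exact h
      · exact h₁)
    (by
      intro x hx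
      split_ifs
      · exact h'
      · exact h₁')
    (by
      intro x hx y hy hxy
      rw [Finset.mem_insert, Finset.mem_singleton] at hx hy
      rcases hx with rfl | rfl
      · rcases hy with rfl | rfl
        · exact absurd hxy (lt_irrefl _)
        · rw [if_pos rfl, if_neg hab.ne']
          exact hb
      · rcases hy with rfl | rfl
        · exact absurd hxy (lt_asymm hab)
        · exact absurd hxy (lt_irrefl _))
  refine ⟨g, ?_, ?_, h2⟩
  · rw [h1 a (by simp)]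
    exact if_pos rfl
  · rw [h1 a₁ (by simp)]
    exact if_neg hab.ne'

include hC hLOC hd D

theorem EQwb {b : ℚ} (hb : b ∈ Ioo l' r') :
    ∃ w, D.lev w ∧ ∀ h, su (D.z h) = {p'} → su (w h) = {b} := by
  obtain ⟨τ, h1, h2⟩ := EQmv hLOC D.pJ hb
  have hz : D.lev D.z := fun h => ⟨1, fun a _ => ⟨fun h => h, fun h => h, fun _ _ => rfl⟩,
    (one_smul Gam _).symm⟩
  refine ⟨fun h => τ • D.z h, fun h => EQL_smul (EQG_of' hd h2) (hz h), fun h hh => ?_⟩
  show su (τ • D.z h) = {b}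
  rw [su_act hC, hh, Finset.image_singleton, h1]

theorem EQdif {w : H → C} (hw : D.lev w) {y y' : C} {a a' b : ℚ} (hb : ∀ h, su (D.z h) = {p'} → su (w h) = {b})
    (hy : EQA c p p' (Ioo l r) (Ioo l' r') y a b) (hy' : EQA c p p' (Ioo l r) (Ioo l' r') y' a' b)
    (ha : a ≠ a') : ∃ u, D.lev u ∧ ¬ (D.T w u y ↔ D.T w u y') := by
  -- the symmetric statement
  have key : ∀ (a a' : ℚ) (y y' : C), EQA c p p' (Ioo l r) (Ioo l' r') y a b →
      EQA c p p' (Ioo l r) (Ioo l' r') y' a' b → ((p < D.g p ∧ a < a') ∨ (D.g p < p ∧ a' < a)) →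
      ∃ u, D.lev u ∧ ¬ (D.T w u y ↔ D.T w u y') := by
    intro a a' y y' hy hy' hlt
    obtain ⟨aI, bJ⟩ := EQA_mem D hy
    obtain ⟨aI', -⟩ := EQA_mem D hy'
    obtain ⟨τ₁, t1, t2, t3⟩ : ∃ τ : Gam, τ p = a ∧ τ (D.g p) = a' ∧ ∀ x, x ∉ Ioo l r → τ x = x := by
      rcases hlt with ⟨h1, h2⟩ | ⟨h1, h2⟩
      · exact EQmv2 hLOC D.pI D.gI aI aI' h1 h2
      · obtain ⟨τ, e1, e2, e3⟩ := EQmv2 hLOC D.gI D.pI aI' aI h1 h2
        exact ⟨τ, e2, e1, e3⟩
    obtain ⟨τ₂, s1, s2⟩ := EQmv hLOC D.pJ bJ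
    have G1 := EQG_of hd t3
    have G2 := EQG_of' hd s2
    have G := EQG_mul G1 G2
    have dp : (τ₁ * τ₂) p = a := by
      show τ₁ (τ₂ p) = a
      rw [s2 p fun hc => Set.disjoint_left.1 hd D.pI hc, t1]
    have dgp : (τ₁ * τ₂) (D.g p) = a' := by
      show τ₁ (τ₂ (D.g p)) = a'
      rw [s2 _ fun hc => Set.disjoint_left.1 hd D.gI hc, t2]
    have dp' : (τ₁ * τ₂) p' = b := by
      show τ₁ (τ₂ p') = b
      rw [s1, t3 b fun hc => Set.disjoint_left.1 hd hc bJ]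
    have hne : p' ≠ p := fun hc => Set.disjoint_left.1 hd D.pI (hc ▸ D.pJ)
    have A0 : EQA c p p' (Ioo l r) (Ioo l' r') c p p' :=
      ⟨1, fun a _ => ⟨fun h => h, fun h => h, fun _ _ => rfl⟩, rfl, rfl, (one_smul Gam _).symm⟩
    have A1 : EQA c p p' (Ioo l r) (Ioo l' r') (D.g • c) (D.g p) p' := by
      refine ⟨D.g, fun x hx => ⟨fun h => ?_, fun h => ?_, fun h1 h2 => ?_⟩, rfl,
        D.gf p' D.pc' hne, rfl⟩
      · by_cases e : x = p
        · rw [e]
          exact D.gI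
        · rw [D.gf x hx e]
          exact h
      · have e : x ≠ p := fun hc => Set.disjoint_left.1 hd D.pI (hc ▸ h)
        rw [D.gf x hx e]
        exact h
      · exact D.gf x hx fun hc => h1 (hc ▸ D.pI)
    have B0 := EQA_smul G A0
    have B1 := EQA_smul G A1
    rw [dp, dp'] at B0
    rw [dgp, dp'] at B1
    have e0 : (τ₁ * τ₂) • c = y := EQA_eq hC D B0 hy
    have e1 : (τ₁ * τ₂) • D.g • c = y' := EQA_eq hC D B1 hy'
    have hz : D.lev D.z := fun h => ⟨1, fun a _ => ⟨fun h => h, fun h => h, fun _ _ => rfl⟩,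
      (one_smul Gam _).symm⟩
    have hu : D.lev fun h => (τ₁ * τ₂) • D.z h := fun h => EQL_smul G (hz h)
    refine ⟨fun h => (τ₁ * τ₂) • D.z h, hu, fun hc => D.dif ?_⟩
    have hmix : D.mix w (fun h => (τ₁ * τ₂) • D.z h) = fun h => (τ₁ * τ₂) • D.z h := by
      funext h
      unfold Cfg.mix
      split_ifs with hh
      · refine EQW hC D hw hu hh ?_
        rw [hb h hh]
        show _ = su ((τ₁ * τ₂) • D.z h)
        rw [su_act hC, hh, Finset.image_singleton, dp']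
      · rfl
    unfold Cfg.T at hc
    rw [hmix, ← e0, ← e1] at hc
    have i0 := inv2 hC D.θ (τ₁ * τ₂) D.z fun _ : Unit => c
    have i1 := inv2 hC D.θ (τ₁ * τ₂) D.z fun _ : Unit => D.g • c
    exact i1.symm.trans (hc.symm.trans i0)
  have hgp : D.g p ≠ p := by
    intro hc
    refine D.dif ?_
    have : D.g • c = c := su_fix hC fun x hx => by
      by_cases e : x = p
      · rw [e, hc]
      · exact D.gf x hx e
    rw [this]
  rcases lt_or_gt_of_ne hgp with h1 | h1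
  · rcases lt_or_gt_of_ne ha with h2 | h2
    · obtain ⟨u, k1, k2⟩ := key a' a y' y hy' hy (Or.inr ⟨h1, h2⟩)
      exact ⟨u, k1, fun hc => k2 hc.symm⟩
    · exact key a a' y y' hy hy' (Or.inr ⟨h1, h2⟩)
  · rcases lt_or_gt_of_ne ha with h2 | h2
    · exact key a a' y y' hy hy' (Or.inl ⟨h1, h2⟩)
    · obtain ⟨u, k1, k2⟩ := key a' a y' y hy' hy (Or.inl ⟨h1, h2⟩)
      exact ⟨u, k1, fun hc => k2 hc.symm⟩

theorem EQsel {w : H → C} (hw : D.lev w) {y : C} {a b : ℚ}
    (hy : EQA c p p' (Ioo l r) (Ioo l' r') y a b) :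
    D.sel y w ↔ ∀ h, su (D.z h) = {p'} → su (w h) = {b} := by
  obtain ⟨aI, bJ⟩ := EQA_mem D hy
  constructor
  · intro hs
    by_contra hb
    push Not at hb
    obtain ⟨h₀, hh₀, hw₀⟩ := hb
    obtain ⟨j, hj, ej⟩ := EQS hC D hw hh₀
    have hjb : j ≠ b := fun hc => hw₀ (by rw [ej, hc])
    -- `τ` fixes `b` and moves `j`
    obtain ⟨τ, t1, t2, t3⟩ : ∃ τ : Gam, τ b = b ∧ τ j ≠ j ∧ ∀ x, x ∉ Ioo l' r' → τ x = x := by
      rcases lt_or_gt_of_ne hjb with h1 | h1
      · obtain ⟨j', hj1, hj2⟩ := exists_between h1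
        have hj' : j' ∈ Ioo l' r' := ⟨hj.1.trans hj1, hj2.trans bJ.2⟩
        obtain ⟨τ, e1, e2, e3⟩ := EQmv2 hLOC hj bJ hj' bJ h1 hj2
        exact ⟨τ, e2, by rw [e1]; exact hj1.ne', e3⟩
      · obtain ⟨j', hj1, hj2⟩ := exists_between h1
        have hj' : j' ∈ Ioo l' r' := ⟨bJ.1.trans hj1, hj2.trans hj.2⟩
        obtain ⟨τ, e1, e2, e3⟩ := EQmv2 hLOC bJ hj bJ hj' h1 hj1
        exact ⟨τ, e1, by rw [e2]; exact hj2.ne, e3⟩
    have G := EQG_of' hd t3
    have hyy : τ • y = y := by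
      have h1 := EQA_smul G hy
      rw [t1, t3 a fun hc => Set.disjoint_left.1 hd aI hc] at h1
      exact EQA_eq hC D h1 hy
    have hw' : D.lev fun h => τ • w h := fun h => EQL_smul G (hw h)
    have h1 := hs (fun h => τ • w h) hw' (fun u hu => ?_) h₀ hh₀
    · have h2 : su (τ • w h₀) = {τ j} := by rw [su_act hC, ej, Finset.image_singleton]
      have h3 : su (τ • w h₀) = {j} := by
        rw [show τ • w h₀ = w h₀ from h1, ej]
      rw [h2, Finset.singleton_inj] at h3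
      exact t2 h3
    · have h4 : D.T (fun h => τ • w h) u y ↔ D.T (fun h => τ • w h) (fun h => τ • u h) (τ • y) := by
        rw [hyy]
        refine EQTc D (fun h _ => rfl) (fun h hh => ?_) y
        exact (su_fix hC fun x hx => t3 x (EQS' hC D hu hd hh x hx)).symm
      exact (h4.trans (EQT hC D w u y τ)).symm
  · intro hb w' hw' hall
    by_contra hne
    push Not at hne
    obtain ⟨h₀, hh₀, hw₀⟩ := hne
    have hb' : ¬ ∀ h, su (D.z h) = {p'} → su (w' h) = {b} := fun hc =>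
      hw₀ (EQW hC D hw' hw hh₀ (by rw [hc h₀ hh₀, hb h₀ hh₀]))
    -- another point of `I`
    obtain ⟨a', ha1, ha2⟩ := exists_between aI.2
    have aI' : a' ∈ Ioo l r := ⟨aI.1.trans ha1, ha2⟩
    obtain ⟨τ, t1, t2⟩ := EQmv hLOC aI aI'
    have G := EQG_of hd t2
    have Gi := EQG_of hd (EQG_inv hd t2)
    have tb : τ b = b := t2 b fun hc => Set.disjoint_left.1 hd hc bJ
    have hy' : EQA c p p' (Ioo l r) (Ioo l' r') (τ • y) a' b := by
      have h1 := EQA_smul G hy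
      rw [t1, tb] at h1
      exact h1
    obtain ⟨u, hu, hdu⟩ := EQdif hC hLOC hd D hw hb hy hy' ha1.ne
    refine hdu ?_
    have hfix : ∀ (v : H → C), D.lev v → ∀ h, su (D.z h) = {p'} → τ • v h = v h := by
      intro v hv h hh
      obtain ⟨j, hj, ej⟩ := EQS hC D hv hh
      refine su_fix hC fun x hx => ?_
      rw [ej, Finset.mem_singleton] at hx
      rw [hx]
      exact t2 j fun hc => Set.disjoint_left.1 hd hc hj
    have hui : D.lev fun h => τ⁻¹ • u h := fun h => EQL_smul Gi (hu h)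
    have step : ∀ (v : H → C), D.lev v → (D.T v u (τ • y) ↔ D.T v (fun h => τ⁻¹ • u h) y) := by
      intro v hv
      have h1 := EQT hC D v (fun h => τ⁻¹ • u h) y τ
      have h2 : D.T (fun h => τ • v h) (fun h => τ • τ⁻¹ • u h) (τ • y) ↔ D.T v u (τ • y) :=
        EQTc D (hfix v hv) (fun h _ => smul_inv_smul τ (u h)) _
      exact h2.symm.trans h1
    have m1 := hall u hu
    have m2 := hall _ hui
    have m3 := EQmin hC D hd hw' hu hy hy' hb'
    exact m1.trans (m3.trans ((step w' hw').trans (m2.symm.trans (step w hw).symm)))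

theorem EQfin {y y' : C} {a b a' b' : ℚ} (hy : EQA c p p' (Ioo l r) (Ioo l' r') y a b)
    (hy' : EQA c p p' (Ioo l r) (Ioo l' r') y' a' b') : D.E y y' ↔ a = a' := by
  obtain ⟨aI, bJ⟩ := EQA_mem D hy
  obtain ⟨aI', bJ'⟩ := EQA_mem D hy'
  -- translate by `τ`, `τ b' = b`, outside `I`
  obtain ⟨τ, t1, t2⟩ := EQmv hLOC bJ' bJ
  have G := EQG_of' hd t2
  have ta : τ a' = a' := t2 a' fun hc => Set.disjoint_left.1 hd aI' hc
  have hy2 : EQA c p p' (Ioo l r) (Ioo l' r') (τ • y') a' b := by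
    have h1 := EQA_smul G hy'
    rw [t1, ta] at h1
    exact h1
  have step : ∀ (w w' u : H → C), D.lev w → D.lev w' → D.lev u →
      (∀ h, su (D.z h) = {p'} → su (w h) = {b}) → (∀ h, su (D.z h) = {p'} → su (w' h) = {b'}) →
      (D.T w' u y' ↔ D.T w u (τ • y')) := by
    intro w w' u hw hw' hu hb hb'
    have h1 := EQT hC D w' u y' τ
    have h2 : D.T (fun h => τ • w' h) (fun h => τ • u h) (τ • y') ↔ D.T w u (τ • y') := by
      refine EQTc D (fun h hh => ?_) (fun h hh => ?_) _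
      · refine EQW hC D (fun h => EQL_smul G (hw' h)) hw hh ?_
        show su (τ • w' h) = _
        rw [su_act hC, hb' h hh, Finset.image_singleton, t1, hb h hh]
      · exact su_fix hC fun x hx => t2 x (EQS' hC D hu hd hh x hx)
    exact h1.symm.trans h2
  constructor
  · intro hE
    by_contra hne
    obtain ⟨w, hw, hb⟩ := EQwb hC hLOC hd D bJ
    obtain ⟨w', hw', hb'⟩ := EQwb hC hLOC hd D bJ'
    obtain ⟨u, hu, hdu⟩ := EQdif hC hLOC hd D hw hb hy hy2 hne
    refine hdu ?_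
    have h1 := hE w w' hw hw' ((EQsel hC hLOC hd D hw hy).2 hb) ((EQsel hC hLOC hd D hw' hy').2 hb')
      u hu
    exact h1.trans (step w w' u hw hw' hu hb hb')
  · rintro rfl w w' hw hw' hs hs' u hu
    have hb := (EQsel hC hLOC hd D hw hy).1 hs
    have hb' := (EQsel hC hLOC hd D hw' hy').1 hs'
    rw [step w w' u hw hw' hu hb hb', EQA_eq hC D hy2 hy]

end

/-- [EQ1] -/
theorem thm_EQ1 (hLOC : St_LOC) : St_EQ1 := by
  intro L C _ _ hC c p p' l r l' r' hd H _ D g g' hg hg'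
  exact EQfin hC hLOC hd D ⟨g, hg, rfl, rfl, rfl⟩ ⟨g', hg', rfl, rfl, rfl⟩

end Pool.Agent.UNS
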