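import Pool.Agent.UNS.StA

/-!
UNS [FGE]: grids with finitely many orbits exist, assembly (helper87).
-/

set_option autoImplicit false
set_option linter.unusedVariables false

namespace Pool.Agent.UNS

open FirstOrder.Language Set
open scoped FirstOrder
open Pool.Agent.AAD (Gam Fx ls St su Ctx Pcs Sha)

private theorem FGE_inx {ι ι' κ M : Type} {ar : κ → ℕ} (K : Cla ar) (S : (LU ι ar).Structure M)
    (S' : (LU ι' ar).Structure M) (h : ∀ c v, rr S' c v ↔ rr S c v) (hS : InX K S) :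
    InX K S' := by
  intro m z hz
  have h1 := hS m z hz
  have e : (fun (c : κ) (v : Fin (ar c) → Fin m) => rr S' c (fun i => z (v i))) =
      fun c v => rr S c (fun i => z (v i)) := by
    funext c v
    exact propext (h c _)
  rw [e]
  exact h1

theorem thm_FGE (hWIT : St_WIT) (hPCA : St_PCA) (hGRD : St_GRD) (hFGR : St_FGR) : St_FGE := by
  intro κ ar K hK hM
  unfold MonN at hM
  push Not at hM
  obtain ⟨ι, hι, S, hS, m, n, φ, hφ⟩ := hM
  obtain ⟨C, SC, A, hctx, hP, c, hc⟩ := @hWIT (LU ι ar) (fun _ => inferInstanceAs (IsEmpty Empty)) ℕ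
    S _ m n φ hφ
  have h1 : InX K SC := hPCA ι κ ar K C ℕ SC S hK hP hS
  obtain ⟨J, hJ, S', A', hr, ⟨hG⟩⟩ := hGRD κ ar ι C SC A hctx c hc
  have hc' : Countable (ι ⊕ J) := inferInstance
  exact hFGR κ ar K (ι ⊕ J) hc' C S' A' hG (FGE_inx K SC S' hr h1)

end Pool.Agent.UNS
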