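import Pool.Agent.UNS.StA

/-!
UNS, module FGR: grids with finitely many orbits.
-/

set_option autoImplicit false
set_option linter.unusedVariables false

namespace Pool.Agent.UNS

open FirstOrder.Language Set
open scoped FirstOrder
open Pool.Agent.AAD (Gam Fx ls St su Ctx Pcs Sha)

/-- two points can be moved to two points -/
theorem FGR_move (a b : ℚ) (h : a < b) : ∃ g : Gam, g 0 = a ∧ g 1 = b := by
  obtain ⟨g, hg⟩ := ext_fam (ι := Bool) (fun i => if i then (1 : ℚ) else 0)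
    (fun i => if i then b else a) (by
      intro i j hij
      cases i <;> cases j <;> simp_all
      exact absurd hij (by norm_num)) (by
      intro i j hij
      cases i <;> cases j <;> simp_all)
  exact ⟨g, by simpa using hg false, by simpa using hg true⟩

theorem FGR_move1 (a : ℚ) : ∃ g : Gam, g 0 = a := by
  obtain ⟨g, h, -⟩ := FGR_move a (a + 1) (lt_add_one a)
  exact ⟨g, h⟩

/-- orbits are countable -/
theorem FGR_ctbl {L : FirstOrder.Language.{0, 0}} {C : Type} [L.Structure C] [MulAction Gam C]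
    (hC : Ctx L C) (t : C) : {x : C | ∃ g : Gam, x = g • t}.Countable := by
  classical
  let f : ({a // a ∈ su t} → ℚ) → C := fun m =>
    if h : ∃ g : Gam, ∀ a : {a // a ∈ su t}, g a.1 = m a then h.choose • t else t
  refine (countable_range f).mono ?_
  rintro x ⟨g, rfl⟩
  refine ⟨fun a => g a.1, ?_⟩
  have h : ∃ g' : Gam, ∀ a : {a // a ∈ su t}, g' a.1 = g a.1 := ⟨g, fun _ => rfl⟩
  show (if h : ∃ g' : Gam, ∀ a : {a // a ∈ su t}, g' a.1 = g a.1 then h.choose • t else t) = g • t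
  rw [dif_pos h]
  exact su_eq hC fun a ha => h.choose_spec ⟨a, ha⟩

theorem FGR_mem {ι κ : Type} {ar : κ → ℕ} {C : Type} (S : (LU ι ar).Structure C)
    (A : MulAction Gam C) (G : @Grd (LU ι ar) C S A) (T : Finset C) (h0 : G.c 0 0 ∈ T)
    (h1 : G.c 0 1 ∈ T) (h2 : G.c 1 0 ∈ T) (a b : ℚ) : G.c a b ∈ Orb T := by
  rcases lt_trichotomy a b with h | h | h
  · obtain ⟨g, h3, h4⟩ := FGR_move a b h
    exact ⟨_, h1, g, by rw [G.ca, h3, h4]⟩
  · obtain ⟨g, h3⟩ := FGR_move1 a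
    exact ⟨_, h0, g, by rw [G.ca, h3, h]⟩
  · obtain ⟨g, h3, h4⟩ := FGR_move b a h
    exact ⟨_, h2, g, by rw [G.ca, h3, h4]⟩

theorem thm_FGR (hREL : St_REL) : St_FGR := by
  classical
  intro κ ar K ι hι C S A G hX
  let T₀ : Finset C := {G.c 0 0, G.c 0 1, G.c 1 0}
  have h0 : G.c 0 0 ∈ T₀ := by simp [T₀]
  have h1 : G.c 0 1 ∈ T₀ := by simp [T₀]
  have h2 : G.c 1 0 ∈ T₀ := by simp [T₀]
  obtain ⟨T₁, hT₁⟩ := hREL κ ar ι C S A G.ctx (Fin 2) inferInstance G.e₁ T₀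
  obtain ⟨T₂, hT₂⟩ := hREL κ ar ι C S A G.ctx (Fin 2) inferInstance G.e₂ T₀
  let T : Finset C := T₀ ∪ (T₁ ∪ T₂)
  have hT0 : T₀ ⊆ T := Finset.subset_union_left
  obtain ⟨ψ₁, hψ₁⟩ := hT₁ T (Finset.subset_union_left.trans Finset.subset_union_right)
  obtain ⟨ψ₂, hψ₂⟩ := hT₂ T (Finset.subset_union_right.trans Finset.subset_union_right)
  have hm0 : ∀ a b, G.c a b ∈ Orb T₀ := FGR_mem S A G T₀ h0 h1 h2
  have hm : ∀ a b, G.c a b ∈ Orb T := FGR_mem S A G T (hT0 h0) (hT0 h1) (hT0 h2)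
  have hv : ∀ a b a' b', (fun i : Fin 2 =>
      ((![⟨G.c a b, hm a b⟩, ⟨G.c a' b', hm a' b'⟩] : Fin 2 → Orb T) i).1) =
      ![G.c a b, G.c a' b'] := by
    intro a b a' b'
    funext i
    refine Fin.cases rfl (fun j => ?_) i
    refine Fin.cases rfl (fun l => l.elim0) j
  have hv0 : ∀ a b a' b', ∀ i : Fin 2,
      ((![⟨G.c a b, hm a b⟩, ⟨G.c a' b', hm a' b'⟩] : Fin 2 → Orb T) i).1 ∈ Orb T₀ := by
    intro a b a' b' i
    refine Fin.cases (hm0 a b) (fun j => ?_) i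
    refine Fin.cases (hm0 a' b') (fun l => l.elim0) j
  let S' : (LU (ι ⊕ {t // t ∈ T}) ar).Structure (Orb T) := rst S T
  let A' : MulAction Gam (Orb T) := orbA T
  have hctx : @Ctx (LU (ι ⊕ {t // t ∈ T}) ar) (Orb T) S' A' := by
    refine @Ctx.mk _ _ S' A' (fun n => inferInstanceAs (IsEmpty Empty)) ?_ ?_
    · intro g n R v
      cases R with
      | un i =>
        cases i with
        | inl i =>
          exact G.ctx.inv g 1 (Sm.un i) fun _ => (v 0).1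
        | inr t =>
          show (∃ g' : Gam, g • (v 0).1 = g' • t.1) ↔ ∃ g' : Gam, (v 0).1 = g' • t.1
          constructor
          · rintro ⟨g', h⟩
            exact ⟨g⁻¹ * g', by rw [mul_smul, ← h, inv_smul_smul]⟩
          · rintro ⟨g', h⟩
            exact ⟨g * g', by rw [mul_smul, ← h]⟩
      | rl c =>
        exact G.ctx.inv g _ (Sm.rl c) fun i => (v i).1
    · intro x
      obtain ⟨B, hB⟩ := G.ctx.fin x.1
      exact ⟨B, fun g hg => Subtype.ext (hB hg)⟩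
  refine ⟨{
    ι := ι ⊕ {t // t ∈ T}
    cι := inferInstance
    N := Orb T
    cN := ?_
    S := S'
    A := A'
    G := @Grd.mk _ _ S' A' hctx (fun a b => ⟨G.c a b, hm a b⟩)
      (fun g a b => Subtype.ext (G.ca g a b)) ψ₁ ψ₂ (fun a b a' b' => ?_) (fun a b a' b' => ?_)
    age := fun m z hz => hX m (fun i => (z i).1) fun i j hij => hz (Subtype.ext hij)
    fo := ⟨T.attach.image fun t => ⟨t.1, t.1, t.2, 1, (one_smul Gam t.1).symm⟩, fun x => ?_⟩
    dd := .inr ⟨G.c 0 0, hT0 h0⟩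
    dl := .inr ⟨G.c 0 1, hT0 h1⟩
    dg := .inr ⟨G.c 1 0, hT0 h2⟩
    hd := fun x => ?_
    hl := fun x => ?_
    hg := fun x => ?_ }⟩
  · have h3 : (Orb T).Countable := by
      have h4 : Orb T = ⋃ t ∈ T, {x : C | ∃ g : Gam, x = g • t} := by
        ext x
        simp only [mem_iUnion]
        constructor
        · rintro ⟨t, ht, g, h⟩
          exact ⟨t, ht, g, h⟩
        · rintro ⟨t, ht, g, h⟩
          exact ⟨t, ht, g, h⟩
      rw [h4]
      exact T.countable_toSet.biUnion fun t _ => FGR_ctbl G.ctx t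
    exact h3.to_subtype
  · rw [hψ₁ _ (hv0 a b a' b'), hv]
    exact G.h₁ a b a' b'
  · rw [hψ₂ _ (hv0 a b a' b'), hv]
    exact G.h₂ a b a' b'
  · obtain ⟨t, ht, g, h⟩ := x.2
    exact ⟨⟨t, t, ht, 1, (one_smul Gam t).symm⟩, Finset.mem_image.2
      ⟨⟨t, ht⟩, Finset.mem_attach _ _, rfl⟩, g, Subtype.ext h⟩
  · show (∃ g : Gam, x.1 = g • G.c 0 0) ↔ ∃ a, x = ⟨G.c a a, hm a a⟩
    constructor
    · rintro ⟨g, h⟩
      exact ⟨g 0, Subtype.ext (by rw [h, G.ca])⟩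
    · rintro ⟨a, rfl⟩
      obtain ⟨g, h3⟩ := FGR_move1 a
      exact ⟨g, by rw [G.ca, h3]⟩
  · show (∃ g : Gam, x.1 = g • G.c 0 1) ↔ ∃ a b, a < b ∧ x = ⟨G.c a b, hm a b⟩
    constructor
    · rintro ⟨g, h⟩
      exact ⟨g 0, g 1, g.lt_iff_lt.2 zero_lt_one, Subtype.ext (by rw [h, G.ca])⟩
    · rintro ⟨a, b, hab, rfl⟩
      obtain ⟨g, h3, h4⟩ := FGR_move a b hab
      exact ⟨g, by rw [G.ca, h3, h4]⟩
  · show (∃ g : Gam, x.1 = g • G.c 1 0) ↔ ∃ a b, b < a ∧ x = ⟨G.c a b, hm a b⟩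
    constructor
    · rintro ⟨g, h⟩
      exact ⟨g 1, g 0, g.lt_iff_lt.2 zero_lt_one, Subtype.ext (by rw [h, G.ca])⟩
    · rintro ⟨a, b, hab, rfl⟩
      obtain ⟨g, h3, h4⟩ := FGR_move b a hab
      exact ⟨g, by rw [G.ca, h3, h4]⟩

end Pool.Agent.UNS
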