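import Pool.Agent.UNS.StA
import Pool.Agent.UNS.Base

/-!
UNI, [FOT]: finitely many orbits on tuples (helper18).
-/

set_option autoImplicit false
set_option linter.unusedVariables false

namespace Pool.Agent.UNS

open FirstOrder.Language Set
open scoped FirstOrder
open Pool.Agent.AAD (Gam Fx ls St su Ctx)

/-- only finitely many elements have their support in a given finite set -/
theorem FOT_fin {L : FirstOrder.Language.{0, 0}} {N : Type} [L.Structure N] [MulAction Gam N]
    (hC : Ctx L N) (T0 : Finset N) (hT : ∀ x : N, ∃ t ∈ T0, ∃ g : Gam, x = g • t)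
    (B : Finset ℚ) : {x : N | su x ⊆ B}.Finite := by
  classical
  have h1 : {x : N | su x ⊆ B} ⊆ ⋃ t ∈ (T0 : Set N), Set.range (fun φ : (su t → B) =>
      if h : ∃ g : Gam, ∀ a : su t, g a = φ a then h.choose • t else t) := by
    intro x hx
    obtain ⟨t, ht, g, rfl⟩ := hT x
    refine Set.mem_biUnion (Finset.mem_coe.2 ht) ?_
    rw [Set.mem_setOf_eq, su_act hC] at hx
    refine ⟨fun a => ⟨g a, hx (Finset.mem_image_of_mem g a.2)⟩, ?_⟩
    have h : ∃ g' : Gam, ∀ a : su t, g' a =
        ((⟨g a, hx (Finset.mem_image_of_mem g a.2)⟩ : B) : ℚ) := ⟨g, fun a => rfl⟩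
    dsimp only
    rw [dif_pos h]
    exact su_eq hC fun a ha => h.choose_spec ⟨a, ha⟩
  exact (T0.finite_toSet.biUnion fun t _ => Set.finite_range _).subset h1

/-- [FOT] finitely many orbits on tuples -/
theorem thm_FOT : St_FOT := by
  classical
  intro L N _ _ hC hT n
  obtain ⟨T0, hT⟩ := hT
  set k := T0.sup (fun t => (su t).card) with hkdef
  have hk : ∀ x : N, (su x).card ≤ k := by
    intro x
    obtain ⟨t, ht, g, rfl⟩ := hT x
    rw [su_act hC]
    exact Finset.card_image_le.trans (Finset.le_sup (f := fun t => (su t).card) ht)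
  set B : Finset ℚ := (Finset.range (n * k)).image (fun m : ℕ => (m : ℚ)) with hB
  refine ⟨{w | ∀ i, su (w i) ⊆ B}, ?_, ?_⟩
  · have h2 : {w : Fin n → N | ∀ i, su (w i) ⊆ B} =
        Set.pi Set.univ (fun _ => {x : N | su x ⊆ B}) := by
      ext w
      simp
    rw [h2]
    exact Set.Finite.pi fun _ => FOT_fin hC T0 hT B
  · intro v
    set U : Finset ℚ := Finset.univ.biUnion (fun i => su (v i)) with hU
    have hUc : U.card ≤ n * k := by
      have h3 := Finset.card_biUnion_le_card_mul (Finset.univ : Finset (Fin n))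
        (fun i => su (v i)) k (fun i _ => hk _)
      rwa [Finset.card_univ, Fintype.card_fin] at h3
    obtain ⟨g, hg⟩ := ext U (fun u => (((U.filter (· < u)).card : ℕ) : ℚ)) (by
      intro a ha b hb hab
      have h4 : (U.filter (· < a)).card < (U.filter (· < b)).card := by
        refine Finset.card_lt_card ⟨fun y hy => ?_, fun hc => ?_⟩
        · rw [Finset.mem_filter] at hy ⊢
          exact ⟨hy.1, hy.2.trans hab⟩
        · have := hc (Finset.mem_filter.2 ⟨ha, hab⟩)
          exact lt_irrefl _ (Finset.mem_filter.1 this).2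
      exact_mod_cast h4)
    refine ⟨fun i => g • v i, ?_, g⁻¹, ?_⟩
    · intro i q hq
      rw [su_act hC, Finset.mem_image] at hq
      obtain ⟨u, hu, rfl⟩ := hq
      have huU : u ∈ U := Finset.mem_biUnion.2 ⟨i, Finset.mem_univ i, hu⟩
      rw [hg u huU, hB, Finset.mem_image]
      refine ⟨(U.filter (· < u)).card, ?_, rfl⟩
      rw [Finset.mem_range]
      refine lt_of_lt_of_le ?_ hUc
      refine Finset.card_lt_card ⟨Finset.filter_subset _ _, fun hc => ?_⟩
      exact lt_irrefl _ (Finset.mem_filter.1 (hc huU)).2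
    · funext i
      rw [inv_smul_smul]

end Pool.Agent.UNS
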