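import Pool.Agent.UNS.StA

/-!
UNS, module GRD: grids (a new action of `Γ` through two intervals).
-/

set_option autoImplicit false
set_option linter.unusedVariables false

namespace Pool.Agent.UNS

open FirstOrder.Language Set
open scoped FirstOrder
open Pool.Agent.AAD (Gam Fx ls St su Ctx Pcs Sha)

/-- disjoint convex sets are ordered -/
private theorem GRD_lt {X Y : Set ℚ} (hX : X.OrdConnected) (hY : Y.OrdConnected)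
    (hd : Disjoint X Y) {x x' y y' : ℚ} (hx : x ∈ X) (hx' : x' ∈ X) (hy : y ∈ Y) (hy' : y' ∈ Y)
    (h : x < y) : x' < y' := by
  by_contra hcon
  push Not at hcon
  rcases le_or_gt y' x with h1 | h1
  · exact Set.disjoint_left.1 hd hx (hY.out hy' hy ⟨h1, h.le⟩)
  · exact Set.disjoint_left.1 hd (hX.out hx hx' ⟨h1.le, hcon⟩) hy'

/-- the homomorphism through two disjoint intervals -/
private theorem GRD_hom (hEMB : St_EMB) {l₁ r₁ l₂ r₂ : ℚ} (h₁ : l₁ < r₁) (h₂ : l₂ < r₂)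
    (hd : Disjoint (Ioo l₁ r₁) (Ioo l₂ r₂)) : ∃ (b₁ b₂ : ℚ → ℚ) (jj : Gam →* Gam),
      StrictMono b₁ ∧ StrictMono b₂ ∧ (∀ x, x ∈ Ioo l₁ r₁ ↔ ∃ q, b₁ q = x) ∧
      (∀ x, x ∈ Ioo l₂ r₂ ↔ ∃ q, b₂ q = x) ∧ (∀ (g : Gam) q, jj g (b₁ q) = b₁ (g q)) ∧
      (∀ (g : Gam) q, jj g (b₂ q) = b₂ (g q)) ∧
      ∀ (g : Gam) x, x ∉ Ioo l₁ r₁ → x ∉ Ioo l₂ r₂ → jj g x = x := by
  obtain ⟨b₁, j₁, hb₁, hr₁, hj₁, hf₁⟩ := hEMB l₁ r₁ h₁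
  obtain ⟨b₂, j₂, hb₂, hr₂, hj₂, hf₂⟩ := hEMB l₂ r₂ h₂
  have hm₁ : ∀ q, b₁ q ∈ Ioo l₁ r₁ := fun q => (hr₁ _).2 ⟨q, rfl⟩
  have hm₂ : ∀ q, b₂ q ∈ Ioo l₂ r₂ := fun q => (hr₂ _).2 ⟨q, rfl⟩
  have hn₁ : ∀ q, b₁ q ∉ Ioo l₂ r₂ := fun q h => Set.disjoint_left.1 hd (hm₁ q) h
  have hn₂ : ∀ q, b₂ q ∉ Ioo l₁ r₁ := fun q h => Set.disjoint_left.1 hd h (hm₂ q)
  have hcomm : ∀ g h : Gam, j₁ g * j₂ h = j₂ h * j₁ g := by
    intro g h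
    ext x
    change j₁ g (j₂ h x) = j₂ h (j₁ g x)
    by_cases hx1 : x ∈ Ioo l₁ r₁
    · obtain ⟨q, rfl⟩ := (hr₁ x).1 hx1
      rw [hf₂ h _ (hn₁ q), hj₁, hf₂ h _ (hn₁ _)]
    · by_cases hx2 : x ∈ Ioo l₂ r₂
      · obtain ⟨q, rfl⟩ := (hr₂ x).1 hx2
        rw [hj₂, hf₁ g _ (hn₂ _), hf₁ g _ (hn₂ _), hj₂]
      · rw [hf₁ g x hx1, hf₂ h x hx2, hf₁ g x hx1]
  refine ⟨b₁, b₂, { toFun := fun g => j₁ g * j₂ g, map_one' := ?_, map_mul' := ?_ },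
    hb₁, hb₂, hr₁, hr₂, ?_, ?_, ?_⟩
  · rw [map_one, map_one, mul_one]
  · intro g h
    rw [map_mul, map_mul, mul_assoc, mul_assoc, ← mul_assoc (j₁ h), hcomm h g, mul_assoc]
  · intro g q
    change j₁ g (j₂ g (b₁ q)) = _
    rw [hf₂ g _ (hn₁ q), hj₁]
  · intro g q
    change j₁ g (j₂ g (b₂ q)) = _
    rw [hj₂, hf₁ g _ (hn₂ _)]
  · intro g x hx1 hx2
    change j₁ g (j₂ g x) = _
    rw [hf₂ g x hx2, hf₁ g x hx1]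

/-- `γ` preserves `I` and `J` and fixes the other points -/
private def GRD_good (I J : Set ℚ) (γ : Gam) : Prop :=
  (∀ x, x ∈ I → γ x ∈ I) ∧ (∀ x, x ∈ J → γ x ∈ J) ∧ ∀ x, x ∉ I → x ∉ J → γ x = x

section

variable {C : Type} [MulAction Gam C]

private theorem GRD_lev {I J : Set ℚ} {γ : Gam} (h : GRD_good I J γ) {z x : C}
    (hx : x ∈ Lev I J z) : γ • x ∈ Lev I J z := by
  obtain ⟨g, hg, rfl⟩ := hx
  refine ⟨γ * g, fun a ha => ⟨fun h1 => ?_, fun h1 => ?_, fun h1 h2 => ?_⟩, (mul_smul γ g z).symm⟩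
  · exact h.1 _ ((hg a ha).1 h1)
  · exact h.2.1 _ ((hg a ha).2.1 h1)
  · change γ (g a) = a
    rw [(hg a ha).2.2 h1 h2]
    exact h.2.2 a h1 h2

private theorem GRD_lev_iff {I J : Set ℚ} {jj : Gam →* Gam} (h : ∀ g, GRD_good I J (jj g))
    (g : Gam) (z x : C) : jj g • x ∈ Lev I J z ↔ x ∈ Lev I J z := by
  refine ⟨fun h1 => ?_, fun h1 => GRD_lev (h g) h1⟩
  have h2 := GRD_lev (h g⁻¹) h1
  rw [map_inv, inv_smul_smul] at h2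
  exact h2

end

/-- the homomorphism is good for larger intervals -/
private theorem GRD_isgood {P₁ P₂ I J : Set ℚ} (h₁ : P₁ ⊆ I) (h₂ : P₂ ⊆ J) (hd : Disjoint I J)
    {b₁ b₂ : ℚ → ℚ} {γ g : Gam} (hr₁ : ∀ x, x ∈ P₁ ↔ ∃ q, b₁ q = x)
    (hr₂ : ∀ x, x ∈ P₂ ↔ ∃ q, b₂ q = x) (hj₁ : ∀ q, γ (b₁ q) = b₁ (g q))
    (hj₂ : ∀ q, γ (b₂ q) = b₂ (g q)) (hf : ∀ x, x ∉ P₁ → x ∉ P₂ → γ x = x) :
    GRD_good I J γ := by
  refine ⟨fun x hx => ?_, fun x hx => ?_, fun x hx hx' => ?_⟩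
  · by_cases h : x ∈ P₁
    · obtain ⟨q, rfl⟩ := (hr₁ x).1 h
      rw [hj₁]
      exact h₁ ((hr₁ _).2 ⟨_, rfl⟩)
    · rw [hf x h fun h' => Set.disjoint_left.1 hd hx (h₂ h')]
      exact hx
  · by_cases h : x ∈ P₂
    · obtain ⟨q, rfl⟩ := (hr₂ x).1 h
      rw [hj₂]
      exact h₂ ((hr₂ _).2 ⟨_, rfl⟩)
    · rw [hf x (fun h' => Set.disjoint_left.1 hd (h₁ h') hx) h]
      exact hx
  · exact hf x (fun h => hx (h₁ h)) fun h => hx' (h₂ h)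

/-- moves of the two points of the support -/
private theorem GRD_move {P₁ P₂ : Set ℚ} (hP₁ : P₁.OrdConnected) (hP₂ : P₂.OrdConnected)
    (hd : Disjoint P₁ P₂) (A : Finset ℚ) {p₁ p₂ x₁ x₂ : ℚ} (h₁ : p₁ ∈ P₁) (h₂ : p₂ ∈ P₂)
    (hx₁ : x₁ ∈ P₁) (hx₂ : x₂ ∈ P₂)
    (hA : ∀ a ∈ A, a ≠ p₁ → a ≠ p₂ → a ∉ P₁ ∧ a ∉ P₂) (hp₁ : p₁ ∈ A) (hp₂ : p₂ ∈ A) :
    ∃ γ : Gam, γ p₁ = x₁ ∧ γ p₂ = x₂ ∧ ∀ a ∈ A, a ≠ p₁ → a ≠ p₂ → γ a = a := by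
  classical
  have hne : p₂ ≠ p₁ := fun h => Set.disjoint_left.1 hd h₁ (h ▸ h₂)
  have hs : ∀ a : ℚ, ({a} : Set ℚ).OrdConnected := fun a => Set.ordConnected_singleton
  have hsd : ∀ a : ℚ, ∀ P : Set ℚ, a ∉ P → Disjoint ({a} : Set ℚ) P := fun a P h =>
    Set.disjoint_singleton_left.2 h
  obtain ⟨γ, hγ⟩ := ext A (fun a => if a = p₁ then x₁ else if a = p₂ then x₂ else a) (by
    intro a ha b hb hab
    have key : ∀ a ∈ A, ∃ X : Set ℚ, X.OrdConnected ∧ a ∈ X ∧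
        (if a = p₁ then x₁ else if a = p₂ then x₂ else a) ∈ X ∧
        ((a = p₁ ∧ X = P₁) ∨ (a = p₂ ∧ X = P₂) ∨ (a ≠ p₁ ∧ a ≠ p₂ ∧ X = {a})) := by
      intro a ha
      by_cases h1 : a = p₁
      · refine ⟨P₁, hP₁, h1 ▸ h₁, ?_, Or.inl ⟨h1, rfl⟩⟩
        rw [if_pos h1]
        exact hx₁
      · by_cases h2 : a = p₂
        · refine ⟨P₂, hP₂, h2 ▸ h₂, ?_, Or.inr (Or.inl ⟨h2, rfl⟩)⟩
          rw [if_neg h1, if_pos h2]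
          exact hx₂
        · refine ⟨{a}, hs a, rfl, ?_, Or.inr (Or.inr ⟨h1, h2, rfl⟩)⟩
          rw [if_neg h1, if_neg h2]
          exact rfl
    obtain ⟨X, hX, haX, hfX, hX'⟩ := key a ha
    obtain ⟨Y, hY, hbY, hfY, hY'⟩ := key b hb
    have hdXY : Disjoint X Y := by
      rcases hX' with ⟨h1, rfl⟩ | ⟨h1, rfl⟩ | ⟨h1, h1', rfl⟩
      · rcases hY' with ⟨h2, rfl⟩ | ⟨h2, rfl⟩ | ⟨h2, h2', rfl⟩
        · exact absurd (h1.trans h2.symm) hab.ne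
        · exact hd
        · exact (hsd b _ (hA b hb h2 h2').1).symm
      · rcases hY' with ⟨h2, rfl⟩ | ⟨h2, rfl⟩ | ⟨h2, h2', rfl⟩
        · exact hd.symm
        · exact absurd (h1.trans h2.symm) hab.ne
        · exact (hsd b _ (hA b hb h2 h2').2).symm
      · rcases hY' with ⟨h2, rfl⟩ | ⟨h2, rfl⟩ | ⟨h2, h2', rfl⟩
        · exact hsd a _ (hA a ha h1 h1').1
        · exact hsd a _ (hA a ha h1 h1').2
        · exact hsd a _ hab.ne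
    exact GRD_lt hX hY hdXY haX hfX hbY hfY hab)
  refine ⟨γ, ?_, ?_, fun a ha h1 h2 => ?_⟩
  · rw [hγ p₁ hp₁, if_pos rfl]
  · rw [hγ p₂ hp₂, if_neg hne, if_pos rfl]
  · rw [hγ a ha, if_neg h1, if_neg h2]

theorem thm_GRD (hVIS : St_VIS) (hEMB : St_EMB) (hSEE : St_SEE) (hEQ1 : St_EQ1)
    (hEDF : St_EDF) : St_GRD := by
  intro κ ar ι C S A hC c hc
  let _ := S
  let _ := A
  have hV := (hVIS (LU ι ar) C hC c).1
  obtain ⟨p₁, hp₁, p₂, hp₂, hne⟩ := Finset.one_lt_card.1 (show 1 < (vs (LU ι ar) c).card from hc)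
  obtain ⟨l₁, r₁, l₁', r₁', hd₁, H₁, hH₁, ⟨D₁⟩⟩ :=
    hSEE (LU ι ar) C hC c p₁ p₂ hp₁ (hV hp₂) hne.symm
  obtain ⟨l₂, r₂, l₂', r₂', hd₂, H₂, hH₂, ⟨D₂⟩⟩ :=
    hSEE (LU ι ar) C hC c p₂ p₁ hp₂ (hV hp₁) hne
  -- the small intervals
  obtain ⟨P₁, hP₁⟩ : ∃ P : Set ℚ, P = Ioo (max l₁ l₂') (min r₁ r₂') := ⟨_, rfl⟩
  obtain ⟨P₂, hP₂⟩ : ∃ P : Set ℚ, P = Ioo (max l₁' l₂) (min r₁' r₂) := ⟨_, rfl⟩
  have hP₁I : P₁ ⊆ Ioo l₁ r₁ := by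
    rw [hP₁]
    exact Ioo_subset_Ioo (le_max_left _ _) (min_le_left _ _)
  have hP₁J : P₁ ⊆ Ioo l₂' r₂' := by
    rw [hP₁]
    exact Ioo_subset_Ioo (le_max_right _ _) (min_le_right _ _)
  have hP₂J : P₂ ⊆ Ioo l₁' r₁' := by
    rw [hP₂]
    exact Ioo_subset_Ioo (le_max_left _ _) (min_le_left _ _)
  have hP₂I : P₂ ⊆ Ioo l₂ r₂ := by
    rw [hP₂]
    exact Ioo_subset_Ioo (le_max_right _ _) (min_le_right _ _)
  have hpP₁ : p₁ ∈ P₁ := by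
    rw [hP₁]
    exact ⟨max_lt D₁.pI.1 D₂.pJ.1, lt_min D₁.pI.2 D₂.pJ.2⟩
  have hpP₂ : p₂ ∈ P₂ := by
    rw [hP₂]
    exact ⟨max_lt D₁.pJ.1 D₂.pI.1, lt_min D₁.pJ.2 D₂.pI.2⟩
  have hdP : Disjoint P₁ P₂ := hd₁.mono hP₁I hP₂J
  have hc₁ : P₁.OrdConnected := by rw [hP₁]; exact ordConnected_Ioo
  have hc₂ : P₂.OrdConnected := by rw [hP₂]; exact ordConnected_Ioo
  obtain ⟨b₁, b₂, jj, hb₁, hb₂, hr₁, hr₂, hj₁, hj₂, hf⟩ := GRD_hom hEMB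
    (l₁ := max l₁ l₂') (r₁ := min r₁ r₂') (l₂ := max l₁' l₂) (r₂ := min r₁' r₂)
    (by rw [hP₁] at hpP₁; exact hpP₁.1.trans hpP₁.2) (by rw [hP₂] at hpP₂; exact hpP₂.1.trans hpP₂.2)
    (by rw [hP₁, hP₂] at hdP; exact hdP)
  rw [← hP₁] at hr₁
  rw [← hP₂] at hr₂
  rw [← hP₁, ← hP₂] at hf
  have hm₁ : ∀ q, b₁ q ∈ P₁ := fun q => (hr₁ _).2 ⟨q, rfl⟩
  have hm₂ : ∀ q, b₂ q ∈ P₂ := fun q => (hr₂ _).2 ⟨q, rfl⟩
  have hg₁ : ∀ g, GRD_good (Ioo l₁ r₁) (Ioo l₁' r₁') (jj g) := fun g =>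
    GRD_isgood hP₁I hP₂J hd₁ hr₁ hr₂ (hj₁ g) (hj₂ g) (hf g)
  have hg₂ : ∀ g, GRD_good (Ioo l₂ r₂) (Ioo l₂' r₂') (jj g) := fun g =>
    GRD_isgood hP₂I hP₁J hd₂ hr₂ hr₁ (hj₂ g) (hj₁ g) fun x h1 h2 => hf g x h2 h1
  have hout : ∀ a ∈ su c, a ≠ p₁ → a ≠ p₂ → a ∉ P₁ ∧ a ∉ P₂ := fun a ha h1 h2 =>
    ⟨fun h => (D₁.out a ha h1 h2).1 (hP₁I h), fun h => (D₁.out a ha h1 h2).2 (hP₂J h)⟩
  -- the moves
  have hmove : ∀ a b : ℚ, ∃ γ : Gam, γ p₁ = b₁ a ∧ γ p₂ = b₂ b ∧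
      ∀ x ∈ su c, x ≠ p₁ → x ≠ p₂ → γ x = x := fun a b =>
    GRD_move hc₁ hc₂ hdP (su c) hpP₁ hpP₂ (hm₁ a) (hm₂ b) hout (hV hp₁) (hV hp₂)
  choose γ hγ₁ hγ₂ hγ₃ using hmove
  have hadm₁ : ∀ a b, Adm (Ioo l₁ r₁) (Ioo l₁' r₁') (su c) (γ a b) := by
    intro a b x hx
    by_cases h1 : x = p₁
    · subst h1
      refine ⟨fun _ => ?_, fun h => ?_, fun h => absurd D₁.pI h⟩
      · rw [hγ₁]
        exact hP₁I (hm₁ a)
      · exact absurd h (Set.disjoint_left.1 hd₁ D₁.pI)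
    · by_cases h2 : x = p₂
      · subst h2
        refine ⟨fun h => ?_, fun _ => ?_, fun _ h => absurd D₁.pJ h⟩
        · exact absurd D₁.pJ (Set.disjoint_left.1 hd₁ h)
        · rw [hγ₂]
          exact hP₂J (hm₂ b)
      · exact ⟨fun h => absurd h (D₁.out x hx h1 h2).1, fun h => absurd h (D₁.out x hx h1 h2).2,
          fun _ _ => hγ₃ a b x hx h1 h2⟩
  have hadm₂ : ∀ a b, Adm (Ioo l₂ r₂) (Ioo l₂' r₂') (su c) (γ a b) := by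
    intro a b x hx
    by_cases h1 : x = p₁
    · subst h1
      refine ⟨fun h => ?_, fun _ => ?_, fun _ h => absurd D₂.pJ h⟩
      · exact absurd D₂.pJ (Set.disjoint_left.1 hd₂ h)
      · rw [hγ₁]
        exact hP₁J (hm₁ a)
    · by_cases h2 : x = p₂
      · subst h2
        refine ⟨fun _ => ?_, fun h => ?_, fun h => absurd D₂.pI h⟩
        · rw [hγ₂]
          exact hP₂I (hm₂ b)
        · exact absurd h (Set.disjoint_left.1 hd₂ D₂.pI)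
      · exact ⟨fun h => absurd h (D₂.out x hx h2 h1).1, fun h => absurd h (D₂.out x hx h2 h1).2,
          fun _ _ => hγ₃ a b x hx h1 h2⟩
  -- the new structure
  obtain ⟨S', hS'⟩ : ∃ S' : (LU (ι ⊕ (H₁ ⊕ H₂)) ar).Structure C, S' = mkS (fun i x => match i with
      | .inl i => uu S i x
      | .inr (.inl h) => x ∈ Lev (Ioo l₁ r₁) (Ioo l₁' r₁') (D₁.z h)
      | .inr (.inr h) => x ∈ Lev (Ioo l₂ r₂) (Ioo l₂' r₂') (D₂.z h)) fun c v => rr S c v :=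
    ⟨_, rfl⟩
  have hS'r : ∀ c v, rr S' c v ↔ rr S c v := by
    intro c v
    rw [hS']
    exact Iff.rfl
  have hS'u : ∀ i x, uu S' (.inl i) x ↔ uu S i x := by
    intro i x
    rw [hS']
    exact Iff.rfl
  have hS'1 : ∀ h x, uu S' (.inr (.inl h)) x ↔ x ∈ Lev (Ioo l₁ r₁) (Ioo l₁' r₁') (D₁.z h) := by
    intro h x
    rw [hS']
    exact Iff.rfl
  have hS'2 : ∀ h x, uu S' (.inr (.inr h)) x ↔ x ∈ Lev (Ioo l₂ r₂) (Ioo l₂' r₂') (D₂.z h) := by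
    intro h x
    rw [hS']
    exact Iff.rfl
  obtain ⟨e₁, he₁⟩ := hEDF κ ar ι (ι ⊕ (H₁ ⊕ H₂)) C S S' A c p₁ p₂ (Ioo l₁ r₁) (Ioo l₁' r₁') H₁
    hH₁ D₁ Sum.inl (fun h => .inr (.inl h)) hS'r hS'u hS'1
  obtain ⟨e₂, he₂⟩ := hEDF κ ar ι (ι ⊕ (H₁ ⊕ H₂)) C S S' A c p₂ p₁ (Ioo l₂ r₂) (Ioo l₂' r₂') H₂
    hH₂ D₂ Sum.inl (fun h => .inr (.inr h)) hS'r hS'u hS'2
  refine ⟨H₁ ⊕ H₂, inferInstance, S', MulAction.compHom C jj, hS'r, ⟨?_⟩⟩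
  refine @Grd.mk (LU (ι ⊕ (H₁ ⊕ H₂)) ar) C S' (MulAction.compHom C jj) ?_
    (fun a b => γ a b • c) ?_ e₁ e₂ ?_ ?_
  · -- `Ctx`
    refine @Ctx.mk (LU (ι ⊕ (H₁ ⊕ H₂)) ar) C S' (MulAction.compHom C jj) ?_ ?_ ?_
    · exact fun n => (inferInstance : IsEmpty Empty)
    · intro g n R v
      have hun : ∀ (i : ι ⊕ (H₁ ⊕ H₂)) (x : C), uu S' i (jj g • x) ↔ uu S' i x := by
        rintro (i | h | h) x
        · rw [hS'u, hS'u]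
          exact hC.inv (jj g) 1 (Sm.un i : Sm ι ar 1) fun _ => x
        · rw [hS'1, hS'1]
          exact GRD_lev_iff hg₁ g _ x
        · rw [hS'2, hS'2]
          exact GRD_lev_iff hg₂ g _ x
      cases R with
      | un i =>
        have h1 := hun i (v 0)
        have h2 : ∀ w : Fin 1 → C, S'.RelMap (n := 1) (Sm.un i : Sm (ι ⊕ (H₁ ⊕ H₂)) ar 1) w ↔
            uu S' i (w 0) := by
          intro w
          have h3 : w = fun _ => w 0 := funext fun j => by rw [Subsingleton.elim j 0]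
          unfold uu
          rw [← h3]
        exact (h2 _).trans (h1.trans (h2 v).symm)
      | rl d =>
        exact (hS'r d _).trans ((hC.inv (jj g) (ar d) (Sm.rl d : Sm ι ar (ar d)) v).trans
          (hS'r d v).symm)
    · intro x
      obtain ⟨B, hB⟩ := hC.fin x
      refine ⟨(B.preimage b₁ (hb₁.injective.injOn)) ∪ (B.preimage b₂ (hb₂.injective.injOn)),
        fun g hg => ?_⟩
      have h1 : jj g ∈ Fx B := by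
        intro a ha
        by_cases h1 : a ∈ P₁
        · obtain ⟨q, rfl⟩ := (hr₁ a).1 h1
          rw [hj₁, hg q (Finset.mem_union_left _ (Finset.mem_preimage.2 ha))]
        · by_cases h2 : a ∈ P₂
          · obtain ⟨q, rfl⟩ := (hr₂ a).1 h2
            rw [hj₂, hg q (Finset.mem_union_right _ (Finset.mem_preimage.2 ha))]
          · exact hf g a h1 h2
      exact hB h1
  · -- equivariance
    intro g a b
    change jj g • γ a b • c = γ (g a) (g b) • c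
    rw [← mul_smul]
    refine su_eq hC fun x hx => ?_
    change jj g (γ a b x) = γ (g a) (g b) x
    by_cases h1 : x = p₁
    · rw [h1, hγ₁, hγ₁, hj₁]
    · by_cases h2 : x = p₂
      · rw [h2, hγ₂, hγ₂, hj₂]
      · rw [hγ₃ a b x hx h1 h2, hγ₃ _ _ x hx h1 h2]
        exact hf g x (hout x hx h1 h2).1 (hout x hx h1 h2).2
  · intro a b a' b'
    rw [he₁, hEQ1 (LU ι ar) C hC c p₁ p₂ l₁ r₁ l₁' r₁' hd₁ H₁ D₁ _ _ (hadm₁ a b) (hadm₁ a' b'),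
      hγ₁, hγ₁]
    exact hb₁.injective.eq_iff
  · intro a b a' b'
    rw [he₂, hEQ1 (LU ι ar) C hC c p₂ p₁ l₂ r₂ l₂' r₂' hd₂ H₂ D₂ _ _ (hadm₂ a b) (hadm₂ a' b'),
      hγ₂, hγ₂]
    exact hb₂.injective.eq_iff

end Pool.Agent.UNS
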