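import Pool.Agent.UNS.Defs
import Pool.Agent.PMC.SHP

/-!
UNS, statements of part IV (helper45), with proofs in the docstrings: coding two linear orders in a grid
`G : FG K` (section 7 of `GC_UNI_helper45.md`).  Compare `Pool/Agent/AAD/StC.lean` (KTR, KRE, KFU, KDM, KSH), which has the same architecture.
`G.c a b` is the grid element; `W G d` the code of the data `d`, a structure on `G.N`.
-/

set_option autoImplicit false
set_option linter.unusedVariables false

namespace Pool.Agent.UNS

open FirstOrder.Language Set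
open scoped FirstOrder
open Pool.Agent.AAD (Gam Fx ls St su Ctx Pcs Sha)
open Pool.Agent.PMC (Sy LP us Two)
open Pool.Agent.Helper6.Str (PerfK CtblK Iso Code toStr)
open VPF (ModF)

/-- [WCR] the predicates of a code.
PROOF.  `rd G (W G d)` has the same relations as `G.S` (so `q1`, `q2` are the formulas `e₁`, `e₂` of the grid: `Grd.h₁`, `Grd.h₂`; an identity of structures by `ext`/cases on the symbols).
`c` is injective: `h₁`, `h₂` for `c a b = c a' b'`.  `pr i x y` for `x = c a a`, `y = c b b`: the `z` with `q1 z x`, `q2 z y` among the grid elements is `c a b`; `hl`. -/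
def St_WCR : Prop :=
  ∀ (κ : Type) (ar : κ → ℕ) (K : Cla ar) (G : FG K) (ι' : Type) (d : Dat ι'),
    rd G (W G d) = G.S ∧
    (∀ a b a' b', G.c a b = G.c a' b' → a = a' ∧ b = b') ∧
    (∀ a b a' b', q1 G (W G d) (G.c a b) (G.c a' b') ↔ a = a') ∧
    (∀ a b a' b', q2 G (W G d) (G.c a b) (G.c a' b') ↔ b = b') ∧
    (∀ a b, pr G (W G d) (.inl G.dl) (G.c a a) (G.c b b) ↔ a < b) ∧
    (∀ a b, pr G (W G d) (.inr .bl) (G.c a a) (G.c b b) ↔ d.bl a b) ∧
    (∀ a b, pr G (W G d) (.inr .sn) (G.c a a) (G.c b b) ↔ d.sn a b) ∧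
    (∀ x, rpS G (W G d) x ↔ ∃ a, d.rp a ∧ x = G.c a a) ∧
    ∀ i a, uu (W G d) (.inr (.u i)) (G.c a a) ↔ d.u i a

/-- [TRU] translation of sentences.
PROOF.  As AAD/KTR.lean: recursion on `φ : (LP ι').BoundedFormula Empty n`: `rel (un i)`: the symbol `un (inr (u i))`; `rel (lt b)`: `pr` (the formulas `e₁`, `e₂` with `un i ↦ un (inl i)`); `all`: relativised to `rpS`. -/
def St_TRU : Prop :=
  ∀ (κ : Type) (ar : κ → ℕ) (K : Cla ar) (G : FG K) (ι' : Type) (σ : (LP ι').Sentence),
    ∃ τ : (LU (G.ι ⊕ Cl ι') ar).Sentence,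
      ∀ (M : Type) (S : (LU (G.ι ⊕ Cl ι') ar).Structure M),
        (@FirstOrder.Language.Sentence.Realize (LU (G.ι ⊕ Cl ι') ar) M S τ ↔
          @FirstOrder.Language.Sentence.Realize (LP ι') {x : M // rpS G S x} (dec G S) σ)

/-- [VSN] validity is first-order.
PROOF.  AAD.Kit (`UD`) for the family of structures `W G d`, `d : Dat ι'`: the points `a : ℚ` are the elements of the predicate `dd` (`FG.hd`), `a < b`, `bl a b`, `sn a b` are `pr` (WCR), `rp`, `u i` are
atomic; every condition of `Dat.Val` is a sentence (one for each `i` for `ur`; for `inf` one sentence for each `n`: there are `n` different elements of `rp`).  `a ≤ b` is `¬ b < a`. -/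
def St_VSN : Prop :=
  ∀ (κ : Type) (ar : κ → ℕ) (K : Cla ar) (G : FG K) (ι' : Type),
    ∃ F : (LU (G.ι ⊕ Cl ι') ar).Theory, ∀ d : Dat ι',
      (@FirstOrder.Language.Theory.Model (LU (G.ι ⊕ Cl ι') ar) G.N (W G d) F ↔ d.Val)

/-- [MOD] the countable models of `thy G T`.
PROOF.  If there is no valid `d` with `dec (W d) ⊨ T` then `⊥ ∈ thy G T`.  Let `d₀` be one.  (i) For every sentence `σ` of `LU G.ι ar` true in `G.S` the same sentence (`un i ↦ un (inl i)`,
`LHom.onSentence`) is in `thy G T` (WCR: `rd (W d) = G.S`), so `rd G S` is a model of the theory of `G.S`: CAT gives an isomorphism `e : G.N ≃ M` of `G.S` and `rd G S`.  (ii) `∀ z (bl z → dd z ∨ dl z ∨ dg z)`,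
the same for `sn`, and `∀ z (rp z → dd z)`, `∀ z (u i z → dd z)` are in `thy G T`: so `S` is isomorphic by `e` to `W G d` for `d.bl a b = uu S (inr bl) (e (c a b))`, etc.  (iii) `W G d` is a model of `thy G T` (it
is isomorphic to `S`); `F ⊆ thy G T` (VSN), so `d.Val`; the translations (TRU) of the sentences of `T` are in `thy G T`. -/
def St_MOD : Prop :=
  ∀ (κ : Type) (ar : κ → ℕ) (K : Cla ar) (G : FG K) (ι' : Type) (T : (LP ι').Theory) (M : Type)
    (_ : Countable M) (S : (LU (G.ι ⊕ Cl ι') ar).Structure M),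
    @FirstOrder.Language.Theory.Model (LU (G.ι ⊕ Cl ι') ar) M S (thy G T) →
    ∃ d : Dat ι', d.Val ∧ @FirstOrder.Language.Theory.Model (LP ι') _ (dec G (W G d)) T ∧
      Iso S (W G d)

/-- [WFU] functoriality of decoding.
PROOF.  As the second half of AAD/KFU.lean: formulas are preserved by isomorphisms. -/
def St_WFU : Prop :=
  ∀ (κ : Type) (ar : κ → ℕ) (K : Cla ar) (G : FG K) (ι' M M' : Type)
    (S : (LU (G.ι ⊕ Cl ι') ar).Structure M) (S' : (LU (G.ι ⊕ Cl ι') ar).Structure M'),
    Iso S S' → Iso (dec G S) (dec G S')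

/-- [WEX] every structure with two orders is decoded from valid data.
PROOF.  `(ℕ, <₁)` with `<₁ = ls S true` (`Two`); `ℕ × ℚ` with the lexicographic order is a countable dense linear order without end points: an order isomorphism `e` onto `ℚ` (`Order.iso_of_countable_dense`; use a
type synonym of `ℕ` with this linear order, and `Prod.Lex`).  `bl a b`: the first components of `e⁻¹ a`, `e⁻¹ b` are equal; `rp a`: the second component of `e⁻¹ a` is `0`; `sn a b`: `rp a`, `rp b` and `ls S false` for the first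
components; `u i a`: `rp a` and `us S i` for the first component.  `Val`.  `Iso` (WCR): `x = c a a ↦` the first component of `e⁻¹ a`. -/
def St_WEX : Prop :=
  ∀ (κ : Type) (ar : κ → ℕ) (K : Cla ar) (G : FG K) (ι' : Type) (S : (LP ι').Structure ℕ),
    Two S → ∃ d : Dat ι', d.Val ∧ Iso (dec G (W G d)) S

/-- [WUN] valid data with isomorphic decoded structures have isomorphic codes.
PROOF.  Let `Iso (dec (W d)) (dec (W d'))` be given by `σ`: a bijection of `R = {a | d.rp a}` onto `R' = {a | d'.rp a}` (WCR, `x = c a a`) which preserves `<`, `sn`, `u i`.  For `r ∈ R` the block `B r = {a | d.bl r a}` is convex, without end points,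
countable, dense: so is `B' (σ r)`; there is an order isomorphism `f r : B r → B' (σ r)` with `f r r = σ r` (`Order.iso_of_countable_dense` for both sides of `r`, or for the block, followed by a move of one point: every nonempty open
convex set has automorphisms moving any point to any other).  `g a = f r a` for `a ∈ B r`: a bijection of `ℚ` (`rex`, `run`); increasing: in one block clear; for `a ∈ B r`, `b ∈ B s`, `r ≠ s`: `a < b ↔ r < s` (convex,
disjoint).  So `g : Gam`, `d'.bl (g a) (g b) ↔ d.bl a b`, the same for `rp`, `sn` (`sr`), `u` (`ur`).  The action of `g` on `G.N` (`G.A`) is an isomorphism `W G d → W G d'`: `Ctx.inv` for the relations and the `un (inl i)`, `ca` for the new predicates. -/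
def St_WUN : Prop :=
  ∀ (κ : Type) (ar : κ → ℕ) (K : Cla ar) (G : FG K) (ι' : Type) (d d' : Dat ι'), d.Val → d'.Val →
    Iso (dec G (W G d)) (dec G (W G d')) → Iso (W G d) (W G d')

/-- [WDM] measurable decoding.
PROOF.  As AAD/KDM.lean (there the decoded structure lives on `lv`, here on `rpS`, infinite by hypothesis): `{x | φ.Realize v in rd G (F x)}` is measurable for every formula; enumeration `Nat.nth` of
`{a | rpS G (F x) a}`. -/
def St_WDM : Prop :=
  ∀ (κ : Type) (ar : κ → ℕ) (K : Cla ar) (G : FG K) (ι' : Type)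
    (F : (ℕ → Bool) → (LU (G.ι ⊕ Cl ι') ar).Structure ℕ), (∀ x, {a | rpS G (F x) a}.Infinite) →
    (∀ (n : ℕ) (R : (LU (G.ι ⊕ Cl ι') ar).Relations n) (a : Fin n → ℕ),
      IsClopen {x | (F x).RelMap R a}) →
    ∃ D : (ℕ → Bool) → Code (LP ι'), (Measurable D) ∧
      ∀ x, Iso (dec G (F x)) (@toStr (LP ι') (fun n => ⟨fun f => Empty.elim f⟩) (D x))

/-- [USH] the dichotomy for `K` implies the dichotomy for two linear orders with unary predicates.
PROOF.  As AAD/KSH.lean, with `T' = thy G T`.  `S ∈ ModF T'`: MOD: `S ≅ W G d`, `d.Val`, `dec (W d) ⊨ T`; so `InX K S` (`G.age`, isomorphism), `{a | rpS G S a}` is infinite (`Val.inf`, WCR), `dec G S ⊨ T` (WFU).  `VCU` for `T'` (the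
language has countably many unary predicates: `Countable (Cl ι')`).  (1) `CtblK (ModF T')`, by `g`: `g' n` isomorphic to `dec (g n)` if the latter is infinite.  `N ∈ ModF T`: `Two N`, WEX: `d`, `dec (W d) ≅ N`; `W G d`: infinite and countable, copy `S` on `ℕ`
(`SHP_copy`; `G.N` is infinite: `c` is injective), `S ∈ ModF T'`: `W G d` is a model of `thy G T` by definition.  (2) `PerfK (ModF T')`, by `f`: WDM, MPK; `dec (f x) ≅ dec (f y)` gives `f x ≅ f y`: MOD, WFU, WUN. -/
def St_USH : Prop :=
  St_WCR → St_MOD → St_WFU → St_WEX → St_WUN → St_WDM → PMC.St_MPK →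
  ∀ (κ : Type), Countable κ → ∀ (ar : κ → ℕ) (K : Cla ar), FG K → VCU K →
    ∀ (ι' : Type), Countable ι' → ∀ T : (LP ι').Theory, (∀ S ∈ ModF T, Two S) →
      CtblK (ModF T) ∨ PerfK (ModF T)

/-! ### The positive half for classes with an order -/

/-- the relation `R_o` is a linear order in all members of `K` -/
def Ord {κ : Type} {ar : κ → ℕ} (K : Cla ar) (o : κ) (ho : ar o = 2) : Prop :=
  ∀ n, ∀ r ∈ K n, AAD.Lin fun i j => r o fun k => (![i, j] : Fin 2 → Fin n) (Fin.cast ho k)

/-- [POU] monadically NIP classes with an order.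
PROOF.  As AAD/POS2.lean: T5 (`MNO.all_MAINP`) for the language `LU ι ar`: for `S ∈ ModF T` the relation `rr S o` is a linear order of `ℕ` (`InX K S`, three elements: for injective `z` the induced structure is in `K`, so it is
linearly ordered). -/
def St_POU : Prop :=
  ∀ (κ : Type), Countable κ → ∀ (ar : κ → ℕ) (K : Cla ar) (o : κ) (ho : ar o = 2), Ord K o ho →
    MonN K → VCU K

end Pool.Agent.UNS
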