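import Pool.Agent.UNS.StA
import Pool.Agent.UNS.StB

/-!
UNS, module MOD (helper85): the countable models of `thy G T` are the codes.
-/

set_option autoImplicit false
set_option linter.unusedVariables false

namespace Pool.Agent.UNS

open FirstOrder.Language Set
open scoped FirstOrder
open Pool.Agent.AAD (Gam Fx ls St su Ctx Pcs Sha UD UD_congr UD_rel UD_imp UD_or UD_all1)
open Pool.Agent.PMC (Sy LP us Two)
open Pool.Agent.Helper6.Str (PerfK CtblK Iso RelIso Code toStr)

section

variable {κ : Type} {ar : κ → ℕ} {K : Cla ar} (G : FG K) (ι' : Type)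

/-- the inclusion of the languages -/
private def MOD_hom : LU G.ι ar →ᴸ LU (G.ι ⊕ Cl ι') ar where
  onFunction := fun {n} f => Empty.elim f
  onRelation := fun {n} R => match n, R with
    | _, .un l => (Sm.un (.inl l) : Sm (G.ι ⊕ Cl ι') ar 1)
    | _, .rl s => Sm.rl s

private theorem MOD_real {M : Type} (S : (LU (G.ι ⊕ Cl ι') ar).Structure M) {α : Type}
    (φ : (LU G.ι ar).Formula α) (v : α → M) :
    @Formula.Realize _ M S α ((MOD_hom G ι').onFormula φ) v ↔
      @Formula.Realize _ M (rd G S) α φ v := by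
  let _ := S
  let _ := rd G S
  have : (MOD_hom G ι').IsExpansionOn M := by
    constructor
    · intro n f x
      exact Empty.elim f
    · intro n R x
      match n, R with
      | _, .un l =>
        have hx : (fun _ : Fin 1 => x 0) = x := by
          funext i
          rw [Subsingleton.elim i 0]
        change S.RelMap (n := 1) (Sm.un (.inl l) : Sm (G.ι ⊕ Cl ι') ar 1) x =
          S.RelMap (n := 1) (Sm.un (.inl l) : Sm (G.ι ⊕ Cl ι') ar 1) fun _ => x 0
        rw [hx]
      | _, .rl s => rfl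
  exact LHom.realize_onFormula _ φ

/-- all structures -/
private abbrev MOD_J {κ : Type} {ar : κ → ℕ} {K : Cla ar} (G : FG K) (ι' : Type) : Type 1 :=
  Σ M : Type, (LU (G.ι ⊕ Cl ι') ar).Structure M

private theorem MOD_uu (i : G.ι ⊕ Cl ι') {α : Type} (a : α) :
    UD (LU (G.ι ⊕ Cl ι') ar) (J := MOD_J G ι')
    (fun j => j.1) (fun j => j.2) α fun j v => uu j.2 i (v a) :=
  UD_congr (UD_rel (B := LU (G.ι ⊕ Cl ι') ar) (n := 1)
    (Sm.un i : Sm (G.ι ⊕ Cl ι') ar 1) (fun _ => a)) fun j v => Iff.rfl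

variable {G ι'}

/-- first-order properties of all codes hold in all models of `thy G T` -/
private theorem MOD_get {T : (LP ι').Theory} {M : Type}
    {S : (LU (G.ι ⊕ Cl ι') ar).Structure M}
    (hS : @FirstOrder.Language.Theory.Model (LU (G.ι ⊕ Cl ι') ar) M S (thy G T))
    (C : MOD_J G ι' → Prop) (hC : UD (LU (G.ι ⊕ Cl ι') ar) (J := MOD_J G ι') (fun j => j.1)
      (fun j => j.2) Empty fun j _ => C j)
    (h : ∀ d : Dat ι', d.Val → C ⟨G.N, W G d⟩) : C ⟨M, S⟩ := by
  obtain ⟨φ, hφ⟩ := hC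
  refine (hφ ⟨M, S⟩ default).1 ?_
  let _ := S
  exact hS.realize_of_mem φ fun d hd _ => (hφ ⟨G.N, W G d⟩ default).2 (h d hd)

/-- sentences are preserved by isomorphisms -/
private theorem MOD_pres {L : FirstOrder.Language.{0, 0}} (hL : ∀ n, IsEmpty (L.Functions n))
    {M N : Type} {S : L.Structure M} {S' : L.Structure N} {e : M ≃ N} (h : RelIso S S' e)
    (σ : L.Sentence) :
    @FirstOrder.Language.Sentence.Realize L M S σ ↔
      @FirstOrder.Language.Sentence.Realize L N S' σ := by
  let _ := S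
  let _ := S'
  let f : M ≃[L] N :=
    { toEquiv := e
      map_fun' := fun {n} f _ => (hL n).elim f
      map_rel' := fun {n} R v => (h n R v).symm }
  exact StrongHomClass.realize_sentence f σ

end

theorem thm_MOD (hWCR : St_WCR) (hTRU : St_TRU) (hVSN : St_VSN) (hCAT : St_CAT) : St_MOD := by
  intro κ ar K G ι' T M hM S hS
  -- the isomorphism of the reducts
  have h1 : ∃ e : G.N ≃ M, RelIso G.S (rd G S) e := by
    let _ := G.S
    let _ := rd G S
    let _ := G.A
    have := G.cN
    have h0 : Nonempty (G.N ≃[LU G.ι ar] M) := by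
      refine hCAT (LU G.ι ar) G.N M G.cN hM G.G.ctx G.fo fun σ hσ => ?_
      refine (MOD_real G ι' S σ default).1 ?_
      refine @Theory.Model.realize_of_mem _ _ S _ hS ((MOD_hom G ι').onFormula σ) ?_
      intro d hd _
      refine (MOD_real G ι' (W G d) σ default).2 ?_
      rw [(hWCR κ ar K G ι' d).1]
      exact hσ
    obtain ⟨e⟩ := h0
    exact ⟨e.toEquiv, fun n R v => (e.map_rel' R v).symm⟩
  obtain ⟨e, he⟩ := h1
  have huu : ∀ (i : G.ι) (x : G.N), uu G.S i x ↔ uu S (.inl i) (e x) := fun i x =>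
    he 1 (Sm.un i : Sm G.ι ar 1) (fun _ => x)
  have hrr : ∀ (c : κ) (v : Fin (ar c) → G.N), rr G.S c v ↔ rr S c (e ∘ v) := fun c v =>
    he (ar c) (Sm.rl c : Sm G.ι ar (ar c)) v
  -- the new predicates consist of grid elements
  have h3 : ∀ i : Cl ι', (i = .bl ∨ i = .sn) → ∀ z : M, uu S (.inr i) z →
      uu S (.inl G.dd) z ∨ uu S (.inl G.dl) z ∨ uu S (.inl G.dg) z := by
    intro i hi
    refine MOD_get hS (fun j => ∀ z : j.1, uu j.2 (.inr i) z →
      uu j.2 (.inl G.dd) z ∨ uu j.2 (.inl G.dl) z ∨ uu j.2 (.inl G.dg) z) ?_ ?_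
    · exact UD_all1 (Q := fun (j : MOD_J G ι') (v : Empty → j.1) (z : j.1) =>
        uu j.2 (.inr i) z → uu j.2 (.inl G.dd) z ∨ uu j.2 (.inl G.dl) z ∨ uu j.2 (.inl G.dg) z)
        (UD_imp (MOD_uu G ι' (.inr i) (Sum.inr ())) (UD_or (MOD_uu G ι' (.inl G.dd) (Sum.inr ()))
          (UD_or (MOD_uu G ι' (.inl G.dl) (Sum.inr ())) (MOD_uu G ι' (.inl G.dg) (Sum.inr ())))))
    · intro d hd z hz
      have h4 : ∃ a b, z = G.c a b := by
        rcases hi with rfl | rfl
        · obtain ⟨a, b, -, h⟩ := hz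
          exact ⟨a, b, h⟩
        · obtain ⟨a, b, -, h⟩ := hz
          exact ⟨a, b, h⟩
      obtain ⟨a, b, rfl⟩ := h4
      rcases lt_trichotomy a b with h | h | h
      · exact Or.inr (Or.inl ((G.hl _).2 ⟨a, b, h, rfl⟩))
      · subst h
        exact Or.inl ((G.hd _).2 ⟨a, rfl⟩)
      · exact Or.inr (Or.inr ((G.hg _).2 ⟨a, b, h, rfl⟩))
  have h4 : ∀ i : Cl ι', (i = .rp ∨ ∃ l, i = .u l) → ∀ z : M, uu S (.inr i) z →
      uu S (.inl G.dd) z := by
    intro i hi
    refine MOD_get hS (fun j => ∀ z : j.1, uu j.2 (.inr i) z → uu j.2 (.inl G.dd) z) ?_ ?_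
    · exact UD_all1 (Q := fun (j : MOD_J G ι') (v : Empty → j.1) (z : j.1) =>
        uu j.2 (.inr i) z → uu j.2 (.inl G.dd) z)
        (UD_imp (MOD_uu G ι' (.inr i) (Sum.inr ())) (MOD_uu G ι' (.inl G.dd) (Sum.inr ())))
    · intro d hd z hz
      have h4 : ∃ a, z = G.c a a := by
        rcases hi with rfl | ⟨l, rfl⟩
        · obtain ⟨a, -, h⟩ := hz
          exact ⟨a, h⟩
        · obtain ⟨a, -, h⟩ := hz
          exact ⟨a, h⟩
      obtain ⟨a, rfl⟩ := h4
      exact (G.hd _).2 ⟨a, rfl⟩
  have h5 : ∀ i : Cl ι', (i = .bl ∨ i = .sn) → ∀ x : G.N, uu S (.inr i) (e x) →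
      ∃ a b, x = G.c a b := by
    intro i hi x hx
    rcases h3 i hi _ hx with h | h | h
    · obtain ⟨a, ha⟩ := (G.hd x).1 ((huu _ _).2 h)
      exact ⟨a, a, ha⟩
    · obtain ⟨a, b, -, ha⟩ := (G.hl x).1 ((huu _ _).2 h)
      exact ⟨a, b, ha⟩
    · obtain ⟨a, b, -, ha⟩ := (G.hg x).1 ((huu _ _).2 h)
      exact ⟨a, b, ha⟩
  have h6 : ∀ i : Cl ι', (i = .rp ∨ ∃ l, i = .u l) → ∀ x : G.N, uu S (.inr i) (e x) →
      ∃ a, x = G.c a a := by
    intro i hi x hx
    exact (G.hd x).1 ((huu _ _).2 (h4 i hi _ hx))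
  -- the data
  obtain ⟨d, hd⟩ : ∃ d : Dat ι', d = ⟨fun a b => uu S (.inr .bl) (e (G.c a b)),
    fun a b => uu S (.inr .sn) (e (G.c a b)), fun a => uu S (.inr .rp) (e (G.c a a)),
    fun i a => uu S (.inr (.u i)) (e (G.c a a))⟩ := ⟨_, rfl⟩
  have h7 : RelIso (W G d) S e := by
    intro n R v
    cases R with
    | rl c => exact hrr c v
    | un i =>
      have hv : e ∘ v = fun _ => e (v 0) := by
        funext k
        rw [Subsingleton.elim k 0]
        rfl
      rw [hv]
      rcases i with i | i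
      · exact huu i (v 0)
      · cases i with
        | bl =>
          change (∃ a b, d.bl a b ∧ v 0 = G.c a b) ↔ uu S (.inr .bl) (e (v 0))
          constructor
          · rintro ⟨a, b, h, h'⟩
            rw [h']
            rw [hd] at h
            exact h
          · intro h
            obtain ⟨a, b, h'⟩ := h5 _ (Or.inl rfl) _ h
            refine ⟨a, b, ?_, h'⟩
            rw [hd]
            rw [h'] at h
            exact h
        | sn =>
          change (∃ a b, d.sn a b ∧ v 0 = G.c a b) ↔ uu S (.inr .sn) (e (v 0))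
          constructor
          · rintro ⟨a, b, h, h'⟩
            rw [h']
            rw [hd] at h
            exact h
          · intro h
            obtain ⟨a, b, h'⟩ := h5 _ (Or.inr rfl) _ h
            refine ⟨a, b, ?_, h'⟩
            rw [hd]
            rw [h'] at h
            exact h
        | rp =>
          change (∃ a, d.rp a ∧ v 0 = G.c a a) ↔ uu S (.inr .rp) (e (v 0))
          constructor
          · rintro ⟨a, h, h'⟩
            rw [h']
            rw [hd] at h
            exact h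
          · intro h
            obtain ⟨a, h'⟩ := h6 _ (Or.inl rfl) _ h
            refine ⟨a, ?_, h'⟩
            rw [hd]
            rw [h'] at h
            exact h
        | u l =>
          change (∃ a, d.u l a ∧ v 0 = G.c a a) ↔ uu S (.inr (.u l)) (e (v 0))
          constructor
          · rintro ⟨a, h, h'⟩
            rw [h']
            rw [hd] at h
            exact h
          · intro h
            obtain ⟨a, h'⟩ := h6 _ (Or.inr ⟨l, rfl⟩) _ h
            refine ⟨a, ?_, h'⟩
            rw [hd]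
            rw [h'] at h
            exact h
  -- the code is a model of `thy G T`
  have h8 : ∀ σ ∈ thy G T, @FirstOrder.Language.Sentence.Realize _ G.N (W G d) σ := by
    intro σ hσ
    refine (MOD_pres (fun n => ⟨fun f => Empty.elim f⟩) h7 σ).2 ?_
    exact @Theory.Model.realize_of_mem _ _ S _ hS σ hσ
  have h9 : d.Val := by
    obtain ⟨F, hF⟩ := hVSN κ ar K G ι'
    refine (hF d).1 ?_
    let _ := W G d
    refine ⟨fun σ hσ => h8 σ fun d' hd' _ => ?_⟩
    exact @Theory.Model.realize_of_mem _ _ (W G d') _ ((hF d').2 hd') σ hσ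
  refine ⟨d, h9, ?_, ?_⟩
  · let _ := dec G (W G d)
    refine ⟨fun σ hσ => ?_⟩
    obtain ⟨τ, hτ⟩ := hTRU κ ar K G ι' σ
    refine (hτ G.N (W G d)).1 (h8 τ fun d' hd' hm => ?_)
    exact (hτ G.N (W G d')).2 (@Theory.Model.realize_of_mem _ _ (dec G (W G d')) _ hm σ hσ)
  · refine ⟨e.symm, fun n R v => ?_⟩
    refine Iff.trans ?_ (h7 n R (e.symm ∘ v)).symm
    have : e ∘ (e.symm ∘ v) = v := by
      funext k
      exact e.apply_symm_apply (v k)
    rw [this]

end Pool.Agent.UNS
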