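import Pool.Agent.UNS.StA

/-!
UNS [PCA]: the age passes to a structure whose finite pieces occur (helper87, after AAD/AGC of helper32).
-/

set_option autoImplicit false
set_option linter.unusedVariables false

namespace Pool.Agent.UNS

open FirstOrder.Language Set
open scoped FirstOrder
open Pool.Agent.AAD (Gam Fx ls St su Ctx Pcs Sha)

private theorem PCA_piece {ι κ : Type} {ar : κ → ℕ} {C M : Type} (S : (LU ι ar).Structure C)
    (S' : (LU ι ar).Structure M) (h : @Pcs (LU ι ar) C M S S') (n : ℕ) (c : Fin n → C)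
    (s : Finset κ) : ∃ e : Fin n → M, (∀ i j, e i = e j ↔ c i = c j) ∧
      ∀ k ∈ s, ∀ v : Fin (ar k) → Fin n,
        (rr S' k (fun i => e (v i)) ↔ rr S k (fun i => c (v i))) := by
  classical
  obtain ⟨e, h1, h2⟩ := h n c (s.image fun k => (⟨ar k, (Sm.rl k : Sm ι ar (ar k))⟩ :
      Σ n, (LU ι ar).Relations n))
  exact ⟨e, h1, fun k hk v => h2 _ (Finset.mem_image_of_mem _ hk) v⟩

theorem thm_PCA : St_PCA := by
  intro ι κ ar K C M S S' hK hP hS m z hz
  refine hK m _ fun s => ?_
  obtain ⟨e, he, hr⟩ := PCA_piece S S' hP m z s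
  exact ⟨_, hS m e fun i j hij => hz ((he i j).1 hij), fun c hc v => hr c hc v⟩

end Pool.Agent.UNS
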