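import Pool.Agent.UNS.StA

/-!
UNS, REL (helper50): relativisation of first-order formulas to finitely many orbits.
-/

set_option autoImplicit false
set_option linter.unusedVariables false

namespace Pool.Agent.UNS

open FirstOrder.Language Set
open scoped FirstOrder
open Pool.Agent.AAD (Gam Fx ls St su Ctx UD UD_congr UD_sub UD_rel UD_eq UD_not UD_imp UD_and
  UD_const UD_all1 UD_fex)

section REL

variable {κ : Type} {ar : κ → ℕ} {ι C : Type} (S : (LU ι ar).Structure C) (A : MulAction Gam C)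

/-- relations on `C` which are first-order on `Orb T₀` in `Orb T` for all large `T` -/
def RELok (β : Type) (Q : (β → C) → Prop) : Prop :=
  ∀ T₀ : Finset C, ∃ T₁ : Finset C, ∀ T : Finset C, T₁ ⊆ T →
    ∃ R : (β → @Orb C A T) → Prop,
      UD (LU (ι ⊕ {t // t ∈ T}) ar) (fun _ : Unit => @Orb C A T)
        (fun _ => @rst ι κ C ar A S T) β (fun _ => R) ∧
      ∀ v : β → @Orb C A T, (∀ i, (v i).1 ∈ @Orb C A T₀) → (R v ↔ Q fun i => (v i).1)

variable {S A}

theorem REL_congr {β : Type} {Q Q' : (β → C) → Prop} (h : RELok S A β Q)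
    (e : ∀ v, Q v ↔ Q' v) : RELok S A β Q' := by
  intro T₀
  obtain ⟨T₁, hT₁⟩ := h T₀
  refine ⟨T₁, fun T hT => ?_⟩
  obtain ⟨R, hR, hQ⟩ := hT₁ T hT
  exact ⟨R, hR, fun v hv => (hQ v hv).trans (e _)⟩

theorem REL_sub {β γ : Type} {Q : (β → C) → Prop} (h : RELok S A β Q) (f : β → γ) :
    RELok S A γ fun v => Q fun i => v (f i) := by
  intro T₀
  obtain ⟨T₁, hT₁⟩ := h T₀
  refine ⟨T₁, fun T hT => ?_⟩
  obtain ⟨R, hR, hQ⟩ := hT₁ T hT
  exact ⟨fun v => R fun i => v (f i), UD_sub hR f, fun v hv => hQ _ fun i => hv (f i)⟩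

theorem REL_false {β : Type} : RELok S A β fun _ => False :=
  fun T₀ => ⟨∅, fun T _ => ⟨fun _ => False, UD_const False, fun _ _ => Iff.rfl⟩⟩

theorem REL_eq {β : Type} (i j : β) : RELok S A β fun v => v i = v j :=
  fun T₀ => ⟨∅, fun T _ => ⟨fun v => v i = v j, UD_eq i j, fun _ _ => Subtype.ext_iff⟩⟩

theorem REL_rel {β : Type} {n : ℕ} (R : (LU ι ar).Relations n) (f : Fin n → β) :
    RELok S A β fun v => @Structure.RelMap _ C S n R fun i => v (f i) := by
  intro T₀
  refine ⟨∅, fun T _ => ?_⟩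
  cases R with
  | un i =>
    refine ⟨_, UD_rel (B := LU (ι ⊕ {t // t ∈ T}) ar) (X := fun _ : Unit => @Orb C A T)
      (S := fun _ => @rst ι κ C ar A S T) (n := 1) (Sm.un (Sum.inl i) : Sm _ ar 1) f,
      fun v _ => ?_⟩
    show S.RelMap (n := 1) (Sm.un i : Sm ι ar 1) (fun _ => (v (f 0)).1) ↔
      S.RelMap (n := 1) (Sm.un i : Sm ι ar 1) (fun i => (v (f i)).1)
    have e : (fun i : Fin 1 => (v (f i)).1) = fun _ => (v (f 0)).1 := by
      funext i
      rw [Subsingleton.elim i 0]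
    rw [e]
  | rl c =>
    exact ⟨_, UD_rel (B := LU (ι ⊕ {t // t ∈ T}) ar) (X := fun _ : Unit => @Orb C A T)
      (S := fun _ => @rst ι κ C ar A S T) (n := ar c) (Sm.rl c : Sm _ ar (ar c)) f,
      fun v _ => Iff.rfl⟩

theorem REL_imp {β : Type} {Q Q' : (β → C) → Prop} (h : RELok S A β Q) (h' : RELok S A β Q') :
    RELok S A β fun v => Q v → Q' v := by
  classical
  intro T₀
  obtain ⟨T₁, hT₁⟩ := h T₀
  obtain ⟨T₂, hT₂⟩ := h' T₀
  refine ⟨T₁ ∪ T₂, fun T hT => ?_⟩
  obtain ⟨R, hR, hQ⟩ := hT₁ T (Finset.union_subset_left hT)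
  obtain ⟨R', hR', hQ'⟩ := hT₂ T (Finset.union_subset_right hT)
  exact ⟨fun v => R v → R' v, UD_imp hR hR', fun v hv => imp_congr (hQ v hv) (hQ' v hv)⟩

/-- finitely many orbits of tuples of elements of `Orb T₀` -/
theorem REL_fot (hFOT : St_FOT) (hC : @Ctx (LU ι ar) C S A) {β : Type} [Finite β]
    (T₀ : Finset C) : ∃ W : Set (β → C), W.Finite ∧ ∀ v : β → C, (∀ i, v i ∈ @Orb C A T₀) →
      ∃ t ∈ W, ∃ g : Gam, v = fun i => g • t i := by
  classical
  obtain ⟨n, ⟨e⟩⟩ := Finite.exists_equiv_fin β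
  let L₀ : FirstOrder.Language.{0, 0} := ⟨fun _ => Empty, fun _ => Empty⟩
  let S₀ : L₀.Structure (@Orb C A T₀) := ⟨fun f _ => Empty.elim f, fun R _ => Empty.elim R⟩
  have hctx : @Ctx L₀ (@Orb C A T₀) S₀ (@orbA _ A T₀) := by
    refine @Ctx.mk L₀ (@Orb C A T₀) S₀ (@orbA _ A T₀) (fun n => inferInstanceAs (IsEmpty Empty))
      (fun g n R v => Empty.elim R) fun x => ?_
    obtain ⟨B, hB⟩ := hC.fin x.1
    exact ⟨B, fun g hg => Subtype.ext (hB hg)⟩
  obtain ⟨W, hW, hv⟩ := @hFOT L₀ (@Orb C A T₀) S₀ (@orbA _ A T₀) hctx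
    ⟨T₀.attach.image fun t => ⟨t.1, t.1, t.2, 1, (one_smul Gam t.1).symm⟩, fun x => by
      obtain ⟨t, ht, g, hg⟩ := x.2
      exact ⟨⟨t, t, ht, 1, (one_smul Gam t).symm⟩,
        Finset.mem_image.2 ⟨⟨t, ht⟩, Finset.mem_attach _ _, rfl⟩, g, Subtype.ext hg⟩⟩ n
  refine ⟨(fun w i => (w (e i)).1) '' W, hW.image _, fun v h => ?_⟩
  obtain ⟨t, ht, g, hg⟩ := hv fun j => ⟨v (e.symm j), h _⟩
  refine ⟨_, ⟨t, ht, rfl⟩, g, funext fun i => ?_⟩
  have := congrArg Subtype.val (congrFun hg (e i))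
  rw [e.symm_apply_apply] at this
  exact this

theorem REL_all (hFOT : St_FOT) (hC : @Ctx (LU ι ar) C S A) {β : Type} [Finite β]
    {Q : (β ⊕ Unit → C) → Prop} (hQ : ∀ (g : Gam) v, Q (fun i => g • v i) ↔ Q v)
    (h : RELok S A (β ⊕ Unit) Q) :
    RELok S A β fun v => ∀ x : C, Q (Sum.elim v fun _ => x) := by
  classical
  intro T₀
  obtain ⟨W, hW, hv⟩ := REL_fot hFOT hC (β := β) T₀
  -- the witnesses
  obtain ⟨Z, hZ⟩ : ∃ Z : Finset C, ∀ t ∈ W, (∃ x, ¬ Q (Sum.elim t fun _ => x)) →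
      ∃ x ∈ Z, ¬ Q (Sum.elim t fun _ => x) := by
    refine Set.Finite.induction_on (motive := fun W _ => ∃ Z : Finset C, ∀ t ∈ W,
      (∃ x, ¬ Q (Sum.elim t fun _ => x)) → ∃ x ∈ Z, ¬ Q (Sum.elim t fun _ => x)) W hW
      ⟨∅, fun t ht => ht.elim⟩ ?_
    rintro t W - - ⟨Z, hZ⟩
    by_cases ht : ∃ x, ¬ Q (Sum.elim t fun _ => x)
    · obtain ⟨x, hx⟩ := ht
      refine ⟨insert x Z, fun s hs hs' => ?_⟩
      rcases hs with rfl | hs
      · exact ⟨x, Finset.mem_insert_self _ _, hx⟩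
      · obtain ⟨y, hy, hy'⟩ := hZ s hs hs'
        exact ⟨y, Finset.mem_insert_of_mem hy, hy'⟩
    · refine ⟨Z, fun s hs hs' => ?_⟩
      rcases hs with rfl | hs
      · exact (ht hs').elim
      · exact hZ s hs hs'
  obtain ⟨T₁, hT₁⟩ := h (T₀ ∪ Z)
  refine ⟨T₁ ∪ (T₀ ∪ Z), fun T hT => ?_⟩
  obtain ⟨R, hR, hRQ⟩ := hT₁ T (Finset.union_subset_left hT)
  have hsub : T₀ ∪ Z ⊆ T := Finset.union_subset_right hT
  refine ⟨fun v => ∀ x, (∃ t : {t // t ∈ T₀ ∪ Z}, ∃ g : Gam, x.1 = g • t.1) →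
    R (Sum.elim v fun _ => x), ?_, fun v hv0 => ?_⟩
  · refine UD_all1 (Q := fun _ v x => (∃ t : {t // t ∈ T₀ ∪ Z}, ∃ g : Gam, x.1 = g • t.1) →
      R (Sum.elim v fun _ => x)) (UD_imp (UD_fex fun t => ?_) ?_)
    · exact UD_rel (B := LU (ι ⊕ {t // t ∈ T}) ar) (X := fun _ : Unit => @Orb C A T)
        (S := fun _ => @rst ι κ C ar A S T) (n := 1)
        (Sm.un (Sum.inr ⟨t.1, hsub t.2⟩) : Sm _ ar 1) fun _ => Sum.inr ()
    · refine UD_congr hR fun _ w => ?_
      have e : w = Sum.elim (fun i => w (Sum.inl i)) fun _ => w (Sum.inr ()) := by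
        funext i
        rcases i with i | i <;> rfl
      conv_lhs => rw [e]
  · have horb : ∀ x : C, x ∈ @Orb C A (T₀ ∪ Z) ↔ ∃ t : {t // t ∈ T₀ ∪ Z}, ∃ g : Gam, x = g • t.1 :=
      fun x => ⟨fun ⟨t, ht, g, hg⟩ => ⟨⟨t, ht⟩, g, hg⟩, fun ⟨t, g, hg⟩ => ⟨t.1, t.2, g, hg⟩⟩
    have hmem : ∀ x : @Orb C A T, x.1 ∈ @Orb C A (T₀ ∪ Z) →
        (R (Sum.elim v fun _ => x) ↔ Q (Sum.elim (fun i => (v i).1) fun _ => x.1)) := by
      intro x hx
      rw [hRQ (Sum.elim v fun _ => x) (by
        rintro (i | i)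
        · obtain ⟨t, ht, g, hg⟩ := hv0 i
          exact ⟨t, Finset.mem_union_left _ ht, g, hg⟩
        · exact hx)]
      have e : (fun i => (Sum.elim v (fun _ : Unit => x) i).1) =
          Sum.elim (fun i => (v i).1) fun _ => x.1 := by
        funext i
        rcases i with i | i <;> rfl
      rw [e]
    constructor
    · intro H
      by_contra hne
      push Not at hne
      obtain ⟨x, hx⟩ := hne
      obtain ⟨t, ht, g, hg⟩ := hv (fun i => (v i).1) hv0
      have key : ∀ y : C, Q (Sum.elim (fun i => (v i).1) fun _ => g • y) ↔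
          Q (Sum.elim t fun _ => y) := by
        intro y
        rw [← hQ g (Sum.elim t fun _ => y)]
        have e : (fun i => g • Sum.elim t (fun _ : Unit => y) i) =
            Sum.elim (fun i => (v i).1) fun _ => g • y := by
          funext i
          rcases i with i | i
          · exact (congrFun hg i).symm
          · rfl
        rw [e]
      obtain ⟨y, hy, hy'⟩ := hZ t ht ⟨g⁻¹ • x, fun hq => hx (by
        have := (key (g⁻¹ • x)).2 hq
        rwa [smul_inv_smul] at this)⟩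
      have hyT : g • y ∈ @Orb C A (T₀ ∪ Z) := ⟨y, Finset.mem_union_right _ hy, g, rfl⟩
      have hyT' : g • y ∈ @Orb C A T := ⟨y, hsub (Finset.mem_union_right _ hy), g, rfl⟩
      exact hy' ((key y).1 ((hmem ⟨g • y, hyT'⟩ hyT).1 (H ⟨g • y, hyT'⟩ ((horb _).1 hyT))))
    · intro H x hx
      exact (hmem x ((horb _).2 hx)).2 (H x.1)

/-- all first-order formulas -/
theorem REL_form (hFOT : St_FOT) (hC : @Ctx (LU ι ar) C S A) {α : Type} [Finite α] {n : ℕ}
    (φ : (LU ι ar).BoundedFormula α n) :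
    RELok S A (α ⊕ Fin n) (fun v => @BoundedFormula.Realize _ C S α n φ (fun i => v (Sum.inl i))
      fun i => v (Sum.inr i)) ∧
    ∀ (g : Gam) (v : α → C) (w : Fin n → C),
      @BoundedFormula.Realize _ C S α n φ (fun i => g • v i) (fun i => g • w i) ↔
        @BoundedFormula.Realize _ C S α n φ v w := by
  have hterm : ∀ {m : ℕ} (t : (LU ι ar).Term (α ⊕ Fin m)), ∃ i, t = Term.var i := by
    intro m t
    cases t with
    | var i => exact ⟨i, rfl⟩
    | func f ts => exact (f : Empty).elim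
  induction φ with
  | falsum => exact ⟨REL_false, fun g v w => Iff.rfl⟩
  | @equal m t₁ t₂ =>
    obtain ⟨i, rfl⟩ := hterm t₁
    obtain ⟨j, rfl⟩ := hterm t₂
    have key : ∀ (v : α → C) (w : Fin m → C), @BoundedFormula.Realize _ C S α m
        (BoundedFormula.equal (Term.var i) (Term.var j)) v w ↔
        Sum.elim v w i = Sum.elim v w j := fun v w => Iff.rfl
    refine ⟨REL_congr (REL_eq i j) fun v => ?_, fun g v w => ?_⟩
    · rw [key]
      have e : (Sum.elim (fun i => v (Sum.inl i)) fun i => v (Sum.inr i)) = v := by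
        funext i
        rcases i with i | i <;> rfl
      rw [e]
    · rw [key, key]
      have e : (Sum.elim (fun i => g • v i) fun i => g • w i) = fun i => g • Sum.elim v w i := by
        funext i
        rcases i with i | i <;> rfl
      rw [e]
      exact smul_left_cancel_iff g
  | @rel m l R ts =>
    choose f hf using fun i => hterm (ts i)
    obtain rfl : ts = fun i => Term.var (f i) := funext hf
    have key : ∀ (v : α → C) (w : Fin m → C), @BoundedFormula.Realize _ C S α m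
        (BoundedFormula.rel R fun i => Term.var (f i)) v w ↔
        @Structure.RelMap _ C S l R fun i => Sum.elim v w (f i) := fun v w => Iff.rfl
    refine ⟨REL_congr (REL_rel R f) fun v => ?_, fun g v w => ?_⟩
    · rw [key]
      have e : (Sum.elim (fun i => v (Sum.inl i)) fun i => v (Sum.inr i)) = v := by
        funext i
        rcases i with i | i <;> rfl
      rw [e]
    · rw [key, key]
      have e : (Sum.elim (fun i => g • v i) fun i => g • w i) = fun i => g • Sum.elim v w i := by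
        funext i
        rcases i with i | i <;> rfl
      rw [e]
      exact hC.inv g l R fun i => Sum.elim v w (f i)
  | @imp m φ₁ φ₂ h₁ h₂ =>
    refine ⟨REL_imp h₁.1 h₂.1, fun g v w => ?_⟩
    exact imp_congr (h₁.2 g v w) (h₂.2 g v w)
  | @all m φ h =>
    constructor
    · -- substitution `α ⊕ Fin (m + 1) → (α ⊕ Fin m) ⊕ Unit`
      let f : α ⊕ Fin (m + 1) → (α ⊕ Fin m) ⊕ Unit :=
        Sum.elim (fun a => Sum.inl (Sum.inl a))
          (Fin.snoc (α := fun _ => (α ⊕ Fin m) ⊕ Unit) (fun i => Sum.inl (Sum.inr i)) (Sum.inr ()))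
      refine REL_congr (REL_all hFOT hC (β := α ⊕ Fin m) ?_ (REL_sub h.1 f)) fun v => ?_
      · intro g v
        exact h.2 g (fun i => v (f (Sum.inl i))) fun i => v (f (Sum.inr i))
      · refine forall_congr' fun x => ?_
        have e : (fun i => (Sum.elim v fun _ : Unit => x) (f (Sum.inr i))) =
            Fin.snoc (α := fun _ => C) (fun i => v (Sum.inr i)) x := by
          funext i
          refine Fin.lastCases ?_ (fun i => ?_) i
          · show (Sum.elim v fun _ : Unit => x) (Fin.snoc (α := fun _ => (α ⊕ Fin m) ⊕ Unit)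
              (fun i => Sum.inl (Sum.inr i)) (Sum.inr ()) (Fin.last m)) = _
            rw [Fin.snoc_last, Fin.snoc_last]
            rfl
          · show (Sum.elim v fun _ : Unit => x) (Fin.snoc (α := fun _ => (α ⊕ Fin m) ⊕ Unit)
              (fun i => Sum.inl (Sum.inr i)) (Sum.inr ()) i.castSucc) = _
            rw [Fin.snoc_castSucc, Fin.snoc_castSucc]
            rfl
        show @BoundedFormula.Realize _ C S α (m + 1) φ (fun i => v (Sum.inl i))
          (fun i => (Sum.elim v fun _ : Unit => x) (f (Sum.inr i))) ↔ _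
        rw [e]
    · intro g v w
      have e : ∀ x : C, Fin.snoc (α := fun _ => C) (fun i => g • w i) (g • x) =
          fun i => g • Fin.snoc (α := fun _ => C) w x i := by
        intro x
        funext i
        refine Fin.lastCases ?_ (fun i => ?_) i
        · rw [Fin.snoc_last, Fin.snoc_last]
        · rw [Fin.snoc_castSucc, Fin.snoc_castSucc]
      constructor
      · intro H x
        have := H (g • x)
        rw [e] at this
        exact (h.2 g v _).1 this
      · intro H x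
        have := (h.2 g v _).2 (H (g⁻¹ • x))
        rw [← e, smul_inv_smul] at this
        exact this

end REL

/-- [REL] relativisation -/
theorem thm_REL (hFOT : St_FOT) : St_REL := by
  intro κ ar ι C S A hC α hα φ T₀
  obtain ⟨T₁, hT₁⟩ := (REL_form hFOT hC (φ : (LU ι ar).BoundedFormula α 0)).1 T₀
  refine ⟨T₁, fun T hT => ?_⟩
  obtain ⟨R, hR, hQ⟩ := hT₁ T hT
  obtain ⟨ψ, hψ⟩ := UD_sub hR (fun i : α ⊕ Fin 0 => Sum.elim id (fun j => j.elim0) i)
  refine ⟨ψ, fun v hv => ?_⟩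
  refine (hψ () v).trans ((hQ _ (by
    rintro (i | i)
    · exact hv i
    · exact i.elim0)).trans ?_)
  have e : (fun i : Fin 0 => (v (Sum.elim id (fun j : Fin 0 => j.elim0) (Sum.inr i))).1) =
      (default : Fin 0 → C) := Subsingleton.elim _ _
  show @BoundedFormula.Realize _ C S α 0 φ (fun i => (v i).1)
    (fun i : Fin 0 => (v (Sum.elim id (fun j : Fin 0 => j.elim0) (Sum.inr i))).1) ↔ _
  rw [e]
  rfl

end Pool.Agent.UNS

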