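import Pool.Agent.UNS.StA

/-!
UNS, block SEE: configurations exist.
-/

set_option autoImplicit false

namespace Pool.Agent.UNS

open FirstOrder.Language Set
open scoped FirstOrder
open Pool.Agent.AAD (Gam Fx ls St su Ctx Pcs Sha)

/-- a positive number below finitely many positive numbers -/
theorem SEE_pos (D : Finset ℚ) (h : ∀ d ∈ D, 0 < d) : ∃ η : ℚ, 0 < η ∧ ∀ d ∈ D, η < d := by
  classical
  induction D using Finset.induction_on with
  | empty => exact ⟨1, one_pos, fun d hd => absurd hd (Finset.notMem_empty d)⟩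
  | insert a D _ ih =>
    obtain ⟨η, h0, h1⟩ := ih fun d hd => h d (Finset.mem_insert_of_mem hd)
    have ha : 0 < a := h a (Finset.mem_insert_self a D)
    refine ⟨min η (a / 2), lt_min h0 (by linarith), fun d hd => ?_⟩
    rcases Finset.mem_insert.1 hd with rfl | hd
    · exact lt_of_le_of_lt (min_le_right _ _) (by linarith)
    · exact lt_of_le_of_lt (min_le_left _ _) (h1 d hd)

/-- distances in a finite set -/
theorem SEE_sep (F : Finset ℚ) : ∃ η : ℚ, 0 < η ∧ ∀ x ∈ F, ∀ y ∈ F, x < y → x + η < y - η := by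
  classical
  obtain ⟨η, h0, h1⟩ := SEE_pos (((F ×ˢ F).filter fun q => q.1 < q.2).image
    fun q => (q.2 - q.1) / 2) (by
      intro d hd
      obtain ⟨q, hq, rfl⟩ := Finset.mem_image.1 hd
      have := (Finset.mem_filter.1 hq).2
      linarith)
  refine ⟨η, h0, fun x hx y hy hxy => ?_⟩
  have := h1 ((y - x) / 2) (Finset.mem_image.2 ⟨(x, y),
    Finset.mem_filter.2 ⟨Finset.mem_product.2 ⟨hx, hy⟩, hxy⟩, rfl⟩)
  linarith

/-- [SEE] -/
theorem thm_SEE (hVIS : St_VIS) : St_SEE := by
  classical
  intro L C _ _ hC c p p' hp hp' hne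
  obtain ⟨hsub, -, hv⟩ := hVIS L C hC c
  have hpc : p ∈ su c := hsub hp
  -- a minimal configuration
  have hex : ∃ n : ℕ, ∃ (H : Type) (_ : Finite H) (θ : L.Formula (H ⊕ Unit)) (z : H → C) (g : Gam),
      (∀ h, (su (z h)).card ≤ 1) ∧ (∀ a ∈ su c, a ≠ p → g a = a) ∧
      ¬ (θ.Realize (Sum.elim z fun _ => g • c) ↔ θ.Realize (Sum.elim z fun _ => c)) ∧
      Nat.card {h // su (z h) = {p'}} = n := by
    obtain ⟨g, h1, h2⟩ := hv p hp
    unfold Tr at h2
    simp only [not_forall] at h2
    obtain ⟨H, hH, θ, z, hz, h3⟩ := h2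
    exact ⟨_, H, hH, θ, z, g, hz, h1, h3, rfl⟩
  obtain ⟨H, hH, θ, z, g, hz, hgf, hdif, hcard⟩ := Nat.find_spec hex
  have hmin : ∀ (z' : H → C) (g' : Gam), (∀ h, (su (z' h)).card ≤ 1) →
      (∀ a ∈ su c, a ≠ p → g' a = a) →
      Nat.card {h // su (z' h) = {p'}} < Nat.card {h // su (z h) = {p'}} →
      (θ.Realize (Sum.elim z' fun _ => g' • c) ↔ θ.Realize (Sum.elim z' fun _ => c)) := by
    intro z' g' h1 h2 h3
    by_contra h4
    rw [hcard] at h3
    exact Nat.find_min hex h3 ⟨H, hH, θ, z', g', h1, h2, h4, rfl⟩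
  -- the finite set
  have := Fintype.ofFinite H
  obtain ⟨F, hF⟩ : ∃ F : Finset ℚ, F = su c ∪ (Finset.univ.biUnion fun h => su (z h)) ∪ {g p} :=
    ⟨_, rfl⟩
  have hF1 : ∀ a ∈ su c, a ∈ F := fun a ha => by
    rw [hF]
    exact Finset.mem_union_left _ (Finset.mem_union_left _ ha)
  have hF2 : ∀ h, ∀ a ∈ su (z h), a ∈ F := fun h a ha => by
    rw [hF]
    exact Finset.mem_union_left _ (Finset.mem_union_right _
      (Finset.mem_biUnion.2 ⟨h, Finset.mem_univ h, ha⟩))
  have hF3 : g p ∈ F := by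
    rw [hF]
    exact Finset.mem_union_right _ (Finset.mem_singleton_self _)
  obtain ⟨η, hη, hsep⟩ := SEE_sep F
  -- the two ends
  obtain ⟨lo, hlo⟩ : ∃ lo, lo = min p (g p) := ⟨_, rfl⟩
  obtain ⟨hi, hhi⟩ : ∃ hi, hi = max p (g p) := ⟨_, rfl⟩
  have hloF : lo ∈ F := by
    rw [hlo]
    rcases min_choice p (g p) with h | h <;> rw [h]
    · exact hF1 p hpc
    · exact hF3
  have hhiF : hi ∈ F := by
    rw [hhi]
    rcases max_choice p (g p) with h | h <;> rw [h]
    · exact hF1 p hpc
    · exact hF3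
  have hlp : lo ≤ p := by rw [hlo]; exact min_le_left _ _
  have hlg : lo ≤ g p := by rw [hlo]; exact min_le_right _ _
  have hph : p ≤ hi := by rw [hhi]; exact le_max_left _ _
  have hgh : g p ≤ hi := by rw [hhi]; exact le_max_right _ _
  -- the other points of the support
  have hout : ∀ a ∈ su c, a ≠ p → a < lo ∨ hi < a := by
    intro a ha hap
    have h1 := hgf a ha hap
    rcases lt_or_gt_of_ne hap with h | h
    · left
      have h2 : g a < g p := g.lt_iff_lt.2 h
      rw [h1] at h2
      rw [hlo]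
      exact lt_min h h2
    · right
      have h2 : g p < g a := g.lt_iff_lt.2 h
      rw [h1] at h2
      rw [hhi]
      exact max_lt h h2
  have hnI : ∀ a ∈ F, (a < lo ∨ hi < a) → a ∉ Ioo (lo - η) (hi + η) := by
    rintro a ha (h | h) ⟨h1, h2⟩
    · have := hsep a ha lo hloF h
      linarith
    · have := hsep hi hhiF a ha h
      linarith
  have hnJ : ∀ a ∈ F, a ≠ p' → a ∉ Ioo (p' - η) (p' + η) := by
    rintro a ha hap ⟨h1, h2⟩
    rcases lt_or_gt_of_ne hap with h | h
    · have := hsep a ha p' (hF1 p' hp') h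
      linarith
    · have := hsep p' (hF1 p' hp') a ha h
      linarith
  refine ⟨lo - η, hi + η, p' - η, p' + η, ?_, H, hH, ⟨{
    θ := θ
    z := z
    g := g
    x1 := hz
    gf := hgf
    dif := hdif
    min := hmin
    pc := hpc
    pc' := hp'
    pI := ⟨by linarith, by linarith⟩
    gI := ⟨by linarith, by linarith⟩
    pJ := ⟨by linarith, by linarith⟩
    out := fun a ha hap hap' => ⟨hnI a (hF1 a ha) (hout a ha hap), hnJ a (hF1 a ha) hap'⟩
    zz := ?_ }⟩⟩
  · rw [Set.disjoint_left]
    rintro x ⟨h1, h2⟩ ⟨h3, h4⟩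
    rcases hout p' hp' hne with h | h
    · have := hsep p' (hF1 p' hp') lo hloF h
      linarith
    · have := hsep hi hhiF p' (hF1 p' hp') h
      linarith
  · intro h
    rcases Finset.card_le_one_iff_subset_singleton.1 (hz h) with ⟨a, ha⟩
    rcases Finset.subset_singleton_iff.1 ha with h0 | h0
    · right
      left
      intro b hb
      rw [h0] at hb
      exact absurd hb (Finset.notMem_empty b)
    · by_cases hap : a = p'
      · left
        rw [h0, hap]
      · by_cases haI : a ∈ Ioo (lo - η) (hi + η)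
        · right
          left
          intro b hb
          rw [h0, Finset.mem_singleton] at hb
          rw [hb]
          exact haI
        · right
          right
          intro b hb
          have hbF := hF2 h b hb
          rw [h0, Finset.mem_singleton] at hb
          rw [hb] at hbF ⊢
          exact ⟨haI, hnJ a hbF hap⟩

end Pool.Agent.UNS
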