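import Pool.Agent.UNS.StB

/-!
UNS, module TRU: translation of sentences (compare `Pool/Agent/AAD/KTR.lean`).
-/

set_option autoImplicit false
set_option linter.unusedVariables false

namespace Pool.Agent.UNS

open FirstOrder.Language Set
open scoped FirstOrder
open Pool.Agent.AAD (Gam Fx ls St su Ctx Pcs Sha UD UD_congr UD_sub UD_rel UD_eq UD_imp UD_and
  UD_ex1 UD_all1)
open Pool.Agent.PMC (Sy LP us Two)
open Pool.Agent.Helper6.Str (PerfK CtblK Iso Code toStr)
open VPF (ModF)

section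

variable {κ : Type} {ar : κ → ℕ} {K : Cla ar} (G : FG K) (ι' : Type)

/-- all structures -/
abbrev TRU_J {κ : Type} {ar : κ → ℕ} {K : Cla ar} (G : FG K) (ι' : Type) : Type 1 :=
  Σ M : Type, (LU (G.ι ⊕ Cl ι') ar).Structure M

/-- the inclusion of the languages -/
def TRU_hom : LU G.ι ar →ᴸ LU (G.ι ⊕ Cl ι') ar where
  onFunction := fun {n} f => Empty.elim f
  onRelation := fun {n} R => match n, R with
    | _, .un l => (Sm.un (.inl l) : Sm (G.ι ⊕ Cl ι') ar 1)
    | _, .rl s => Sm.rl s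

theorem TRU_real {M : Type} (S : (LU (G.ι ⊕ Cl ι') ar).Structure M) {α : Type}
    (φ : (LU G.ι ar).Formula α) (v : α → M) :
    @Formula.Realize _ M S α ((TRU_hom G ι').onFormula φ) v ↔
      @Formula.Realize _ M (rd G S) α φ v := by
  let _ := S
  let _ := rd G S
  have : (TRU_hom G ι').IsExpansionOn M := by
    constructor
    · intro n f x
      exact Empty.elim f
    · intro n R x
      match n, R with
      | _, .un l =>
        have hx : (fun _ : Fin 1 => x 0) = x := by
          funext i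
          rw [Subsingleton.elim i 0]
        change S.RelMap (n := 1) (Sm.un (.inl l) : Sm (G.ι ⊕ Cl ι') ar 1) x =
          S.RelMap (n := 1) (Sm.un (.inl l) : Sm (G.ι ⊕ Cl ι') ar 1) fun _ => x 0
        rw [hx]
      | _, .rl s => rfl
  exact LHom.realize_onFormula _ φ

theorem TRU_q1 : UD (LU (G.ι ⊕ Cl ι') ar) (J := TRU_J G ι') (fun j => j.1)
    (fun j => j.2) (Fin 2) fun j v => q1 G j.2 (v 0) (v 1) := by
  refine ⟨(TRU_hom G ι').onFormula (@Grd.e₁ _ _ G.S G.A G.G), fun j v => ?_⟩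
  rw [TRU_real]
  have hv : v = ![v 0, v 1] := by
    funext i
    fin_cases i <;> rfl
  conv_lhs => rw [hv]
  exact Iff.rfl

theorem TRU_q2 : UD (LU (G.ι ⊕ Cl ι') ar) (J := TRU_J G ι') (fun j => j.1)
    (fun j => j.2) (Fin 2) fun j v => q2 G j.2 (v 0) (v 1) := by
  refine ⟨(TRU_hom G ι').onFormula (@Grd.e₂ _ _ G.S G.A G.G), fun j v => ?_⟩
  rw [TRU_real]
  have hv : v = ![v 0, v 1] := by
    funext i
    fin_cases i <;> rfl
  conv_lhs => rw [hv]
  exact Iff.rfl

theorem TRU_uu (i : G.ι ⊕ Cl ι') {α : Type} (a : α) : UD (LU (G.ι ⊕ Cl ι') ar) (J := TRU_J G ι')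
    (fun j => j.1) (fun j => j.2) α fun j v => uu j.2 i (v a) :=
  UD_congr (UD_rel (B := LU (G.ι ⊕ Cl ι') ar) (n := 1)
    (Sm.un i : Sm (G.ι ⊕ Cl ι') ar 1) (fun _ => a)) fun j v => Iff.rfl

theorem TRU_pr (i : G.ι ⊕ Cl ι') : UD (LU (G.ι ⊕ Cl ι') ar) (J := TRU_J G ι') (fun j => j.1)
    (fun j => j.2) (Fin 2) fun j v => pr G j.2 i (v 0) (v 1) :=
  UD_ex1 (Q := fun (j : TRU_J G ι') (v : Fin 2 → j.1) (z : j.1) =>
      uu j.2 i z ∧ q1 G j.2 z (v 0) ∧ q2 G j.2 z (v 1))
    (UD_and (TRU_uu G ι' i (Sum.inr ()))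
      (UD_and (UD_congr (UD_sub (TRU_q1 G ι') (![Sum.inr (), Sum.inl 0] : Fin 2 → Fin 2 ⊕ Unit))
          fun j v => Iff.rfl)
        (UD_congr (UD_sub (TRU_q2 G ι') (![Sum.inr (), Sum.inl 1] : Fin 2 → Fin 2 ⊕ Unit))
          fun j v => Iff.rfl)))

theorem TRU_main {n : ℕ} (φ : (LP ι').BoundedFormula Empty n) :
    ∃ ψ : (LU (G.ι ⊕ Cl ι') ar).Formula (Fin n),
      ∀ (M : Type) (S : (LU (G.ι ⊕ Cl ι') ar).Structure M)
        (x : Fin n → {z : M // rpS G S z}),
        @Formula.Realize _ M S (Fin n) ψ (fun i => (x i).1) ↔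
          @BoundedFormula.Realize (LP ι') {z : M // rpS G S z} (dec G S) Empty n φ
            default x := by
  have hterm : ∀ {m : ℕ} (t : (LP ι').Term (Empty ⊕ Fin m)),
      ∃ i : Fin m, t = Term.var (Sum.inr i) := by
    intro m t
    match t with
    | .var (.inl e) => exact e.elim
    | .var (.inr i) => exact ⟨i, rfl⟩
    | .func f _ => exact Empty.elim f
  have key : ∀ {m : ℕ} (N : Type) (T : (LP ι').Structure N) (v : Fin m → N)
      (t : (LP ι').Term (Empty ⊕ Fin m)) (i : Fin m), t = Term.var (Sum.inr i) →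
        @Term.realize (LP ι') N T _ (Sum.elim (default : Empty → N) v) t = v i := by
    intro m N T v t i h
    subst h
    rfl
  induction φ with
  | falsum => exact ⟨⊥, fun M S x => Iff.rfl⟩
  | @equal m t₁ t₂ =>
      obtain ⟨i, rfl⟩ := hterm t₁
      obtain ⟨j, rfl⟩ := hterm t₂
      obtain ⟨ψ, hψ⟩ := UD_eq (B := LU (G.ι ⊕ Cl ι') ar) (J := TRU_J G ι')
        (X := fun j => j.1) (S := fun j => j.2) i j
      refine ⟨ψ, fun M S x => ?_⟩
      refine (hψ ⟨M, S⟩ _).trans ?_
      change (x i).1 = (x j).1 ↔ x i = x j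
      exact ⟨fun h => Subtype.ext h, fun h => congrArg Subtype.val h⟩
  | @rel m l R ts =>
      match l, R, ts with
      | _, .un u, ts =>
          obtain ⟨i, hi⟩ := hterm (ts 0)
          obtain ⟨ψ, hψ⟩ := TRU_uu G ι' (.inr (.u u)) i
          refine ⟨ψ, fun M S x => ?_⟩
          refine (hψ ⟨M, S⟩ _).trans ?_
          have h1 := key {z : M // rpS G S z} (dec G S) x _ _ hi
          change uu S (.inr (.u u)) (x i).1 ↔ uu S (.inr (.u u)) (@Term.realize (LP ι') _ (dec G S)
            _ (Sum.elim (default : Empty → {z : M // rpS G S z}) x) (ts 0)).1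
          rw [h1]
      | _, .lt true, ts =>
          obtain ⟨i, hi⟩ := hterm (ts 0)
          obtain ⟨j, hj⟩ := hterm (ts 1)
          obtain ⟨ψ, hψ⟩ := UD_sub (TRU_pr G ι' (.inl G.dl)) (![i, j] : Fin 2 → Fin m)
          refine ⟨ψ, fun M S x => ?_⟩
          refine (hψ ⟨M, S⟩ _).trans ?_
          have h1 := key {z : M // rpS G S z} (dec G S) x _ _ hi
          have h2 := key {z : M // rpS G S z} (dec G S) x _ _ hj
          change pr G S (.inl G.dl) (x i).1 (x j).1 ↔ pr G S (.inl G.dl)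
            (@Term.realize (LP ι') _ (dec G S) _
            (Sum.elim (default : Empty → {z : M // rpS G S z}) x) (ts 0)).1
            (@Term.realize (LP ι') _ (dec G S) _
            (Sum.elim (default : Empty → {z : M // rpS G S z}) x) (ts 1)).1
          rw [h1, h2]
      | _, .lt false, ts =>
          obtain ⟨i, hi⟩ := hterm (ts 0)
          obtain ⟨j, hj⟩ := hterm (ts 1)
          obtain ⟨ψ, hψ⟩ := UD_sub (TRU_pr G ι' (.inr .sn)) (![i, j] : Fin 2 → Fin m)
          refine ⟨ψ, fun M S x => ?_⟩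
          refine (hψ ⟨M, S⟩ _).trans ?_
          have h1 := key {z : M // rpS G S z} (dec G S) x _ _ hi
          have h2 := key {z : M // rpS G S z} (dec G S) x _ _ hj
          change pr G S (.inr .sn) (x i).1 (x j).1 ↔ pr G S (.inr .sn)
            (@Term.realize (LP ι') _ (dec G S) _
            (Sum.elim (default : Empty → {z : M // rpS G S z}) x) (ts 0)).1
            (@Term.realize (LP ι') _ (dec G S) _
            (Sum.elim (default : Empty → {z : M // rpS G S z}) x) (ts 1)).1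
          rw [h1, h2]
  | @imp m φ₁ φ₂ ih₁ ih₂ =>
      obtain ⟨ψ₁, h₁⟩ := ih₁
      obtain ⟨ψ₂, h₂⟩ := ih₂
      refine ⟨ψ₁.imp ψ₂, fun M S x => ?_⟩
      exact imp_congr (h₁ M S x) (h₂ M S x)
  | @all m φ ih =>
      obtain ⟨ψ, hψ⟩ := ih
      let f : Fin (m + 1) → Fin m ⊕ Unit := Fin.lastCases (Sum.inr ()) Sum.inl
      have hf : ∀ (N : Type) (v : Fin m ⊕ Unit → N), (fun i => v (f i)) =
          (Fin.snoc (fun i => v (Sum.inl i)) (v (Sum.inr ())) : Fin (m + 1) → N) := by
        intro N v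
        funext i
        refine Fin.lastCases ?_ (fun j => ?_) i
        · rw [Fin.snoc_last]
          simp only [f, Fin.lastCases_last]
        · rw [Fin.snoc_castSucc]
          simp only [f, Fin.lastCases_castSucc]
      have h1 : UD (LU (G.ι ⊕ Cl ι') ar) (J := TRU_J G ι') (fun j => j.1) (fun j => j.2)
          (Fin (m + 1)) fun j v => @Formula.Realize _ j.1 j.2 (Fin (m + 1)) ψ v :=
        ⟨ψ, fun j v => Iff.rfl⟩
      have h2 : UD (LU (G.ι ⊕ Cl ι') ar) (J := TRU_J G ι') (fun j => j.1) (fun j => j.2)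
          (Fin m ⊕ Unit) fun j v => rpS G j.2 (v (Sum.inr ())) →
            @Formula.Realize _ j.1 j.2 (Fin (m + 1)) ψ
              (Fin.snoc (fun i => v (Sum.inl i)) (v (Sum.inr ())) : Fin (m + 1) → j.1) := by
        refine UD_imp (UD_congr (TRU_uu G ι' (.inr .rp) (Sum.inr ())) fun j v => Iff.rfl) ?_
        refine UD_congr (UD_sub h1 f) fun j v => ?_
        rw [hf]
      obtain ⟨χ, hχ⟩ := UD_all1 (Q := fun (j : TRU_J G ι') (v : Fin m → j.1) (y : j.1) =>
        rpS G j.2 y → @Formula.Realize _ j.1 j.2 (Fin (m + 1)) ψ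
          (Fin.snoc v y : Fin (m + 1) → j.1)) h2
      refine ⟨χ, fun M S x => ?_⟩
      refine (hχ ⟨M, S⟩ _).trans ?_
      have hsn : ∀ y : {z : M // rpS G S z},
          (Fin.snoc (fun i => (x i).1) y.1 : Fin (m + 1) → M) =
          fun i => ((Fin.snoc x y : Fin (m + 1) → {z : M // rpS G S z}) i).1 := by
        intro y
        funext i
        refine Fin.lastCases ?_ (fun j => ?_) i
        · rw [Fin.snoc_last, Fin.snoc_last]
        · rw [Fin.snoc_castSucc, Fin.snoc_castSucc]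
      constructor
      · intro h y
        have h3 := h y.1 y.2
        change @Formula.Realize _ M S (Fin (m + 1)) ψ
          (Fin.snoc (fun i => (x i).1) y.1 : Fin (m + 1) → M) at h3
        rw [hsn y] at h3
        exact (hψ M S (Fin.snoc x y)).1 h3
      · intro h y hy
        have h3 := h ⟨y, hy⟩
        have h4 := (hψ M S (Fin.snoc x ⟨y, hy⟩)).2 h3
        rw [← hsn ⟨y, hy⟩] at h4
        exact h4

end

/-- translation of sentences -/
theorem thm_TRU : St_TRU := by
  intro κ ar K G ι' σ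
  obtain ⟨ψ, hψ⟩ := TRU_main G ι' σ
  refine ⟨ψ.relabel (Fin.elim0 : Fin 0 → Empty), fun M S => ?_⟩
  have h := hψ M S (fun i => i.elim0)
  have e2 : (fun i : Fin 0 => (i.elim0 : {z : M // rpS G S z})) =
      (default : Fin 0 → {z : M // rpS G S z}) := Subsingleton.elim _ _
  rw [e2] at h
  refine Iff.trans ?_ h
  let _ := S
  change (ψ.relabel (Fin.elim0 : Fin 0 → Empty)).Realize default ↔ _
  rw [Formula.realize_relabel]
  have e3 : ((default : Empty → M) ∘ (Fin.elim0 : Fin 0 → Empty)) =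
      fun i : Fin 0 => (i.elim0 : {z : M // rpS G S z}).1 := Subsingleton.elim _ _
  rw [e3]

end Pool.Agent.UNS
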