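import Pool.Agent.UNS.StB
import Pool.Agent.PMC.SHP

/-!
UNS, [USH] assembly of the sharp half (compare `Pool/Agent/AAD/KSH.lean`).  `St_USH` has its hypotheses inside.
-/

set_option autoImplicit false
set_option linter.unusedVariables false

namespace Pool.Agent.UNS

open FirstOrder.Language Set
open scoped FirstOrder
open Pool.Agent.PMC (Sy LP us Two Bin SHP_model SHP_copy)
open Pool.Agent.Helper6.Str (PerfK CtblK Iso RelIso Code toStr)
open VPF (ModF)

private theorem USH_countable (ι : Type) [Countable ι] (n : ℕ) : Countable (Sy ι n) := by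
  have h : Function.Injective
      (fun s : Sy ι n => (match s with | .un i => Sum.inl i | .lt b => Sum.inr b : ι ⊕ Bool)) := by
    intro s s' h
    cases s <;> cases s' <;> simp_all
  exact h.countable

private theorem USH_bin (ι : Type) [Countable ι] : Bin (LP ι) :=
  ⟨fun n => ⟨fun f => Empty.elim f⟩, fun n h1 h2 => ⟨fun R => by
    have R' : Sy ι n := R
    cases R' with
    | un i => exact h1 rfl
    | lt b => exact h2 rfl⟩, fun n => USH_countable ι n⟩

private theorem USH_cl (ι : Type) [Countable ι] : Countable (Cl ι) := by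
  have h : Function.Injective
      (fun s : Cl ι => (match s with
        | .bl => Sum.inr 0 | .sn => Sum.inr 1 | .rp => Sum.inr 2 | .u i => Sum.inl i : ι ⊕ ℕ)) := by
    intro s s' h
    cases s <;> cases s' <;> simp_all
  exact h.countable

theorem thm_USH : St_USH := by
  intro hWCR hMOD hWFU hWEX hWUN hWDM hMPK κ hκ ar K G hV ι' hι' T hT
  have hc1 : Countable G.ι := G.cι
  have hc2 : Countable G.N := G.cN
  have hc3 : Countable (Cl ι') := USH_cl ι'
  have hfun : ∀ n, IsEmpty ((LP ι').Functions n) := fun n => ⟨fun f => Empty.elim f⟩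
  have hfun' : ∀ n, IsEmpty ((LU (G.ι ⊕ Cl ι') ar).Functions n) :=
    fun n => ⟨fun f => Empty.elim f⟩
  have hinf : ∀ d : Dat ι', d.Val → Infinite {x : G.N // rpS G (W G d) x} := by
    intro d hd
    obtain ⟨-, hinj, -, -, -, -, -, hrp, -⟩ := hWCR κ ar K G ι' d
    have := hd.inf.to_subtype
    refine Infinite.of_injective
      (fun a : {a | d.rp a} => (⟨G.c a.1 a.1, (hrp _).2 ⟨a.1, a.2, rfl⟩⟩ :
        {x : G.N // rpS G (W G d) x})) ?_
    intro a b hab
    exact Subtype.ext (hinj _ _ _ _ (Subtype.ext_iff.1 hab)).1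
  have hN : Infinite G.N := by
    have h1 : Function.Injective fun a : ℚ => G.c a a := by
      intro a b hab
      exact ((hWCR κ ar K G ι' ⟨fun _ _ => True, fun _ _ => True, fun _ => True,
        fun _ _ => True⟩).2.1 _ _ _ _ hab).1
    exact Infinite.of_injective _ h1
  have htr : ∀ {M M' : Type} {S : (LU (G.ι ⊕ Cl ι') ar).Structure M}
      {S' : (LU (G.ι ⊕ Cl ι') ar).Structure M'}, Iso S S' →
      Infinite {x : M' // rpS G S' x} → Infinite {x : M // rpS G S x} := by
    intro M M' S S' h h2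
    obtain ⟨e, -⟩ := hWFU κ ar K G ι' M M' S S' h
    exact Infinite.of_injective e.symm e.symm.injective
  have hage : ∀ (S : (LU (G.ι ⊕ Cl ι') ar).Structure ℕ) (d : Dat ι'), Iso S (W G d) →
      InX K S := by
    rintro S d ⟨e, he⟩ m z hz
    have h1 := G.age m (fun i => e (z i)) (e.injective.comp hz)
    have h2 : (fun (c : κ) (v : Fin (ar c) → Fin m) => rr S c fun i => z (v i)) =
        fun c v => rr G.S c fun i => e (z (v i)) := by
      funext c v
      exact propext (he (ar c) (Sm.rl c : Sm (G.ι ⊕ Cl ι') ar (ar c)) fun i => z (v i))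
    rw [h2]
    exact h1
  have hthy : ∀ d : Dat ι', d.Val → @FirstOrder.Language.Theory.Model (LP ι') _ (dec G (W G d)) T →
      @FirstOrder.Language.Theory.Model (LU (G.ι ⊕ Cl ι') ar) G.N (W G d) (thy G T) := by
    intro d hd hm
    let _ := W G d
    exact ⟨fun σ hσ => hσ d hd hm⟩
  have key : ∀ S ∈ ModF (thy G T : (LU (G.ι ⊕ Cl ι') ar).Theory), ∃ d : Dat ι', d.Val ∧
      @FirstOrder.Language.Theory.Model (LP ι') _ (dec G (W G d)) T ∧ Iso S (W G d) :=
    fun S hS => hMOD κ ar K G ι' T ℕ inferInstance S hS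
  rcases hV (G.ι ⊕ Cl ι') inferInstance (thy G T) (fun S hS => by
    obtain ⟨d, -, -, h⟩ := key S hS
    exact hage S d h) with hc | hp
  · left
    obtain ⟨g, hg⟩ := hc
    have hex : ∀ n, ∃ S' : (LP ι').Structure ℕ, Infinite {z : ℕ // rpS G (g n) z} →
        Iso (dec G (g n)) S' := by
      intro n
      by_cases h : Infinite {z : ℕ // rpS G (g n) z}
      · obtain ⟨S', hS'⟩ := SHP_copy hfun (dec G (g n))
        exact ⟨S', fun _ => hS'⟩
      · exact ⟨@toStr (LP ι') hfun (fun _ => false), fun h' => absurd h' h⟩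
    choose g' hg' using hex
    refine ⟨g', fun N hN' => ?_⟩
    obtain ⟨d, hd, hdN⟩ := hWEX κ ar K G ι' N (hT N hN')
    obtain ⟨S, hS⟩ := SHP_copy hfun' (W G d)
    have h1 : @FirstOrder.Language.Theory.Model (LP ι') _ (dec G (W G d)) T :=
      SHP_model hfun hdN.symm T hN'
    have h2 : S ∈ ModF (thy G T : (LU (G.ι ⊕ Cl ι') ar).Theory) :=
      SHP_model hfun' hS _ (hthy d hd h1)
    obtain ⟨n, hn⟩ := hg S h2
    have h3 : Iso (W G d) (g n) := hS.trans hn
    have h4 : Infinite {z : ℕ // rpS G (g n) z} := htr h3.symm (hinf d hd)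
    have h5 : Iso (dec G (W G d)) (dec G (g n)) := hWFU κ ar K G ι' _ _ _ _ h3
    exact ⟨n, hdN.symm.trans (h5.trans (hg' n h4))⟩
  · right
    obtain ⟨f, hf1, hf2, hf3⟩ := hp
    obtain ⟨D, hD, hD'⟩ := hWDM κ ar K G ι' f (fun x => by
      obtain ⟨d, hd, -, h⟩ := key (f x) (hf1 x)
      have h2 : Infinite {z : ℕ // rpS G (f x) z} := htr h (hinf d hd)
      exact Set.infinite_coe_iff.1 h2) hf3
    refine hMPK (LP ι') (USH_bin ι') (ModF T) D hD (fun x => ?_) (fun x y hxy => ?_)
    · obtain ⟨d, hd, hm, h⟩ := key (f x) (hf1 x)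
      have h2 : Iso (dec G (W G d)) (dec G (f x)) := (hWFU κ ar K G ι' _ _ _ _ h).symm
      exact SHP_model hfun (h2.trans (hD' x)) T hm
    · refine hf2 x y ?_
      obtain ⟨d, hd, -, h⟩ := key (f x) (hf1 x)
      obtain ⟨d', hd', -, h'⟩ := key (f y) (hf1 y)
      have h1 : Iso (dec G (f x)) (dec G (f y)) := (hD' x).trans (hxy.trans (hD' y).symm)
      have h2 := hWFU κ ar K G ι' _ _ _ _ h
      have h3 := hWFU κ ar K G ι' _ _ _ _ h'
      have h4 : Iso (W G d) (W G d') :=
        hWUN κ ar K G ι' d d' hd hd' (h2.symm.trans (h1.trans h3))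
      exact h.trans (h4.trans h'.symm)

end Pool.Agent.UNS
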