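import Pool.Agent.UNS.StB

/-!
# Module VSN: validity is first-order (helper89)
-/

set_option autoImplicit false
set_option linter.unusedVariables false

namespace Pool.Agent.UNS

open FirstOrder.Language Set
open scoped FirstOrder
open Pool.Agent.AAD (UD UD_congr UD_sub UD_rel UD_eq UD_not UD_imp UD_and UD_or UD_iff UD_const
  UD_ex UD_all UD_ex1 UD_all1 UD_fin UD_fex)

section

variable {κ : Type} {ar : κ → ℕ} {K : Cla ar} (G : FG K) (ι' : Type)

/-- the inclusion of the languages -/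
private def VSN_hom : LU G.ι ar →ᴸ LU (G.ι ⊕ Cl ι') ar where
  onFunction := fun {n} f => Empty.elim f
  onRelation := fun {n} R => match n, R with
    | _, .un l => (Sm.un (.inl l) : Sm (G.ι ⊕ Cl ι') ar 1)
    | _, .rl s => Sm.rl s

private theorem VSN_real {M : Type} (S : (LU (G.ι ⊕ Cl ι') ar).Structure M) {α : Type}
    (φ : (LU G.ι ar).Formula α) (v : α → M) :
    @Formula.Realize _ M S α ((VSN_hom G ι').onFormula φ) v ↔
      @Formula.Realize _ M (rd G S) α φ v := by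
  let _ := S
  let _ := rd G S
  have : (VSN_hom G ι').IsExpansionOn M := by
    constructor
    · intro n f x
      exact Empty.elim f
    · intro n R x
      match n, R with
      | _, .un l =>
        have hx : (fun _ : Fin 1 => x 0) = x := by
          funext i
          rw [Subsingleton.elim i 0]
        change S.RelMap (n := 1) (Sm.un (.inl l) : Sm (G.ι ⊕ Cl ι') ar 1) x =
          S.RelMap (n := 1) (Sm.un (.inl l) : Sm (G.ι ⊕ Cl ι') ar 1) fun _ => x 0
        rw [hx]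
      | _, .rl s => rfl
  exact LHom.realize_onFormula _ φ

private theorem VSN_q1 : UD (LU (G.ι ⊕ Cl ι') ar) (J := Dat ι') (fun _ => G.N)
    (fun d => W G d) (Fin 2) fun d v => q1 G (W G d) (v 0) (v 1) := by
  refine ⟨(VSN_hom G ι').onFormula (@Grd.e₁ _ _ G.S G.A G.G), fun d v => ?_⟩
  rw [VSN_real]
  have hv : v = ![v 0, v 1] := by
    funext i
    fin_cases i <;> rfl
  conv_lhs => rw [hv]
  exact Iff.rfl

private theorem VSN_q2 : UD (LU (G.ι ⊕ Cl ι') ar) (J := Dat ι') (fun _ => G.N)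
    (fun d => W G d) (Fin 2) fun d v => q2 G (W G d) (v 0) (v 1) := by
  refine ⟨(VSN_hom G ι').onFormula (@Grd.e₂ _ _ G.S G.A G.G), fun d v => ?_⟩
  rw [VSN_real]
  have hv : v = ![v 0, v 1] := by
    funext i
    fin_cases i <;> rfl
  conv_lhs => rw [hv]
  exact Iff.rfl

private theorem VSN_uu (i : G.ι ⊕ Cl ι') {α : Type} (a : α) :
    UD (LU (G.ι ⊕ Cl ι') ar) (J := Dat ι') (fun _ => G.N)
    (fun d => W G d) α fun d v => uu (W G d) i (v a) :=
  UD_rel (B := LU (G.ι ⊕ Cl ι') ar) (J := Dat ι') (X := fun _ => G.N) (S := fun d => W G d)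
    (n := 1) (Sm.un i : Sm (G.ι ⊕ Cl ι') ar 1) (fun _ => a)

private theorem VSN_pr (i : G.ι ⊕ Cl ι') {α : Type} (a b : α) :
    UD (LU (G.ι ⊕ Cl ι') ar) (J := Dat ι') (fun _ => G.N)
    (fun d => W G d) α fun d v => pr G (W G d) i (v a) (v b) := by
  refine UD_ex1 (Q := fun d v z => uu (W G d) i z ∧ q1 G (W G d) z (v a) ∧
    q2 G (W G d) z (v b)) (UD_and (VSN_uu G ι' i _) (UD_and ?_ ?_))
  · exact UD_sub (VSN_q1 G ι') ![Sum.inr (), Sum.inl a]
  · exact UD_sub (VSN_q2 G ι') ![Sum.inr (), Sum.inl b]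

/-- relations on `ℚ`, definable in the codes -/
private def VSN_D (α : Type) (P : Dat ι' → (α → ℚ) → Prop) : Prop :=
  ∃ Q : Dat ι' → (α → G.N) → Prop,
    UD (LU (G.ι ⊕ Cl ι') ar) (J := Dat ι') (fun _ => G.N) (fun d => W G d) α Q ∧
    ∀ d a, Q d (fun i => G.c (a i) (a i)) ↔ P d a

variable {G ι'} {α β : Type}

private theorem VSN_D_not {P : Dat ι' → (α → ℚ) → Prop} (h : VSN_D G ι' α P) :
    VSN_D G ι' α fun d a => ¬ P d a := by
  obtain ⟨Q, hQ, e⟩ := h
  exact ⟨_, UD_not hQ, fun d a => not_congr (e d a)⟩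

private theorem VSN_D_imp {P P' : Dat ι' → (α → ℚ) → Prop} (h : VSN_D G ι' α P)
    (h' : VSN_D G ι' α P') : VSN_D G ι' α fun d a => P d a → P' d a := by
  obtain ⟨Q, hQ, e⟩ := h
  obtain ⟨Q', hQ', e'⟩ := h'
  exact ⟨_, UD_imp hQ hQ', fun d a => imp_congr (e d a) (e' d a)⟩

private theorem VSN_D_and {P P' : Dat ι' → (α → ℚ) → Prop} (h : VSN_D G ι' α P)
    (h' : VSN_D G ι' α P') : VSN_D G ι' α fun d a => P d a ∧ P' d a := by
  obtain ⟨Q, hQ, e⟩ := h
  obtain ⟨Q', hQ', e'⟩ := h'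
  exact ⟨_, UD_and hQ hQ', fun d a => and_congr (e d a) (e' d a)⟩

private theorem VSN_D_fin {I : Type} [Finite I] {P : I → Dat ι' → (α → ℚ) → Prop}
    (h : ∀ i, VSN_D G ι' α (P i)) : VSN_D G ι' α fun d a => ∀ i, P i d a := by
  choose Q hQ e using h
  exact ⟨_, UD_fin hQ, fun d a => forall_congr' fun i => e i d a⟩

private theorem VSN_D_const (p : Prop) : VSN_D G ι' α fun _ _ => p :=
  ⟨_, UD_const p, fun _ _ => Iff.rfl⟩

private theorem VSN_dd (d : Dat ι') (x : G.N) :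
    uu (W G d) (.inl G.dd) x ↔ ∃ a, x = G.c a a := G.hd x

private theorem VSN_D_ex [Finite β] {P : Dat ι' → (α ⊕ β → ℚ) → Prop}
    (h : VSN_D G ι' (α ⊕ β) P) : VSN_D G ι' α fun d a => ∃ w : β → ℚ, P d (Sum.elim a w) := by
  obtain ⟨Q, hQ, e⟩ := h
  refine ⟨fun d v => ∃ w : β → G.N, (∀ i : β, uu (W G d) (.inl G.dd) (Sum.elim v w (.inr i))) ∧
    Q d (Sum.elim v w), UD_ex (Q := fun d v => (∀ i : β, uu (W G d) (.inl G.dd) (v (.inr i))) ∧
    Q d v) (UD_and (UD_fin fun i => VSN_uu G ι' _ _) hQ), fun d a => ?_⟩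
  constructor
  · rintro ⟨w, hw, hq⟩
    have h1 : ∀ i : β, ∃ r : ℚ, w i = G.c r r := fun i => (VSN_dd d (w i)).1 (hw i)
    choose r hr using h1
    refine ⟨r, (e d _).1 ?_⟩
    have h2 : (fun i => G.c (Sum.elim a r i) (Sum.elim a r i)) =
        Sum.elim (fun i => G.c (a i) (a i)) w := by
      funext i
      rcases i with i | i
      · rfl
      · exact (hr i).symm
    rw [h2]
    exact hq
  · rintro ⟨r, hr⟩
    refine ⟨fun i => G.c (r i) (r i), fun i => (VSN_dd d _).2 ⟨r i, rfl⟩, ?_⟩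
    have h2 := (e d _).2 hr
    have h3 : (fun i => G.c (Sum.elim a r i) (Sum.elim a r i)) =
        Sum.elim (fun i => G.c (a i) (a i)) (fun i => G.c (r i) (r i)) := by
      funext i
      rcases i with i | i <;> rfl
    rw [h3] at h2
    exact h2

private theorem VSN_D_congr {P P' : Dat ι' → (α → ℚ) → Prop} (h : VSN_D G ι' α P)
    (e : ∀ d a, P d a ↔ P' d a) : VSN_D G ι' α P' := by
  obtain ⟨Q, hQ, e'⟩ := h
  exact ⟨Q, hQ, fun d a => (e' d a).trans (e d a)⟩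

private theorem VSN_D_all [Finite β] {P : Dat ι' → (α ⊕ β → ℚ) → Prop}
    (h : VSN_D G ι' (α ⊕ β) P) : VSN_D G ι' α fun d a => ∀ w : β → ℚ, P d (Sum.elim a w) :=
  VSN_D_congr (VSN_D_not (VSN_D_ex (VSN_D_not h))) fun d a => by push Not; rfl

private theorem VSN_D_ex1 {P : Dat ι' → (α → ℚ) → ℚ → Prop}
    (h : VSN_D G ι' (α ⊕ Unit) fun d a => P d (fun i => a (Sum.inl i)) (a (Sum.inr ()))) :
    VSN_D G ι' α fun d a => ∃ x, P d a x :=
  VSN_D_congr (VSN_D_ex h) fun d a =>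
    ⟨fun ⟨w, hw⟩ => ⟨w (), hw⟩, fun ⟨x, hx⟩ => ⟨fun _ => x, hx⟩⟩

private theorem VSN_D_all1 {P : Dat ι' → (α → ℚ) → ℚ → Prop}
    (h : VSN_D G ι' (α ⊕ Unit) fun d a => P d (fun i => a (Sum.inl i)) (a (Sum.inr ()))) :
    VSN_D G ι' α fun d a => ∀ x, P d a x :=
  VSN_D_congr (VSN_D_all h) fun d a => ⟨fun hw x => hw fun _ => x, fun hx w => hx (w ())⟩

section atoms

variable (hWCR : St_WCR)
include hWCR

private theorem VSN_cinj {a b : ℚ} : G.c a a = G.c b b ↔ a = b := by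
  obtain ⟨-, h, -⟩ := hWCR κ ar K G Empty ⟨fun _ _ => True, fun _ _ => True, fun _ => True,
    fun _ _ => True⟩
  exact ⟨fun e => (h _ _ _ _ e).1, fun e => by rw [e]⟩

private theorem VSN_D_eq (x y : α) : VSN_D G ι' α fun d a => a x = a y :=
  ⟨_, UD_eq x y, fun d a => VSN_cinj hWCR⟩

private theorem VSN_D_lt (x y : α) : VSN_D G ι' α fun d a => a x < a y :=
  ⟨_, VSN_pr G ι' (.inl G.dl) x y, fun d a => (hWCR κ ar K G ι' d).2.2.2.2.1 _ _⟩

private theorem VSN_D_le (x y : α) : VSN_D G ι' α fun d a => a x ≤ a y :=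
  VSN_D_congr (VSN_D_not (VSN_D_lt hWCR y x)) fun d a => not_lt

private theorem VSN_D_bl (x y : α) : VSN_D G ι' α fun d a => d.bl (a x) (a y) :=
  ⟨_, VSN_pr G ι' (.inr .bl) x y, fun d a => (hWCR κ ar K G ι' d).2.2.2.2.2.1 _ _⟩

private theorem VSN_D_sn (x y : α) : VSN_D G ι' α fun d a => d.sn (a x) (a y) :=
  ⟨_, VSN_pr G ι' (.inr .sn) x y, fun d a => (hWCR κ ar K G ι' d).2.2.2.2.2.2.1 _ _⟩

private theorem VSN_D_rp (x : α) : VSN_D G ι' α fun d a => d.rp (a x) := by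
  refine ⟨_, VSN_uu G ι' (.inr .rp) x, fun d a => ?_⟩
  refine ((hWCR κ ar K G ι' d).2.2.2.2.2.2.2.1 (G.c (a x) (a x))).trans ?_
  constructor
  · rintro ⟨b, hb, e⟩
    rw [VSN_cinj hWCR] at e
    rw [e]
    exact hb
  · exact fun h => ⟨_, h, rfl⟩

private theorem VSN_D_u (i : ι') (x : α) : VSN_D G ι' α fun d a => d.u i (a x) :=
  ⟨_, VSN_uu G ι' (.inr (.u i)) x, fun d a => (hWCR κ ar K G ι' d).2.2.2.2.2.2.2.2 i _⟩

end atoms

end

theorem thm_VSN (hWCR : St_WCR) : St_VSN := by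
  intro κ ar K G ι'
  refine ⟨{σ | ∀ d : Dat ι', d.Val → @Sentence.Realize _ G.N (W G d) σ}, fun d => ?_⟩
  refine ⟨fun hm => ?_, fun hv => ?_⟩
  swap
  · let _ := W G d
    exact ⟨fun σ hσ => hσ d hv⟩
  have get : ∀ C : Dat ι' → Prop, VSN_D G ι' Empty (fun d _ => C d) → (∀ d, d.Val → C d) →
      C d := by
    rintro C ⟨Q, ⟨φ, hφ⟩, e⟩ hC
    have key : ∀ d' : Dat ι', @Sentence.Realize _ G.N (W G d') φ ↔ C d' := by
      intro d'
      refine Iff.trans (hφ d' default) ?_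
      have h := e d' default
      have h2 : (fun i : Empty => G.c ((default : Empty → ℚ) i) ((default : Empty → ℚ) i)) =
          (default : Empty → G.N) := by
        funext i
        exact i.elim
      rw [h2] at h
      exact h
    refine (key d).1 ?_
    let _ := W G d
    exact hm.realize_of_mem φ fun d' hd' => (key d').2 (hC d' hd')
  refine ⟨?_, ?_, ?_, ?_, ?_, ?_, ?_, ?_, ?_, ?_, ?_⟩
  · exact get (fun d => ∀ a, d.bl a a) (VSN_D_all1 (VSN_D_bl hWCR _ _)) fun d h => h.ref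
  · exact get (fun d => ∀ a b, d.bl a b → d.bl b a)
      (VSN_D_all1 (P := fun d _ a => ∀ b, d.bl a b → d.bl b a)
        (VSN_D_all1 (P := fun d v b => d.bl (v (Sum.inr ())) b → d.bl b (v (Sum.inr ())))
          (VSN_D_imp (VSN_D_bl hWCR _ _) (VSN_D_bl hWCR _ _)))) fun d h => h.sym
  · exact get (fun d => ∀ a b c, d.bl a b → d.bl b c → d.bl a c)
      (VSN_D_all1 (P := fun d _ a => ∀ b c, d.bl a b → d.bl b c → d.bl a c)
        (VSN_D_all1 (P := fun d v b => ∀ c, d.bl (v (Sum.inr ())) b → d.bl b c →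
            d.bl (v (Sum.inr ())) c)
          (VSN_D_all1 (P := fun d v c => d.bl (v (Sum.inl (Sum.inr ()))) (v (Sum.inr ())) →
              d.bl (v (Sum.inr ())) c → d.bl (v (Sum.inl (Sum.inr ()))) c)
            (VSN_D_imp (VSN_D_bl hWCR _ _) (VSN_D_imp (VSN_D_bl hWCR _ _)
              (VSN_D_bl hWCR _ _)))))) fun d h => h.tra
  · exact get (fun d => ∀ a b c, a ≤ b → b ≤ c → d.bl a c → d.bl a b)
      (VSN_D_all1 (P := fun d _ a => ∀ b c, a ≤ b → b ≤ c → d.bl a c → d.bl a b)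
        (VSN_D_all1 (P := fun d v b => ∀ c, (v (Sum.inr ())) ≤ b → b ≤ c →
            d.bl (v (Sum.inr ())) c → d.bl (v (Sum.inr ())) b)
          (VSN_D_all1 (P := fun d v c => (v (Sum.inl (Sum.inr ()))) ≤ (v (Sum.inr ())) →
              (v (Sum.inr ())) ≤ c → d.bl (v (Sum.inl (Sum.inr ()))) c →
              d.bl (v (Sum.inl (Sum.inr ()))) (v (Sum.inr ())))
            (VSN_D_imp (VSN_D_le hWCR _ _) (VSN_D_imp (VSN_D_le hWCR _ _)
              (VSN_D_imp (VSN_D_bl hWCR _ _) (VSN_D_bl hWCR _ _))))))) fun d h => h.con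
  · exact get (fun d => ∀ a, ∃ b, a < b ∧ d.bl a b)
      (VSN_D_all1 (P := fun d _ a => ∃ b, a < b ∧ d.bl a b)
        (VSN_D_ex1 (P := fun d v b => (v (Sum.inr ())) < b ∧ d.bl (v (Sum.inr ())) b)
          (VSN_D_and (VSN_D_lt hWCR _ _) (VSN_D_bl hWCR _ _)))) fun d h => h.up
  · exact get (fun d => ∀ a, ∃ b, b < a ∧ d.bl a b)
      (VSN_D_all1 (P := fun d _ a => ∃ b, b < a ∧ d.bl a b)
        (VSN_D_ex1 (P := fun d v b => b < (v (Sum.inr ())) ∧ d.bl (v (Sum.inr ())) b)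
          (VSN_D_and (VSN_D_lt hWCR _ _) (VSN_D_bl hWCR _ _)))) fun d h => h.dn
  · exact get (fun d => ∀ a, ∃ b, d.rp b ∧ d.bl a b)
      (VSN_D_all1 (P := fun d _ a => ∃ b, d.rp b ∧ d.bl a b)
        (VSN_D_ex1 (P := fun d v b => d.rp b ∧ d.bl (v (Sum.inr ())) b)
          (VSN_D_and (VSN_D_rp hWCR _) (VSN_D_bl hWCR _ _)))) fun d h => h.rex
  · exact get (fun d => ∀ a b, d.rp a → d.rp b → d.bl a b → a = b)
      (VSN_D_all1 (P := fun d _ a => ∀ b, d.rp a → d.rp b → d.bl a b → a = b)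
        (VSN_D_all1 (P := fun d v b => d.rp (v (Sum.inr ())) → d.rp b →
            d.bl (v (Sum.inr ())) b → (v (Sum.inr ())) = b)
          (VSN_D_imp (VSN_D_rp hWCR _) (VSN_D_imp (VSN_D_rp hWCR _)
            (VSN_D_imp (VSN_D_bl hWCR _ _) (VSN_D_eq hWCR _ _)))))) fun d h => h.run
  · exact get (fun d => ∀ a b, d.sn a b → d.rp a ∧ d.rp b)
      (VSN_D_all1 (P := fun d _ a => ∀ b, d.sn a b → d.rp a ∧ d.rp b)
        (VSN_D_all1 (P := fun d v b => d.sn (v (Sum.inr ())) b → d.rp (v (Sum.inr ())) ∧ d.rp b)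
          (VSN_D_imp (VSN_D_sn hWCR _ _) (VSN_D_and (VSN_D_rp hWCR _) (VSN_D_rp hWCR _)))))
      fun d h => h.sr
  · intro i
    exact get (fun d => ∀ a, d.u i a → d.rp a)
      (VSN_D_all1 (P := fun d _ a => d.u i a → d.rp a)
        (VSN_D_imp (VSN_D_u hWCR i _) (VSN_D_rp hWCR _))) fun d h => h.ur i
  · have hn : ∀ n : ℕ, ∃ w : Fin n → ℚ, (∀ i, d.rp (w i)) ∧ ∀ i j, i ≠ j → w i ≠ w j := by
      intro n
      refine get (fun d => ∃ w : Fin n → ℚ, (∀ i, d.rp (w i)) ∧ ∀ i j, i ≠ j → w i ≠ w j)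
        (VSN_D_ex (P := fun d v => (∀ i : Fin n, d.rp (v (Sum.inr i))) ∧
          ∀ i j : Fin n, i ≠ j → v (Sum.inr i) ≠ v (Sum.inr j))
          (VSN_D_and (VSN_D_fin fun i => VSN_D_rp hWCR _) (VSN_D_fin fun i => VSN_D_fin fun j =>
            VSN_D_imp (VSN_D_const _) (VSN_D_not (VSN_D_eq hWCR _ _))))) fun d h => ?_
      have e := h.inf.natEmbedding
      refine ⟨fun i => (e i : ℚ), fun i => (e i).2, fun i j hij he => hij ?_⟩
      exact Fin.ext (e.injective (Subtype.ext he))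
    intro hf
    obtain ⟨w, h1, h2⟩ := hn (hf.toFinset.card + 1)
    have h3 : (Finset.univ.image w).card = hf.toFinset.card + 1 := by
      rw [Finset.card_image_of_injective, Finset.card_univ, Fintype.card_fin]
      intro i j hij
      by_contra hne
      exact h2 i j hne hij
    have h4 : (Finset.univ.image w).card ≤ hf.toFinset.card := by
      refine Finset.card_le_card fun x hx => ?_
      obtain ⟨i, -, rfl⟩ := Finset.mem_image.1 hx
      exact hf.mem_toFinset.2 (h1 i)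
    omega

end Pool.Agent.UNS
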