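import Pool.Agent.UNS.StB

/-!
UNS, module WDM: measurable decoding (helper23, after AAD/WDM)
-/

set_option autoImplicit false
set_option linter.unusedVariables false
set_option linter.unusedSectionVars false

namespace Pool.Agent.UNS

open FirstOrder.Language Set
open scoped FirstOrder
open Pool.Agent.PMC (Sy LP us Two)
open Pool.Agent.Helper6.Str (PerfK CtblK Iso Code toStr)
open VPF (ModF)

section meas

open Classical in
private theorem WDM_count {X : Type} [MeasurableSpace X] {A : X → Set ℕ}
    (hA : ∀ p, Measurable fun x => p ∈ A x) (m : ℕ) :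
    ∀ n, Measurable fun x => Nat.count (· ∈ A x) m = n := by
  induction m with
  | zero =>
    intro n
    simp only [Nat.count_zero]
    exact measurable_const
  | succ m ih =>
    intro n
    have h1 : (fun x => Nat.count (· ∈ A x) (m + 1) = n) = fun x =>
        ((m ∈ A x ∧ Nat.count (· ∈ A x) m + 1 = n) ∨
          (¬ m ∈ A x ∧ Nat.count (· ∈ A x) m = n)) := by
      funext x
      simp only [Nat.count_succ]
      by_cases h : m ∈ A x <;> simp [h]
    rw [h1]
    refine ((hA m).and ?_).or ((hA m).not.and (ih n))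
    cases n with
    | zero =>
      simp only [Nat.add_eq_zero_iff, one_ne_zero, and_false]
      exact measurable_const
    | succ n => simpa only [Nat.add_right_cancel_iff] using ih n

open Classical in
private theorem WDM_nth {X : Type} [MeasurableSpace X] {A : X → Set ℕ}
    (hA : ∀ p, Measurable fun x => p ∈ A x) (hinf : ∀ x, (A x).Infinite) (n m : ℕ) :
    Measurable fun x => Nat.nth (· ∈ A x) n = m := by
  have h1 : (fun x => Nat.nth (· ∈ A x) n = m) = fun x =>
      (m ∈ A x ∧ Nat.count (· ∈ A x) m = n) := by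
    funext x
    have hi : (Set.ofPred (· ∈ A x)).Infinite := hinf x
    apply propext
    constructor
    · rintro rfl
      exact ⟨Nat.nth_mem_of_infinite hi n, Nat.count_nth_of_infinite hi n⟩
    · rintro ⟨h1, rfl⟩
      exact Nat.nth_count h1
  rw [h1]
  exact (hA m).and (WDM_count hA m n)

/-- formulas are measurable -/
private theorem WDM_fm {B : FirstOrder.Language.{0, 0}} (hB : ∀ n, IsEmpty (B.Functions n))
    {X : Type} [MeasurableSpace X] (F : X → B.Structure ℕ)
    (hF : ∀ (n : ℕ) (R : B.Relations n) (a : Fin n → ℕ), Measurable fun x => (F x).RelMap R a)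
    {α : Type} {n : ℕ} (φ : B.BoundedFormula α n) (v : α → ℕ) :
    ∀ xs : Fin n → ℕ, Measurable fun x => @BoundedFormula.Realize B ℕ (F x) α n φ v xs := by
  have ht : ∀ (β : Type) (t : B.Term β) (u : β → ℕ), ∃ a : ℕ, ∀ x, @Term.realize B ℕ (F x) β u t = a := by
    intro β t u
    cases t with
    | var i => exact ⟨u i, fun x => rfl⟩
    | func f _ => exact ((hB _).false f).elim
  induction φ with
  | falsum => exact fun xs => measurable_const
  | equal t₁ t₂ =>
    intro xs
    obtain ⟨a, ha⟩ := ht _ t₁ (Sum.elim v xs)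
    obtain ⟨b, hb⟩ := ht _ t₂ (Sum.elim v xs)
    have h1 : (fun x => @BoundedFormula.Realize B ℕ (F x) α _ (BoundedFormula.equal t₁ t₂) v xs) =
        fun _ => (a = b) := by
      funext x
      show (@Term.realize B ℕ (F x) _ (Sum.elim v xs) t₁ =
        @Term.realize B ℕ (F x) _ (Sum.elim v xs) t₂) = _
      rw [ha x, hb x]
    rw [h1]
    exact measurable_const
  | rel R ts =>
    intro xs
    choose a ha using fun i => ht _ (ts i) (Sum.elim v xs)
    have h1 : (fun x => @BoundedFormula.Realize B ℕ (F x) α _ (BoundedFormula.rel R ts) v xs) =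
        fun x => (F x).RelMap R a := by
      funext x
      show (F x).RelMap R (fun i => @Term.realize B ℕ (F x) _ (Sum.elim v xs) (ts i)) = _
      congr 1
      funext i
      exact ha i x
    rw [h1]
    exact hF _ R a
  | imp φ ψ h1 h2 => exact fun xs => (h1 xs).imp (h2 xs)
  | all φ h1 => exact fun xs => Measurable.forall fun w => h1 (Fin.snoc xs w)

end meas

section

variable {κ : Type} {ar : κ → ℕ} {K : Cla ar} (G : FG K) {ι' M : Type}

/-- the relations of `dec G S` on the points of `S` -/
private def WDM_hol (S : (LU (G.ι ⊕ Cl ι') ar).Structure M) : ∀ {n : ℕ},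
    (LP ι').Relations n → (Fin n → M) → Prop
  | _, .un i, v => uu S (.inr (.u i)) (v 0)
  | _, .lt true, v => pr G S (.inl G.dl) (v 0) (v 1)
  | _, .lt false, v => pr G S (.inr .sn) (v 0) (v 1)

variable {F : (ℕ → Bool) → (LU (G.ι ⊕ Cl ι') ar).Structure ℕ}

private theorem WDM_rd (hc : ∀ (n : ℕ) (R : (LU (G.ι ⊕ Cl ι') ar).Relations n) (a : Fin n → ℕ),
    IsClopen {x | (F x).RelMap R a}) (n : ℕ) (R : (LU G.ι ar).Relations n)
    (a : Fin n → ℕ) : Measurable fun x => (rd G (F x)).RelMap R a := by
  cases R with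
  | un l => exact measurableSet_setOfPred.1 (hc 1 (Sm.un (.inl l)) (fun _ => a 0)).isOpen.measurableSet
  | rl s => exact measurableSet_setOfPred.1 (hc _ (Sm.rl s) a).isOpen.measurableSet

private theorem WDM_pr (hc : ∀ (n : ℕ) (R : (LU (G.ι ⊕ Cl ι') ar).Relations n) (a : Fin n → ℕ),
    IsClopen {x | (F x).RelMap R a}) (i : G.ι ⊕ Cl ι') (a b : ℕ) :
    Measurable fun x => pr G (F x) i a b := by
  refine Measurable.exists fun z => Measurable.and ?_ (Measurable.and ?_ ?_)
  · exact measurableSet_setOfPred.1 (hc 1 (Sm.un i) (fun _ => z)).isOpen.measurableSet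
  · exact WDM_fm (fun _ => inferInstanceAs (IsEmpty Empty)) _ (WDM_rd G hc) _ _ _
  · exact WDM_fm (fun _ => inferInstanceAs (IsEmpty Empty)) _ (WDM_rd G hc) _ _ _

private theorem WDM_holm (hc : ∀ (n : ℕ) (R : (LU (G.ι ⊕ Cl ι') ar).Relations n)
    (a : Fin n → ℕ), IsClopen {x | (F x).RelMap R a}) : ∀ {n : ℕ} (R : (LP ι').Relations n)
    (w : Fin n → ℕ), Measurable fun x => WDM_hol G (F x) R w
  | _, .un i, w => measurableSet_setOfPred.1
      (hc 1 (Sm.un (.inr (.u i))) (fun _ => w 0)).isOpen.measurableSet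
  | _, .lt true, w => WDM_pr G hc _ _ _
  | _, .lt false, w => WDM_pr G hc _ _ _

end

theorem thm_WDM : St_WDM := by
  classical
  intro κ ar K G ι' F hF hc
  let A : (ℕ → Bool) → Set ℕ := fun x => {a | rpS G (F x) a}
  have hA : ∀ p, Measurable fun x => p ∈ A x := fun p =>
    measurableSet_setOfPred.1 (hc 1 (Sm.un (.inr .rp)) (fun _ => p)).isOpen.measurableSet
  have hAinf : ∀ x, (A x).Infinite := hF
  let d : (ℕ → Bool) → ℕ → ℕ := fun x => Nat.nth (· ∈ A x)
  have hd : ∀ x n, d x n ∈ A x := fun x n => Nat.nth_mem_of_infinite (hAinf x) n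
  let f : ∀ x, ℕ → {z : ℕ // rpS G (F x) z} := fun x n => ⟨d x n, hd x n⟩
  have hfinj : ∀ x, Function.Injective (f x) := by
    intro x n m hnm
    have h1 := congrArg Subtype.val hnm
    exact Nat.nth_injective (hAinf x) h1
  have hfsurj : ∀ x, Function.Surjective (f x) := by
    rintro x ⟨a, ha⟩
    refine ⟨Nat.count (· ∈ A x) a, ?_⟩
    have h1 : d x (Nat.count (· ∈ A x) a) = a := Nat.nth_count (p := (· ∈ A x)) ha
    exact Subtype.ext h1
  let e : ∀ x, ℕ ≃ {z : ℕ // rpS G (F x) z} :=
    fun x => Equiv.ofBijective (f x) ⟨hfinj x, hfsurj x⟩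
  refine ⟨fun x p => decide (WDM_hol G (F x) p.2.1 fun i => d x (p.2.2 i)), ?_, ?_⟩
  · rw [measurable_pi_iff]
    rintro ⟨n, R, v⟩
    refine measurable_to_bool ?_
    have h1 : (fun x => decide (WDM_hol G (F x) R fun i => d x (v i))) ⁻¹' {true} =
        {x | ∃ w : Fin n → ℕ, (∀ i, d x (v i) = w i) ∧ WDM_hol G (F x) R w} := by
      ext x
      simp only [mem_preimage, mem_singleton_iff, decide_eq_true_eq, mem_ofPred_eq]
      constructor
      · intro h
        exact ⟨_, fun i => rfl, h⟩
      · rintro ⟨w, hw, h⟩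
        rwa [funext hw]
    show MeasurableSet ((fun x => decide (WDM_hol G (F x) R fun i => d x (v i))) ⁻¹' {true})
    rw [h1]
    refine measurableSet_setOfPred.2 (Measurable.exists fun w => Measurable.and ?_ (WDM_holm G hc R w))
    exact Measurable.forall fun i => WDM_nth hA hAinf _ _
  · intro x
    refine ⟨(e x).symm, fun n R v => ?_⟩
    show (dec G (F x)).RelMap R v ↔
      decide (WDM_hol G (F x) R fun i => d x ((⇑(e x).symm ∘ v) i)) = true
    rw [decide_eq_true_eq]
    have hv : ∀ i, d x ((e x).symm (v i)) = (v i).1 := fun i =>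
      congrArg Subtype.val ((e x).apply_symm_apply (v i))
    have hv' : (fun i => d x ((⇑(e x).symm ∘ v) i)) = fun i => (v i).1 := funext hv
    rw [hv']
    cases R with
    | un i => exact Iff.rfl
    | lt b =>
      cases b
      · exact Iff.rfl
      · exact Iff.rfl

end Pool.Agent.UNS
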