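import Pool.Agent.UNS.StB

/-!
UNS: [WEX] every structure with two orders is decoded from valid data (helper84).
-/

set_option autoImplicit false
set_option linter.unusedVariables false

namespace Pool.Agent.UNS

open FirstOrder.Language Set
open scoped FirstOrder
open Pool.Agent.AAD (Gam Fx ls St su Ctx Pcs Sha)
open Pool.Agent.PMC (Sy LP us Two)
open Pool.Agent.Helper6.Str (PerfK CtblK Iso Code toStr)
open VPF (ModF)

/-- a copy of `ℕ` without order -/
private structure WEX_N (r : ℕ → ℕ → Prop) where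
  val : ℕ

private theorem WEX_lex {A : Type} [LinearOrder A] :
    DenselyOrdered (A ×ₗ ℚ) := by
  refine ⟨?_⟩
  rintro x y hxy
  rw [Prod.Lex.lt_iff] at hxy
  rcases hxy with h | ⟨h1, h2⟩
  · refine ⟨toLex ((ofLex x).1, (ofLex x).2 + 1), ?_, ?_⟩
    · rw [Prod.Lex.lt_iff]
      exact Or.inr ⟨rfl, lt_add_one _⟩
    · rw [Prod.Lex.lt_iff]
      exact Or.inl h
  · obtain ⟨q, hq1, hq2⟩ := exists_between h2
    refine ⟨toLex ((ofLex x).1, q), ?_, ?_⟩
    · rw [Prod.Lex.lt_iff]
      exact Or.inr ⟨rfl, hq1⟩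
    · rw [Prod.Lex.lt_iff]
      exact Or.inr ⟨h1, hq2⟩

/-- `ℚ` as a lexicographic product -/
private theorem WEX_ord (r : ℕ → ℕ → Prop) (hi : ∀ x, ¬ r x x)
    (ht : ∀ x y z, r x y → r y z → r x z) (hc : ∀ x y, x ≠ y → r x y ∨ r y x) :
    ∃ (f : ℚ → ℕ) (z : ℕ → ℚ), (∀ n, f (z n) = n) ∧ (∀ m n, z m < z n ↔ r m n) ∧
      (∀ a b, r (f a) (f b) → a < b) ∧ (∀ a, ∃ b, a < b ∧ f b = f a) ∧
      ∀ a, ∃ b, b < a ∧ f b = f a := by
  classical
  let LO : LinearOrder (WEX_N r) :=
    { le := fun x y => x = y ∨ r x.val y.val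
      lt := fun x y => r x.val y.val
      le_refl := fun x => Or.inl rfl
      le_trans := by
        rintro x y z (rfl | h1) (rfl | h2)
        · exact Or.inl rfl
        · exact Or.inr h2
        · exact Or.inr h1
        · exact Or.inr (ht _ _ _ h1 h2)
      le_antisymm := by
        rintro x y (rfl | h1) (h2 | h2)
        · rfl
        · rfl
        · exact h2.symm
        · exact absurd (ht _ _ _ h1 h2) (hi _)
      lt_iff_le_not_ge := by
        intro x y
        constructor
        · intro h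
          refine ⟨Or.inr h, ?_⟩
          rintro (rfl | h2)
          · exact hi _ h
          · exact hi _ (ht _ _ _ h h2)
        · rintro ⟨rfl | h1, h2⟩
          · exact absurd (Or.inl rfl) h2
          · exact h1
      le_total := by
        intro x y
        by_cases h : x = y
        · exact Or.inl (Or.inl h)
        · have h' : x.val ≠ y.val := by
            intro he
            apply h
            cases x
            cases y
            exact congrArg _ he
          rcases hc _ _ h' with h1 | h1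
          · exact Or.inl (Or.inr h1)
          · exact Or.inr (Or.inr h1)
      toDecidableLE := Classical.decRel _ }
  have hcnt : Countable (WEX_N r) := by
    have : Function.Injective (WEX_N.val (r := r)) := by
      rintro ⟨x⟩ ⟨y⟩ h
      exact congrArg _ h
    exact this.countable
  have hne : Nonempty (WEX_N r) := ⟨⟨0⟩⟩
  have hcL : Countable ((WEX_N r) ×ₗ ℚ) := inferInstanceAs (Countable (WEX_N r × ℚ))
  have hneL : Nonempty ((WEX_N r) ×ₗ ℚ) := ⟨toLex (⟨0⟩, 0)⟩
  have hd : DenselyOrdered ((WEX_N r) ×ₗ ℚ) := WEX_lex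
  have hmax : NoMaxOrder ((WEX_N r) ×ₗ ℚ) := ⟨fun x => ⟨toLex ((ofLex x).1, (ofLex x).2 + 1), by
    rw [Prod.Lex.lt_iff]
    exact Or.inr ⟨rfl, lt_add_one _⟩⟩⟩
  have hmin : NoMinOrder ((WEX_N r) ×ₗ ℚ) := ⟨fun x => ⟨toLex ((ofLex x).1, (ofLex x).2 - 1), by
    rw [Prod.Lex.lt_iff]
    exact Or.inr ⟨rfl, sub_one_lt _⟩⟩⟩
  obtain ⟨e⟩ := Order.iso_of_countable_dense ((WEX_N r) ×ₗ ℚ) ℚ
  refine ⟨fun a => (ofLex (e.symm a)).1.val, fun n => e (toLex (⟨n⟩, 0)), ?_, ?_, ?_, ?_, ?_⟩
  · intro n
    show (ofLex (e.symm (e (toLex ((⟨n⟩ : WEX_N r), (0 : ℚ)))))).1.val = n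
    rw [e.symm_apply_apply]
    rfl
  · intro m n
    rw [e.lt_iff_lt, Prod.Lex.lt_iff]
    constructor
    · rintro (h | ⟨-, h⟩)
      · exact h
      · exact absurd h (lt_irrefl _)
    · exact fun h => Or.inl h
  · intro a b h
    have h1 : e.symm a < e.symm b := by
      rw [Prod.Lex.lt_iff]
      exact Or.inl h
    exact e.symm.lt_iff_lt.1 h1
  · intro a
    refine ⟨e (toLex ((ofLex (e.symm a)).1, (ofLex (e.symm a)).2 + 1)), ?_, ?_⟩
    · rw [← e.symm.lt_iff_lt, e.symm_apply_apply, Prod.Lex.lt_iff]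
      exact Or.inr ⟨rfl, lt_add_one _⟩
    · show (ofLex (e.symm (e _))).1.val = _
      rw [e.symm_apply_apply]
      rfl
  · intro a
    refine ⟨e (toLex ((ofLex (e.symm a)).1, (ofLex (e.symm a)).2 - 1)), ?_, ?_⟩
    · rw [← e.symm.lt_iff_lt, e.symm_apply_apply, Prod.Lex.lt_iff]
      exact Or.inr ⟨rfl, sub_one_lt _⟩
    · show (ofLex (e.symm (e _))).1.val = _
      rw [e.symm_apply_apply]
      rfl

theorem thm_WEX (hWCR : St_WCR) : St_WEX := by
  intro κ ar K G ι' S hT
  obtain ⟨f, z, hfz, hz, hlt, hup, hdn⟩ := WEX_ord (fun x y => PMC.ls S true x y) (hT true).1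
    (hT true).2.1 (hT true).2.2
  set d : Dat ι' :=
    { bl := fun a b => f a = f b
      sn := fun a b => z (f a) = a ∧ z (f b) = b ∧ PMC.ls S false (f a) (f b)
      rp := fun a => z (f a) = a
      u := fun i a => z (f a) = a ∧ us S i (f a) } with hd
  have hrp : ∀ n, d.rp (z n) := fun n => congrArg z (hfz n)
  have hzinj : Function.Injective z := fun m n h => by
    rw [← hfz m, ← hfz n, h]
  have hval : d.Val := by
    constructor
    · exact fun a => rfl
    · exact fun a b h => h.symm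
    · exact fun a b c h h' => h.trans h'
    · intro a b c hab hbc (hac : f a = f c)
      show f a = f b
      by_contra hne
      rcases (hT true).2.2 _ _ hne with h | h
      · rw [hac] at h
        exact absurd (hlt _ _ h) (not_lt.2 hbc)
      · exact absurd (hlt _ _ h) (not_lt.2 hab)
    · intro a
      obtain ⟨b, h1, h2⟩ := hup a
      exact ⟨b, h1, h2.symm⟩
    · intro a
      obtain ⟨b, h1, h2⟩ := hdn a
      exact ⟨b, h1, h2.symm⟩
    · intro a
      exact ⟨z (f a), hrp _, (hfz _).symm⟩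
    · intro a b (ha : z (f a) = a) (hb : z (f b) = b) (h : f a = f b)
      rw [← ha, ← hb, h]
    · exact fun a b h => ⟨h.1, h.2.1⟩
    · exact fun i a h => h.1
    · exact Set.infinite_of_injective_forall_mem hzinj hrp
  refine ⟨d, hval, ?_⟩
  obtain ⟨-, hinj, -, -, hL, -, hN, hR, hU⟩ := hWCR κ ar K G ι' d
  set e0 : ℕ → {x : G.N // rpS G (W G d) x} := fun n =>
    ⟨G.c (z n) (z n), (hR _).2 ⟨z n, hrp n, rfl⟩⟩ with he0
  have hbij : Function.Bijective e0 := by
    constructor
    · intro m n h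
      have h1 := congrArg Subtype.val h
      exact hzinj (hinj _ _ _ _ h1).1
    · rintro ⟨x, hx⟩
      obtain ⟨a, ha, rfl⟩ := (hR x).1 hx
      refine ⟨f a, Subtype.ext ?_⟩
      have ha' : z (f a) = a := ha
      show G.c (z (f a)) (z (f a)) = G.c a a
      rw [ha']
  have hiso : Iso S (dec G (W G d)) := by
    refine ⟨Equiv.ofBijective e0 hbij, ?_⟩
    intro n R v
    match n, R with
    | _, .un i =>
      have hv : v = ![v 0] := by
        funext k
        fin_cases k
        rfl
      have h1 : us S i (v 0) ↔ d.u i (z (v 0)) := by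
        show us S i (v 0) ↔ (z (f (z (v 0))) = z (v 0) ∧ us S i (f (z (v 0))))
        rw [hfz]
        exact ⟨fun h => ⟨rfl, h⟩, fun h => h.2⟩
      have h2 : uu (W G d) (.inr (.u i)) (G.c (z (v 0)) (z (v 0))) ↔ d.u i (z (v 0)) := hU i _
      have h3 : S.RelMap (n := 1) (Sy.un i : Sy ι' 1) v ↔ us S i (v 0) := by
        show _ ↔ S.RelMap (n := 1) (Sy.un i : Sy ι' 1) ![v 0]
        rw [← hv]
      exact h3.trans (h1.trans h2.symm)
    | _, .lt true =>
      have hv : v = ![v 0, v 1] := by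
        funext k
        fin_cases k <;> rfl
      have h1 : PMC.ls S true (v 0) (v 1) ↔ z (v 0) < z (v 1) := (hz _ _).symm
      have h2 := hL (z (v 0)) (z (v 1))
      have h3 : S.RelMap (n := 2) (Sy.lt true : Sy ι' 2) v ↔ PMC.ls S true (v 0) (v 1) := by
        show _ ↔ S.RelMap (n := 2) (Sy.lt true : Sy ι' 2) ![v 0, v 1]
        rw [← hv]
      exact h3.trans (h1.trans h2.symm)
    | _, .lt false =>
      have hv : v = ![v 0, v 1] := by
        funext k
        fin_cases k <;> rfl
      have h1 : PMC.ls S false (v 0) (v 1) ↔ d.sn (z (v 0)) (z (v 1)) := by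
        show _ ↔ (z (f (z (v 0))) = z (v 0) ∧ z (f (z (v 1))) = z (v 1) ∧
          PMC.ls S false (f (z (v 0))) (f (z (v 1))))
        rw [hfz, hfz]
        exact ⟨fun h => ⟨rfl, rfl, h⟩, fun h => h.2.2⟩
      have h2 := hN (z (v 0)) (z (v 1))
      have h3 : S.RelMap (n := 2) (Sy.lt false : Sy ι' 2) v ↔ PMC.ls S false (v 0) (v 1) := by
        show _ ↔ S.RelMap (n := 2) (Sy.lt false : Sy ι' 2) ![v 0, v 1]
        rw [← hv]
      exact h3.trans (h1.trans h2.symm)
  exact hiso.symm

end Pool.Agent.UNS
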