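import Pool.Agent.UNS.StB

/-!
UNS, module WFU (helper21): functoriality of decoding (copy of `Pool/Agent/AAD/KFU.lean`).
-/

set_option autoImplicit false
set_option linter.unusedVariables false

namespace Pool.Agent.UNS

open FirstOrder.Language Set
open scoped FirstOrder
open Pool.Agent.Helper6.Str (Iso RelIso)

section

variable {κ : Type} {ar : κ → ℕ} {K : Cla ar} (G : FG K) {ι' M M' : Type}
  {S : (LU (G.ι ⊕ Cl ι') ar).Structure M} {S' : (LU (G.ι ⊕ Cl ι') ar).Structure M'}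
  {e : M ≃ M'}

private theorem WFU_uu (h : RelIso S S' e) (i : G.ι ⊕ Cl ι') (x : M) :
    uu S i x ↔ uu S' i (e x) :=
  h 1 (Sm.un i : Sm (G.ι ⊕ Cl ι') ar 1) (fun _ => x)

private theorem WFU_rd (h : RelIso S S' e) {α : Type} (φ : (LU G.ι ar).Formula α)
    (v : α → M) :
    @Formula.Realize _ _ (rd G S) _ φ v ↔ @Formula.Realize _ _ (rd G S') _ φ (e ∘ v) := by
  let f : @FirstOrder.Language.Equiv (LU G.ι ar) M M' (rd G S) (rd G S') :=
    @FirstOrder.Language.Equiv.mk (LU G.ι ar) M M' (rd G S) (rd G S') e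
      (fun f _ => Empty.elim f)
      (fun {n} R v => by
        cases R with
        | un l => exact (WFU_uu G h (.inl l) (v 0)).symm
        | rl s => exact (h _ (Sm.rl s : Sm (G.ι ⊕ Cl ι') ar (ar s)) v).symm)
  let _ := rd G S
  let _ := rd G S'
  exact (StrongHomClass.realize_formula f φ (v := v)).symm

private theorem WFU_two (e : M ≃ M') (x y : M) : (e ∘ ![x, y] : Fin 2 → M') = ![e x, e y] := by
  funext k
  match k with
  | 0 => rfl
  | 1 => rfl

private theorem WFU_q1 (h : RelIso S S' e) (x y : M) : q1 G S x y ↔ q1 G S' (e x) (e y) := by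
  have h1 := WFU_rd G h (@Grd.e₁ _ _ G.S G.A G.G) ![x, y]
  rw [WFU_two] at h1
  exact h1

private theorem WFU_q2 (h : RelIso S S' e) (x y : M) : q2 G S x y ↔ q2 G S' (e x) (e y) := by
  have h1 := WFU_rd G h (@Grd.e₂ _ _ G.S G.A G.G) ![x, y]
  rw [WFU_two] at h1
  exact h1

private theorem WFU_pr (h : RelIso S S' e) (i : G.ι ⊕ Cl ι') (x y : M) :
    pr G S i x y ↔ pr G S' i (e x) (e y) := by
  constructor
  · rintro ⟨z, h1, h2, h3⟩
    exact ⟨e z, (WFU_uu G h i z).1 h1, (WFU_q1 G h z x).1 h2, (WFU_q2 G h z y).1 h3⟩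
  · rintro ⟨z, h1, h2, h3⟩
    obtain ⟨z, rfl⟩ := e.surjective z
    exact ⟨z, (WFU_uu G h i z).2 h1, (WFU_q1 G h z x).2 h2, (WFU_q2 G h z y).2 h3⟩

end

/-- functoriality of decoding -/
theorem thm_WFU : St_WFU := by
  intro κ ar K G ι' M M' S S'
  rintro ⟨e, he⟩
  refine ⟨e.subtypeEquiv fun z => WFU_uu G he _ z, fun n R v => ?_⟩
  cases R with
  | un i => exact WFU_uu G he (.inr (.u i)) (v 0).1
  | lt b =>
    cases b with
    | false => exact WFU_pr G he _ (v 0).1 (v 1).1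
    | true => exact WFU_pr G he _ (v 0).1 (v 1).1

end Pool.Agent.UNS
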