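import Pool.Agent.UNS.StA

/-!
UNS, module WIT: assembly of part I, from `St_SHT`, `St_ARR3`, `St_ITU3`, `St_RED`.
-/

set_option autoImplicit false

namespace Pool.Agent.UNS

open FirstOrder.Language Set
open scoped FirstOrder
open Pool.Agent.AAD (Gam Fx ls St su Ctx Pcs Sha)

lemma WIT_trans {L : FirstOrder.Language.{0, 0}} {C M' M : Type} [L.Structure C]
    [L.Structure M'] [L.Structure M] (h1 : Pcs L C M') (h2 : Pcs L M' M) : Pcs L C M := by
  intro n c F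
  obtain ⟨e, he, hR⟩ := h1 n c F
  obtain ⟨e', he', hR'⟩ := h2 n e F
  exact ⟨e', fun i j => (he' i j).trans (he i j),
    fun R hR0 w => (hR' R hR0 w).trans (hR R hR0 w)⟩

/-- [WIT] the assembly of part I. -/
theorem thm_WIT (hSHT : St_SHT) (hARR3 : St_ARR3) (hITU3 : St_ITU3) (hRED : St_RED) :
    St_WIT := by
  intro L hL M _ _ m N φ hφ
  have h0 : ∀ k, ShT M φ 0 k := fun k => by
    obtain ⟨x, y, h⟩ := hφ k
    exact ⟨x, y, h, fun s s' j hj => absurd hj (Nat.not_lt_zero _)⟩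
  obtain ⟨t, ht, hk, k', hk'⟩ := hSHT L M m N φ h0
  obtain ⟨M', i1, x, y, hne, hpcs, hdown, hex, hco⟩ := hARR3 L hL M m N φ t (2 * k' + 1) hk
  obtain ⟨C, i2, i3, hctx, hpcs', hdown', ⟨arr⟩⟩ :=
    hITU3 L hL M' m N φ t (2 * k' + 1) x y hex hco
  exact ⟨C, i2, i3, hctx, WIT_trans hpcs' hpcs,
    hRED L C hctx m N φ t k' ht arr fun h => hk' (hdown k' (hdown' k' h))⟩

end Pool.Agent.UNS
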