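import Pool.Agent.UNS.StB

/-!
UNS, [WUN]: valid data with isomorphic decoded structures have isomorphic codes (helper52).
-/

set_option autoImplicit false
set_option linter.unusedVariables false

namespace Pool.Agent.UNS

open FirstOrder.Language Set
open scoped FirstOrder
open Pool.Agent.AAD (Gam Fx ls St su Ctx Pcs Sha)
open Pool.Agent.PMC (Sy LP us Two)
open Pool.Agent.Helper6.Str (PerfK CtblK Iso Code toStr RelIso)

/-! ### Orders -/

section order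

variable {ι' : Type}

/-- a block is isomorphic to `ℚ`, any point can be mapped to `0` -/
theorem WUN_one {d : Dat ι'} (hd : d.Val) (r : ℚ) :
    ∃ e : {a : ℚ // d.bl r a} ≃o ℚ, e ⟨r, hd.ref r⟩ = 0 := by
  have : Nonempty {a : ℚ // d.bl r a} := ⟨⟨r, hd.ref r⟩⟩
  have : DenselyOrdered {a : ℚ // d.bl r a} := by
    refine ⟨fun a b hab => ?_⟩
    have hab' : a.1 < b.1 := hab
    have h1 : d.bl a.1 b.1 := hd.tra _ _ _ (hd.sym _ _ a.2) b.2
    have h2 : a.1 < (a.1 + b.1) / 2 := by linarith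
    have h3 : (a.1 + b.1) / 2 < b.1 := by linarith
    exact ⟨⟨(a.1 + b.1) / 2, hd.tra _ _ _ a.2 (hd.con _ _ _ h2.le h3.le h1)⟩, h2, h3⟩
  have : NoMinOrder {a : ℚ // d.bl r a} := by
    refine ⟨fun a => ?_⟩
    obtain ⟨b, hb, h1⟩ := hd.dn a.1
    exact ⟨⟨b, hd.tra _ _ _ a.2 h1⟩, hb⟩
  have : NoMaxOrder {a : ℚ // d.bl r a} := by
    refine ⟨fun a => ?_⟩
    obtain ⟨b, hb, h1⟩ := hd.up a.1
    exact ⟨⟨b, hd.tra _ _ _ a.2 h1⟩, hb⟩
  obtain ⟨e⟩ := Order.iso_of_countable_dense {a : ℚ // d.bl r a} ℚ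
  refine ⟨e.trans (OrderIso.addRight (-(e ⟨r, hd.ref r⟩))), ?_⟩
  simp

/-- an isomorphism between two blocks which maps `r` to `r'` -/
theorem WUN_blk {d d' : Dat ι'} (hd : d.Val) (hd' : d'.Val) (r r' : ℚ) :
    ∃ F : ℚ → ℚ, F r = r' ∧ (∀ a, d.bl r a → d'.bl r' (F a)) ∧
      (∀ a b, d.bl r a → d.bl r b → a < b → F a < F b) ∧
      ∀ c, d'.bl r' c → ∃ a, d.bl r a ∧ F a = c := by
  classical
  obtain ⟨e, he⟩ := WUN_one hd r
  obtain ⟨e', he'⟩ := WUN_one hd' r'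
  refine ⟨fun a => if h : d.bl r a then (e'.symm (e ⟨a, h⟩)).1 else 0, ?_, ?_, ?_, ?_⟩
  · show (if h : d.bl r r then (e'.symm (e ⟨r, h⟩)).1 else 0) = r'
    rw [dif_pos (hd.ref r), he, ← he', OrderIso.symm_apply_apply]
  · intro a ha
    show d'.bl r' (if h : d.bl r a then (e'.symm (e ⟨a, h⟩)).1 else 0)
    rw [dif_pos ha]
    exact (e'.symm (e ⟨a, ha⟩)).2
  · intro a b ha hb hab
    show (if h : d.bl r a then (e'.symm (e ⟨a, h⟩)).1 else 0) <
      (if h : d.bl r b then (e'.symm (e ⟨b, h⟩)).1 else 0)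
    rw [dif_pos ha, dif_pos hb]
    have h1 : (⟨a, ha⟩ : {a : ℚ // d.bl r a}) < ⟨b, hb⟩ := hab
    exact (e'.symm.strictMono (e.strictMono h1) : _)
  · intro c hc
    refine ⟨(e.symm (e' ⟨c, hc⟩)).1, (e.symm (e' ⟨c, hc⟩)).2, ?_⟩
    show (if h : d.bl r (e.symm (e' ⟨c, hc⟩)).1 then
      (e'.symm (e ⟨(e.symm (e' ⟨c, hc⟩)).1, h⟩)).1 else 0) = c
    rw [dif_pos (e.symm (e' ⟨c, hc⟩)).2]
    show (e'.symm (e (e.symm (e' ⟨c, hc⟩)))).1 = c
    rw [OrderIso.apply_symm_apply, OrderIso.symm_apply_apply]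

/-- different blocks are ordered -/
theorem WUN_lt {d : Dat ι'} (hd : d.Val) {a b r r' : ℚ} (hab : a < b) (hn : ¬ d.bl a b)
    (hr : d.bl a r) (hr' : d.bl b r') : r < r' := by
  by_contra hc
  have hc' : r' ≤ r := not_lt.1 hc
  rcases le_or_gt a r' with h | h
  · exact hn (hd.tra _ _ _ (hd.con _ _ _ h hc' hr) (hd.sym _ _ hr'))
  · exact hn (hd.tra _ _ _ (hd.sym _ _ (hd.con _ _ _ h.le hab.le (hd.sym _ _ hr')))
      (hd.sym _ _ hr'))

/-- gluing of the block isomorphisms -/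
theorem WUN_glue {d d' : Dat ι'} (hd : d.Val) (hd' : d'.Val) (s : ℚ → ℚ)
    (s1 : ∀ a, d.rp a → d'.rp (s a)) (s2 : ∀ a b, d.rp a → d.rp b → (a < b ↔ s a < s b))
    (s3 : ∀ c, d'.rp c → ∃ a, d.rp a ∧ s a = c) :
    ∃ g : Gam, (∀ a, d.rp a → g a = s a) ∧ (∀ a b, d.bl a b ↔ d'.bl (g a) (g b)) ∧
      ∀ a, d.rp a ↔ d'.rp (g a) := by
  choose F f1 f2 f3 f4 using fun r : ℚ => WUN_blk hd hd' r (s r)
  choose p p1 p2 using hd.rex
  have hp : ∀ a b, d.bl a b → p a = p b := fun a b h =>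
    hd.run _ _ (p1 a) (p1 b) (hd.tra _ _ _ (hd.sym _ _ (p2 a)) (hd.tra _ _ _ h (p2 b)))
  have hpr : ∀ a, d.rp a → p a = a := fun a h => hd.run _ _ (p1 a) h (hd.sym _ _ (p2 a))
  have sinj : ∀ a b, d.rp a → d.rp b → s a = s b → a = b := by
    intro a b ha hb h
    rcases lt_trichotomy a b with h1 | h1 | h1
    · exact absurd h ((s2 a b ha hb).1 h1).ne
    · exact h1
    · exact absurd h ((s2 b a hb ha).1 h1).ne'
  have hG : ∀ a, d'.bl (s (p a)) (F (p a) a) := fun a => f2 (p a) a (hd.sym _ _ (p2 a))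
  have hmono : StrictMono (fun a => F (p a) a) := by
    intro a b hab
    show F (p a) a < F (p b) b
    by_cases hbl : d.bl a b
    · rw [← hp a b hbl]
      exact f3 (p a) a b (hd.sym _ _ (p2 a)) (hd.tra _ _ _ (hd.sym _ _ (p2 a)) hbl) hab
    · have h1 : p a < p b := WUN_lt hd hab hbl (p2 a) (p2 b)
      have h2 : s (p a) < s (p b) := (s2 _ _ (p1 a) (p1 b)).1 h1
      refine WUN_lt hd' h2 (fun h3 => ?_) (hG a) (hG b)
      exact h2.ne (hd'.run _ _ (s1 _ (p1 a)) (s1 _ (p1 b)) h3)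
  have hsurj : Function.Surjective (fun a => F (p a) a) := by
    intro c
    obtain ⟨t, t1, t2⟩ := hd'.rex c
    obtain ⟨r, r1, rfl⟩ := s3 t t1
    obtain ⟨a, a1, a2⟩ := f4 r c (hd'.sym _ _ t2)
    refine ⟨a, ?_⟩
    show F (p a) a = c
    have h1 : p a = r := by rw [← hp r a a1, hpr r r1]
    rw [h1, a2]
  set g : Gam := StrictMono.orderIsoOfSurjective _ hmono hsurj with hg
  have hga : ∀ a, g a = F (p a) a := fun a => rfl
  have g1 : ∀ a, d.rp a → g a = s a := by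
    intro a ha
    rw [hga, hpr a ha, f1]
  refine ⟨g, g1, fun a b => ⟨fun h => ?_, fun h => ?_⟩, fun a => ⟨fun h => ?_, fun h => ?_⟩⟩
  · rw [hga, hga]
    have h1 := hG a
    have h2 := hG b
    rw [← hp a b h] at h2 ⊢
    exact hd'.tra _ _ _ (hd'.sym _ _ h1) h2
  · rw [hga, hga] at h
    have h1 : s (p a) = s (p b) := hd'.run _ _ (s1 _ (p1 a)) (s1 _ (p1 b))
      (hd'.tra _ _ _ (hG a) (hd'.tra _ _ _ h (hd'.sym _ _ (hG b))))
    have h2 : p a = p b := sinj _ _ (p1 a) (p1 b) h1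
    have h3 := p2 b
    rw [← h2] at h3
    exact hd.tra _ _ _ (p2 a) (hd.sym _ _ h3)
  · rw [g1 a h]
    exact s1 a h
  · have h1 : g a = s (p a) := by
      refine hd'.run _ _ h (s1 _ (p1 a)) ?_
      rw [hga]
      exact hd'.sym _ _ (hG a)
    rw [← g1 (p a) (p1 a)] at h1
    rw [g.injective h1]
    exact p1 a

end order

/-! ### The isomorphism of the codes -/

section codes

variable {κ : Type} {ar : κ → ℕ} {K : Cla ar} (G : FG K) {ι' : Type}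

/-- an automorphism of `(ℚ, <)` which preserves the data gives an isomorphism of the codes -/
theorem WUN_iso (d d' : Dat ι') (g : Gam) (h1 : ∀ a b, d.bl a b ↔ d'.bl (g a) (g b))
    (h2 : ∀ a b, d.sn a b ↔ d'.sn (g a) (g b)) (h3 : ∀ a, d.rp a ↔ d'.rp (g a))
    (h4 : ∀ i a, d.u i a ↔ d'.u i (g a)) : Iso (W G d) (W G d') := by
  letI := G.S
  letI := G.A
  have hca : ∀ (g : Gam) a b, g • G.c a b = G.c (g a) (g b) := fun g a b => G.G.ca g a b
  have hinv : ∀ (g : Gam) (n : ℕ) (R : (LU G.ι ar).Relations n) (v : Fin n → G.N),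
      G.S.RelMap R (fun i => g • v i) ↔ G.S.RelMap R v := fun g n R v => G.G.ctx.inv g n R v
  have two : ∀ (P P' : ℚ → ℚ → Prop), (∀ a b, P a b ↔ P' (g a) (g b)) → ∀ x : G.N,
      (∃ a b, P a b ∧ x = G.c a b) ↔ ∃ a b, P' a b ∧ g • x = G.c a b := by
    intro P P' hP x
    constructor
    · rintro ⟨a, b, hab, rfl⟩
      exact ⟨g a, g b, (hP a b).1 hab, hca g a b⟩
    · rintro ⟨a, b, hab, hx⟩
      refine ⟨g⁻¹ a, g⁻¹ b, (hP _ _).2 ?_, ?_⟩
      · have e1 : g (g⁻¹ a) = a := g.apply_symm_apply a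
        have e2 : g (g⁻¹ b) = b := g.apply_symm_apply b
        rw [e1, e2]
        exact hab
      · rw [← hca, ← hx, inv_smul_smul]
  have one : ∀ (P P' : ℚ → Prop), (∀ a, P a ↔ P' (g a)) → ∀ x : G.N,
      (∃ a, P a ∧ x = G.c a a) ↔ ∃ a, P' a ∧ g • x = G.c a a := by
    intro P P' hP x
    constructor
    · rintro ⟨a, hab, rfl⟩
      exact ⟨g a, (hP a).1 hab, hca g a a⟩
    · rintro ⟨a, hab, hx⟩
      refine ⟨g⁻¹ a, (hP _).2 ?_, ?_⟩
      · have e1 : g (g⁻¹ a) = a := g.apply_symm_apply a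
        rw [e1]
        exact hab
      · rw [← hca, ← hx, inv_smul_smul]
  refine ⟨MulAction.toPerm g, fun n R v => ?_⟩
  cases R with
  | un i =>
    cases i with
    | inl i =>
      show uu G.S i (v 0) ↔ uu G.S i (g • v 0)
      exact (hinv g 1 (Sm.un i : Sm G.ι ar 1) fun _ => v 0).symm
    | inr i =>
      cases i with
      | bl => exact two d.bl d'.bl h1 (v 0)
      | sn => exact two d.sn d'.sn h2 (v 0)
      | rp => exact one d.rp d'.rp h3 (v 0)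
      | u i => exact one (d.u i) (d'.u i) (h4 i) (v 0)
  | rl c => exact (hinv g (ar c) (Sm.rl c : Sm G.ι ar (ar c)) v).symm

end codes

/-- [WUN] -/
theorem thm_WUN (hWCR : St_WCR) : St_WUN := by
  intro κ ar K G ι' d d' hd hd' ⟨e, he⟩
  obtain ⟨-, cin, -, -, ol, -, os, orp, ou⟩ := hWCR κ ar K G ι' d
  obtain ⟨-, -, -, -, ol', -, os', orp', ou'⟩ := hWCR κ ar K G ι' d'
  have hx : ∀ a, d.rp a → rpS G (W G d) (G.c a a) := fun a h => (orp _).2 ⟨a, h, rfl⟩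
  have hx' : ∀ a, d'.rp a → rpS G (W G d') (G.c a a) := fun a h => (orp' _).2 ⟨a, h, rfl⟩
  have hex : ∀ a, d.rp a → ∃ b, d'.rp b ∧
      ∀ h : rpS G (W G d) (G.c a a), (e ⟨G.c a a, h⟩).1 = G.c b b := by
    intro a ha
    obtain ⟨b, hb, h⟩ := (orp' _).1 (e ⟨G.c a a, hx a ha⟩).2
    exact ⟨b, hb, fun _ => h⟩
  choose! s s1 se using hex
  have hv1 : ∀ (a : ℚ) (ha : d.rp a), e ⟨G.c a a, hx a ha⟩ = ⟨G.c (s a) (s a), hx' _ (s1 a ha)⟩ :=
    fun a ha => Subtype.ext (se a ha (hx a ha))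
  have key : ∀ (b : Bool) (a c : ℚ) (ha : d.rp a) (hc : d.rp c),
      ((dec G (W G d)).RelMap (n := 2) (Sy.lt b : Sy ι' 2)
        ![⟨G.c a a, hx a ha⟩, ⟨G.c c c, hx c hc⟩] ↔
      (dec G (W G d')).RelMap (n := 2) (Sy.lt b : Sy ι' 2)
        ![⟨G.c (s a) (s a), hx' _ (s1 a ha)⟩, ⟨G.c (s c) (s c), hx' _ (s1 c hc)⟩]) := by
    intro b a c ha hc
    rw [he 2 (Sy.lt b : Sy ι' 2)]
    have : (e ∘ ![⟨G.c a a, hx a ha⟩, ⟨G.c c c, hx c hc⟩] : Fin 2 → _) =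
        ![⟨G.c (s a) (s a), hx' _ (s1 a ha)⟩, ⟨G.c (s c) (s c), hx' _ (s1 c hc)⟩] := by
      funext i
      refine Fin.cases ?_ (fun i => ?_) i
      · exact hv1 a ha
      · refine Fin.cases ?_ (fun i => i.elim0) i
        exact hv1 c hc
    rw [this]
  have s2 : ∀ a b, d.rp a → d.rp b → (a < b ↔ s a < s b) := fun a b ha hb =>
    (ol a b).symm.trans ((key true a b ha hb).trans (ol' _ _))
  have ss : ∀ a b, d.rp a → d.rp b → (d.sn a b ↔ d'.sn (s a) (s b)) := fun a b ha hb =>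
    (os a b).symm.trans ((key false a b ha hb).trans (os' _ _))
  have su' : ∀ i a, d.rp a → (d.u i a ↔ d'.u i (s a)) := by
    intro i a ha
    have h1 := he 1 (Sy.un i : Sy ι' 1) (fun _ => ⟨G.c a a, hx a ha⟩)
    have h2 : (e ∘ (fun _ => ⟨G.c a a, hx a ha⟩) : Fin 1 → _) =
        fun _ => ⟨G.c (s a) (s a), hx' _ (s1 a ha)⟩ := funext fun _ => hv1 a ha
    rw [h2] at h1
    exact (ou i a).symm.trans (Iff.trans h1 (ou' i (s a)))
  have s3 : ∀ c, d'.rp c → ∃ a, d.rp a ∧ s a = c := by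
    intro c hc
    obtain ⟨a, ha, h⟩ := (orp _).1 (e.symm ⟨G.c c c, hx' c hc⟩).2
    have h1 : e.symm ⟨G.c c c, hx' c hc⟩ = ⟨G.c a a, hx a ha⟩ := Subtype.ext h
    have h2 : (⟨G.c c c, hx' c hc⟩ : {x // rpS G (W G d') x}) =
        ⟨G.c (s a) (s a), hx' _ (s1 a ha)⟩ := by
      rw [← hv1 a ha, ← h1, Equiv.apply_symm_apply]
    have h3 : G.c c c = G.c (s a) (s a) := congrArg Subtype.val h2
    exact ⟨a, ha, (cin _ _ _ _ h3).1.symm⟩
  obtain ⟨g, g1, g2, g3⟩ := WUN_glue hd hd' s s1 s2 s3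
  refine WUN_iso G d d' g g2 (fun a b => ⟨fun h => ?_, fun h => ?_⟩) g3
    (fun i a => ⟨fun h => ?_, fun h => ?_⟩)
  · obtain ⟨ha, hb⟩ := hd.sr a b h
    rw [g1 a ha, g1 b hb]
    exact (ss a b ha hb).1 h
  · obtain ⟨ha', hb'⟩ := hd'.sr _ _ h
    have ha := (g3 a).2 ha'
    have hb := (g3 b).2 hb'
    rw [g1 a ha, g1 b hb] at h
    exact (ss a b ha hb).2 h
  · have ha := hd.ur i a h
    rw [g1 a ha]
    exact (su' i a ha).1 h
  · have ha := (g3 a).2 (hd'.ur i _ h)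
    rw [g1 a ha] at h
    exact (su' i a ha).2 h

end Pool.Agent.UNS
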