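import Pool.Agent.UNS.SHT
import Pool.Agent.UNS.ARR3
import Pool.Agent.UNS.ITU3
import Pool.Agent.UNS.VIS
import Pool.Agent.UNS.RED
import Pool.Agent.UNS.WIT
import Pool.Agent.UNS.EMB
import Pool.Agent.UNS.LOC
import Pool.Agent.UNS.SEE
import Pool.Agent.UNS.EQ1
import Pool.Agent.UNS.EDF
import Pool.Agent.UNS.GRD
import Pool.Agent.UNS.FOT
import Pool.Agent.UNS.REL
import Pool.Agent.UNS.FGR
import Pool.Agent.UNS.PCA
import Pool.Agent.UNS.FGE
import Pool.Agent.UNS.CAT
import Pool.Agent.UNS.WCR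
import Pool.Agent.UNS.TRU
import Pool.Agent.UNS.VSN
import Pool.Agent.UNS.MOD
import Pool.Agent.UNS.WFU
import Pool.Agent.UNS.WEX
import Pool.Agent.UNS.WUN
import Pool.Agent.UNS.WDM
import Pool.Agent.UNS.USH
import Pool.Agent.PMC.ResT3

/-!
UNS, all modules together (helper45).
-/

set_option autoImplicit false

namespace Pool.Agent.UNS

theorem all_RED : St_RED := thm_RED thm_VIS

theorem all_WIT : St_WIT := thm_WIT thm_SHT thm_ARR3 thm_ITU3 all_RED

theorem all_LOC : St_LOC := thm_LOC thm_EMB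

theorem all_SEE : St_SEE := thm_SEE thm_VIS

theorem all_EQ1 : St_EQ1 := thm_EQ1 all_LOC

theorem all_GRD : St_GRD := thm_GRD thm_VIS thm_EMB all_SEE all_EQ1 thm_EDF

theorem all_REL : St_REL := thm_REL thm_FOT

theorem all_FGR : St_FGR := thm_FGR all_REL

theorem all_FGE : St_FGE := thm_FGE all_WIT thm_PCA all_GRD all_FGR

theorem all_CAT : St_CAT := thm_CAT thm_FOT

theorem all_VSN : St_VSN := thm_VSN thm_WCR

theorem all_MOD : St_MOD := thm_MOD thm_WCR thm_TRU all_VSN all_CAT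

theorem all_WEX : St_WEX := thm_WEX thm_WCR

theorem all_WUN : St_WUN := thm_WUN thm_WCR

/-- the dichotomy for `K` implies the dichotomy for two linear orders -/
theorem all_USH (κ : Type) (hκ : Countable κ) (ar : κ → ℕ) (K : Cla ar) (G : FG K) (hV : VCU K)
    (ι : Type) (hι : Countable ι) (T : (PMC.LP ι).Theory) (hT : ∀ S ∈ VPF.ModF T, PMC.Two S) :
    Pool.Agent.Helper6.Str.CtblK (VPF.ModF T) ∨ Pool.Agent.Helper6.Str.PerfK (VPF.ModF T) :=
  thm_USH thm_WCR all_MOD thm_WFU all_WEX all_WUN thm_WDM PMC.thm_MPK κ hκ ar K G hV ι hι T hT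

end Pool.Agent.UNS
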