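import Pool.Agent.UNS.Base
import Pool.Agent.AAD.Kit
import Pool.Agent.AAD.StD

/-!
UNS, definitions (helper45).  The paper proof is `GC_UNI_helper45.md` in the team store.
-/

set_option autoImplicit false
set_option linter.unusedVariables false

namespace Pool.Agent.UNS

open FirstOrder.Language Set
open scoped FirstOrder
open Pool.Agent.AAD (Gam Fx ls St su Ctx Pcs Sha)
open Pool.Agent.PMC (Sy LP us Two)
open Pool.Agent.Helper6.Str (PerfK CtblK Iso Code toStr)
open VPF (ModF)

/-! ### Visible points -/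

section

variable (L : FirstOrder.Language.{0, 0}) {C : Type} [L.Structure C] [MulAction Gam C]

/-- `c`, `c'` have the same first-order relations with all elements whose support has at most one point -/
def Tr (c c' : C) : Prop :=
  ∀ (H : Type) [Finite H] (θ : L.Formula (H ⊕ Unit)) (z : H → C), (∀ h, (su (z h)).card ≤ 1) →
    (θ.Realize (Sum.elim z fun _ => c) ↔ θ.Realize (Sum.elim z fun _ => c'))

/-- the visible points of `c`: the least support of the class of `c` -/
noncomputable def vs (c : C) : Finset ℚ := ls {g | Tr L (g • c) c}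

end

/-- `φ` shatters a set of `k` tuples by tuples with the same first `t` entries -/
def ShT {L : FirstOrder.Language.{0, 0}} (M : Type) [L.Structure M] {m N : ℕ}
    (φ : L.Formula (Fin m ⊕ Fin N)) (t k : ℕ) : Prop :=
  ∃ (x : Fin k → Fin m → M) (y : Set (Fin k) → Fin N → M),
    (∀ i s, φ.Realize (Sum.elim (x i) (y s)) ↔ i ∈ s) ∧
    ∀ (s s' : Set (Fin k)) (j : Fin N), j.1 < t → y s j = y s' j

/-- `y b` contains `x r` iff `r` is in the range of `b`; the first `t` entries of `y b` are constant -/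
structure ArT {L : FirstOrder.Language.{0, 0}} (C : Type) [L.Structure C] [MulAction Gam C]
    {m N : ℕ} (φ : L.Formula (Fin m ⊕ Fin N)) (t k : ℕ) where
  x : ℚ → Fin m → C
  y : (Fin k → ℚ) → Fin N → C
  xa : ∀ (g : Gam) q i, g • x q i = x (g q) i
  ya : ∀ (g : Gam) b i, g • y b i = y (fun j => g (b j)) i
  ex : ∀ r b, φ.Realize (Sum.elim (x r) (y b)) ↔ ∃ j, b j = r
  co : ∀ b b' (j : Fin N), j.1 < t → y b j = y b' j

/-! ### The first coordinate -/

/-- `g` maps `A ∩ I` into `I`, `A ∩ J` into `J`, and fixes the other points of `A` -/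
def Adm (I J : Set ℚ) (A : Finset ℚ) (g : Gam) : Prop :=
  ∀ a ∈ A, (a ∈ I → g a ∈ I) ∧ (a ∈ J → g a ∈ J) ∧ (a ∉ I → a ∉ J → g a = a)

section

variable {C : Type} [MulAction Gam C]

/-- the level of `z` -/
def Lev (I J : Set ℚ) (z : C) : Set C := {x | ∃ g : Gam, Adm I J (su z) g ∧ x = g • z}

end

/-- A configuration for `c`: moving `p` in `c` changes the truth of `θ (z; c)`, and the number of entries
of `z` with support `{p'}` is minimal.  `I`, `J` are (disjoint) intervals around `p` and `p'`. -/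
structure Cfg (L : FirstOrder.Language.{0, 0}) {C : Type} [L.Structure C] [MulAction Gam C] (c : C)
    (p p' : ℚ) (I J : Set ℚ) (H : Type) where
  θ : L.Formula (H ⊕ Unit)
  z : H → C
  g : Gam
  x1 : ∀ h, (su (z h)).card ≤ 1
  gf : ∀ a ∈ su c, a ≠ p → g a = a
  dif : ¬ (θ.Realize (Sum.elim z fun _ => g • c) ↔ θ.Realize (Sum.elim z fun _ => c))
  min : ∀ (z' : H → C) (g' : Gam), (∀ h, (su (z' h)).card ≤ 1) →
    (∀ a ∈ su c, a ≠ p → g' a = a) →
    Nat.card {h // su (z' h) = {p'}} < Nat.card {h // su (z h) = {p'}} →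
    (θ.Realize (Sum.elim z' fun _ => g' • c) ↔ θ.Realize (Sum.elim z' fun _ => c))
  pc : p ∈ su c
  pc' : p' ∈ su c
  pI : p ∈ I
  gI : g p ∈ I
  pJ : p' ∈ J
  out : ∀ a ∈ su c, a ≠ p → a ≠ p' → a ∉ I ∧ a ∉ J
  zz : ∀ h, su (z h) = {p'} ∨ (∀ a ∈ su (z h), a ∈ I) ∨ ∀ a ∈ su (z h), a ∉ I ∧ a ∉ J

namespace Cfg

variable {L : FirstOrder.Language.{0, 0}} {C : Type} [L.Structure C] [MulAction Gam C] {c : C}
  {p p' : ℚ} {I J : Set ℚ} {H : Type} (D : Cfg L c p p' I J H)

open Classical in
/-- `w` at the entries with support `{p'}`, `u` at the others -/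
noncomputable def mix (w u : H → C) : H → C := fun h => if su (D.z h) = {p'} then w h else u h

/-- tuples of elements of the levels of the entries of `z` -/
def lev (w : H → C) : Prop := ∀ h, w h ∈ Lev I J (D.z h)

/-- `θ (mix w u; y)` -/
def T (w u : H → C) (y : C) : Prop := D.θ.Realize (Sum.elim (D.mix w u) fun _ => y)

/-- `w` is determined by its relations with `y` -/
def sel (y : C) (w : H → C) : Prop :=
  ∀ w', D.lev w' → (∀ u, D.lev u → (D.T w u y ↔ D.T w' u y)) →
    ∀ h, su (D.z h) = {p'} → w' h = w h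

/-- the first coordinates are equal -/
def E (y y' : C) : Prop :=
  ∀ w w', D.lev w → D.lev w' → D.sel y w → D.sel y' w' → ∀ u, D.lev u →
    (D.T w u y ↔ D.T w' u y')

end Cfg

/-! ### The language -/

/-- unary symbols `un i`, relation symbols `rl c` of arity `ar c` -/
inductive Sm (ι : Type) {κ : Type} (ar : κ → ℕ) : ℕ → Type
  | un (i : ι) : Sm ι ar 1
  | rl (c : κ) : Sm ι ar (ar c)

/-- the language of relations `c : κ` of arity `ar c` and unary predicates `i : ι` -/
def LU (ι : Type) {κ : Type} (ar : κ → ℕ) : FirstOrder.Language.{0, 0} := ⟨fun _ => Empty, Sm ι ar⟩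

section

variable {ι κ M : Type} {ar : κ → ℕ}

/-- the unary predicates -/
def uu (S : (LU ι ar).Structure M) (i : ι) (x : M) : Prop :=
  S.RelMap (n := 1) (Sm.un i : Sm ι ar 1) (fun _ => x)

/-- the relations -/
def rr (S : (LU ι ar).Structure M) (c : κ) (v : Fin (ar c) → M) : Prop :=
  S.RelMap (n := ar c) (Sm.rl c : Sm ι ar (ar c)) v

/-- the structure with given unary predicates and relations -/
@[instance_reducible]
def mkS (u : ι → M → Prop) (r : ∀ c : κ, (Fin (ar c) → M) → Prop) : (LU ι ar).Structure M where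
  funMap := fun f _ => Empty.elim f
  RelMap := fun {n} R => match n, R with
    | _, .un i => fun v => u i (v 0)
    | _, .rl c => fun v => r c v

end

/-! ### Classes -/

/-- `K n` is a set of structures on `{0, ..., n - 1}` -/
abbrev Cla {κ : Type} (ar : κ → ℕ) : Type := ∀ n : ℕ, Set (∀ c : κ, (Fin (ar c) → Fin n) → Prop)

section

variable {κ : Type} {ar : κ → ℕ} (K : Cla ar)

/-- closed: membership is decided by the finite sets of relations -/
def Clo : Prop :=
  ∀ (n : ℕ) (r : ∀ c : κ, (Fin (ar c) → Fin n) → Prop),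
    (∀ s : Finset κ, ∃ r' ∈ K n, ∀ c ∈ s, ∀ v, r' c v ↔ r c v) → r ∈ K n

/-- all finite substructures are in `K` -/
def InX {ι M : Type} (S : (LU ι ar).Structure M) : Prop :=
  ∀ (m : ℕ) (z : Fin m → M), Function.Injective z → (fun c v => rr S c (fun i => z (v i))) ∈ K m

/-- monadically NIP classes -/
def MonN : Prop :=
  ∀ (ι : Type), Countable ι → ∀ S : (LU ι ar).Structure ℕ, InX K S →
    ∀ (m n : ℕ) (φ : (LU ι ar).Formula (Fin m ⊕ Fin n)), ∃ k,
      ¬ Sha (fun (x : Fin m → ℕ) (y : Fin n → ℕ) => φ.Realize (Sum.elim x y)) k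

/-- Vaught's conjecture for `K` -/
def VCU : Prop :=
  ∀ (ι : Type), Countable ι → ∀ T : (LU ι ar).Theory,
    (∀ S ∈ ModF T, InX K S) → CtblK (ModF T) ∨ PerfK (ModF T)

end

/-! ### Grids -/

/-- a grid `c a b` with first-order definable coordinates -/
structure Grd (L : FirstOrder.Language.{0, 0}) (C : Type) [L.Structure C] [MulAction Gam C] where
  ctx : Ctx L C
  c : ℚ → ℚ → C
  ca : ∀ (g : Gam) a b, g • c a b = c (g a) (g b)
  e₁ : L.Formula (Fin 2)
  e₂ : L.Formula (Fin 2)
  h₁ : ∀ a b a' b', e₁.Realize ![c a b, c a' b'] ↔ a = a'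
  h₂ : ∀ a b a' b', e₂.Realize ![c a b, c a' b'] ↔ b = b'

section

variable {ι κ C : Type} {ar : κ → ℕ} [MulAction Gam C]

/-- the union of the orbits of the elements of `T` -/
def Orb (T : Finset C) : Set C := {x | ∃ t ∈ T, ∃ g : Gam, x = g • t}

/-- the restriction to `Orb T`, with names for the orbits -/
@[instance_reducible]
def rst (S : (LU ι ar).Structure C) (T : Finset C) :
    (LU (ι ⊕ {t // t ∈ T}) ar).Structure (Orb T) :=
  mkS (fun i x => match i with
    | .inl i => uu S i x.1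
    | .inr t => ∃ g : Gam, x.1 = g • t.1) fun c v => rr S c fun i => (v i).1

/-- `Γ` acts on `Orb T` -/
instance orbA (T : Finset C) : MulAction Gam (Orb T) where
  smul := fun g x => ⟨g • x.1, by
    obtain ⟨t, ht, h, e⟩ := x.2
    exact ⟨t, ht, g * h, by rw [e, mul_smul]⟩⟩
  one_smul := fun x => Subtype.ext (one_smul Gam x.1)
  mul_smul := fun g h x => Subtype.ext (mul_smul g h x.1)

end

/-- grids with finitely many orbits; `dd`, `dl`, `dg`: the diagonal, below, above -/
structure FG {κ : Type} {ar : κ → ℕ} (K : Cla ar) where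
  ι : Type
  cι : Countable ι
  N : Type
  cN : Countable N
  S : (LU ι ar).Structure N
  A : MulAction Gam N
  G : @Grd (LU ι ar) N S A
  age : InX K S
  fo : ∃ T : Finset N, ∀ x, ∃ t ∈ T, ∃ g : Gam, x = g • t
  dd : ι
  dl : ι
  dg : ι
  hd : ∀ x, uu S dd x ↔ ∃ a, x = @Grd.c _ _ S A G a a
  hl : ∀ x, uu S dl x ↔ ∃ a b, a < b ∧ x = @Grd.c _ _ S A G a b
  hg : ∀ x, uu S dg x ↔ ∃ a b, b < a ∧ x = @Grd.c _ _ S A G a b

/-! ### Coding -/

/-- new unary predicates -/
inductive Cl (ι' : Type) : Type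
  | bl : Cl ι'
  | sn : Cl ι'
  | rp : Cl ι'
  | u (i : ι') : Cl ι'

/-- data on `ℚ`: the block relation, the second order, the representatives, unary predicates -/
structure Dat (ι' : Type) where
  bl : ℚ → ℚ → Prop
  sn : ℚ → ℚ → Prop
  rp : ℚ → Prop
  u : ι' → ℚ → Prop

/-- valid data: open convex blocks with exactly one representative each -/
structure Dat.Val {ι' : Type} (d : Dat ι') : Prop where
  ref : ∀ a, d.bl a a
  sym : ∀ a b, d.bl a b → d.bl b a
  tra : ∀ a b c, d.bl a b → d.bl b c → d.bl a c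
  con : ∀ a b c, a ≤ b → b ≤ c → d.bl a c → d.bl a b
  up : ∀ a, ∃ b, a < b ∧ d.bl a b
  dn : ∀ a, ∃ b, b < a ∧ d.bl a b
  rex : ∀ a, ∃ b, d.rp b ∧ d.bl a b
  run : ∀ a b, d.rp a → d.rp b → d.bl a b → a = b
  sr : ∀ a b, d.sn a b → d.rp a ∧ d.rp b
  ur : ∀ i a, d.u i a → d.rp a
  inf : {a | d.rp a}.Infinite

section

variable {κ : Type} {ar : κ → ℕ} {K : Cla ar} (G : FG K) {ι' M : Type}

/-- the grid element -/
def FG.c (a b : ℚ) : G.N := @Grd.c _ _ G.S G.A G.G a b

/-- the code of the data `d` -/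
@[instance_reducible]
def W (d : Dat ι') : (LU (G.ι ⊕ Cl ι') ar).Structure G.N :=
  mkS (fun i x => match i with
    | .inl i => uu G.S i x
    | .inr .bl => ∃ a b, d.bl a b ∧ x = G.c a b
    | .inr .sn => ∃ a b, d.sn a b ∧ x = G.c a b
    | .inr .rp => ∃ a, d.rp a ∧ x = G.c a a
    | .inr (.u i) => ∃ a, d.u i a ∧ x = G.c a a) fun c v => rr G.S c v

variable (S : (LU (G.ι ⊕ Cl ι') ar).Structure M)

/-- the reduct to the language of `G` -/
@[instance_reducible]
def rd : (LU G.ι ar).Structure M := mkS (fun i x => uu S (.inl i) x) fun c v => rr S c v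

/-- the same first coordinate -/
def q1 (x y : M) : Prop := @Formula.Realize _ _ (rd G S) _ (@Grd.e₁ _ _ G.S G.A G.G) ![x, y]

/-- the same second coordinate -/
def q2 (x y : M) : Prop := @Formula.Realize _ _ (rd G S) _ (@Grd.e₂ _ _ G.S G.A G.G) ![x, y]

/-- `z` is in the predicate `i` and has the coordinates `x`, `y` -/
def pr (i : G.ι ⊕ Cl ι') (x y : M) : Prop := ∃ z, uu S i z ∧ q1 G S z x ∧ q2 G S z y

/-- representatives -/
def rpS (x : M) : Prop := uu S (.inr .rp) x

/-- the decoded structure -/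
@[instance_reducible]
def dec : (LP ι').Structure {x : M // rpS G S x} where
  funMap := fun f _ => Empty.elim f
  RelMap := fun {n} R => match n, R with
    | _, .un i => fun v => uu S (.inr (.u i)) (v 0).1
    | _, .lt true => fun v => pr G S (.inl G.dl) (v 0).1 (v 1).1
    | _, .lt false => fun v => pr G S (.inr .sn) (v 0).1 (v 1).1

/-- the theory of the codes of the models of `T` -/
def thy (T : (LP ι').Theory) : (LU (G.ι ⊕ Cl ι') ar).Theory :=
  {σ | ∀ d : Dat ι', d.Val →
    @FirstOrder.Language.Theory.Model (LP ι') _ (dec G (W G d)) T →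
    @FirstOrder.Language.Sentence.Realize _ G.N (W G d) σ}

end

end Pool.Agent.UNS
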