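import Pool.Agent.UNS.StB
import Pool.Agent.MNO.ALL
import Pool.Agent.VPF.CodI

/-!
UNS, [POU]: monadically NIP classes whose structures have a linear order definable with parameters
(helper45), from `Pool/Agent/MNO` (T5).
-/

set_option autoImplicit false
set_option linter.unusedVariables false

namespace Pool.Agent.UNS

open FirstOrder.Language Set
open scoped FirstOrder
open Pool.Agent.AAD (Sha)
open Pool.Agent.Helper6.Str (PerfK CtblK Iso)
open VPF (ModF)

section

variable {ι κ : Type} {ar : κ → ℕ}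

/-- in every structure on `ℕ` with age in `K` (and unary predicates) some linear order is definable with
parameters -/
def Odf (K : Cla ar) : Prop :=
  ∀ (ι : Type), Countable ι → ∀ S : (LU ι ar).Structure ℕ, InX K S →
    ∃ r : ℕ → ℕ → Prop, (@Set.Definable ℕ univ (LU ι ar) S (Fin 2) {v : Fin 2 → ℕ | r (v 0) (v 1)}) ∧
      (∀ x, ¬ r x x) ∧ (∀ x y z, r x y → r y z → r x z) ∧ ∀ x y, x ≠ y → r x y ∨ r y x

/-- the expansion of `S` by the set `P` -/
@[instance_reducible]
def POU_exp (S : (LU ι ar).Structure ℕ) (P : Set ℕ) : (LU (Option ι) ar).Structure ℕ where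
  funMap := fun f _ => Empty.elim f
  RelMap := fun {n} R => match n, R with
    | _, .un none => fun v => v 0 ∈ P
    | _, .un (some i) => fun v => uu S i (v 0)
    | _, .rl s => fun v => rr S s v

/-- the inclusion of the languages -/
def POU_hom (ι : Type) {κ : Type} (ar : κ → ℕ) : LU ι ar →ᴸ LU (Option ι) ar where
  onFunction := fun {_} f => Empty.elim f
  onRelation := fun {n} R => match n, R with
    | _, .un i => Sm.un (some i)
    | _, .rl s => Sm.rl s

theorem POU_isexp (S : (LU ι ar).Structure ℕ) (P : Set ℕ) :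
    @LHom.IsExpansionOn (LU ι ar) (LU (Option ι) ar) (POU_hom ι ar) ℕ S (POU_exp S P) := by
  let _ := S
  let _ := POU_exp S P
  refine LHom.IsExpansionOn.mk (fun {n} f _ => Empty.elim f) ?_
  intro n R x
  cases R with
  | un i =>
    have hx : (fun _ => x 0) = x := by
      funext k
      fin_cases k
      rfl
    show S.RelMap (n := 1) (Sm.un i : Sm ι ar 1) (fun _ => x 0) =
      S.RelMap (n := 1) (Sm.un i : Sm ι ar 1) x
    rw [hx]
  | rl s => rfl

theorem POU_inK {K : Cla ar} (S : (LU ι ar).Structure ℕ) (P : Set ℕ) (h : InX K S) :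
    InX K (POU_exp S P) := h

/-- the formula `∃ z, z ∈ P ∧ φ` -/
noncomputable def POU_fm {m n : ℕ} (φ : (LU ι ar).Formula ((Fin m ⊕ Fin n) ⊕ Unit)) :
    (LU (Option ι) ar).Formula (Fin m ⊕ Fin n) :=
  ((POU_hom ι ar).onFormula φ ⊓
    Relations.formula₁ (L := LU (Option ι) ar) (Sm.un none : Sm (Option ι) ar 1)
      (Term.var (Sum.inr ()))).iExs Unit

theorem POU_iff (S : (LU ι ar).Structure ℕ) (P : Set ℕ) {m n : ℕ}
    (φ : (LU ι ar).Formula ((Fin m ⊕ Fin n) ⊕ Unit)) (v : Fin m ⊕ Fin n → ℕ) :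
    @Formula.Realize (LU (Option ι) ar) ℕ (POU_exp S P) _ (POU_fm φ) v ↔
      ∃ z ∈ P, @Formula.Realize (LU ι ar) ℕ S _ φ (Sum.elim v fun _ => z) := by
  let _ := S
  let _ := POU_exp S P
  have _ := POU_isexp S P
  unfold POU_fm
  rw [Formula.realize_iExs]
  have key : ∀ w : (Fin m ⊕ Fin n) ⊕ Unit → ℕ,
      (((POU_hom ι ar).onFormula φ ⊓
        Relations.formula₁ (L := LU (Option ι) ar) (Sm.un none : Sm (Option ι) ar 1)
          (Term.var (Sum.inr ()))).Realize w ↔ φ.Realize w ∧ w (Sum.inr ()) ∈ P) := by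
    intro w
    rw [Formula.realize_inf, LHom.realize_onFormula, Formula.realize_rel₁]
    exact Iff.rfl
  constructor
  · rintro ⟨z, hz⟩
    have h1 := (key _).1 hz
    exact ⟨z (), h1.2, h1.1⟩
  · rintro ⟨z, hz, hz'⟩
    exact ⟨fun _ => z, (key _).2 ⟨hz', hz⟩⟩

theorem POU_hyp {K : Cla ar} (hι : Countable ι) (hK : MonN K) (hO : Odf K)
    (S : (LU ι ar).Structure ℕ) (h : InX K S) : @Pool.Agent.MNO.HypP (LU ι ar) ℕ S := by
  refine @Pool.Agent.MNO.HypP.mk (LU ι ar) ℕ S (hO ι hι S h) ?_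
  intro P m n φ
  have hc : Countable (Option ι) := inferInstance
  obtain ⟨k, hk⟩ := hK (Option ι) hc (POU_exp S P) (POU_inK S P h) m n (POU_fm φ)
  refine ⟨k, fun ⟨x, y, hxy⟩ => hk ⟨x, y, fun i s => ?_⟩⟩
  rw [← hxy i s]
  exact POU_iff S P φ _

theorem POU_ctb (hι : Countable ι) (hκ : Countable κ) : Countable (LU ι ar).Symbols := by
  have h1 : Countable (Σ m, (LU ι ar).Functions m) := by
    have : ∀ m, Countable ((LU ι ar).Functions m) := fun m => (inferInstance : Countable Empty)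
    infer_instance
  have h2 : Countable (Σ m, (LU ι ar).Relations m) := by
    let g : ι ⊕ κ → Σ m, (LU ι ar).Relations m := fun t => match t with
      | Sum.inl i => ⟨1, (Sm.un i : Sm ι ar 1)⟩
      | Sum.inr c => ⟨ar c, (Sm.rl c : Sm ι ar (ar c))⟩
    refine Function.Surjective.countable (f := g) ?_
    rintro ⟨m, s⟩
    cases s with
    | un i => exact ⟨Sum.inl i, rfl⟩
    | rl c => exact ⟨Sum.inr c, rfl⟩
  exact (inferInstance : Countable ((Σ m, (LU ι ar).Functions m) ⊕ (Σ m, (LU ι ar).Relations m)))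

end

/-- monadically NIP classes with definable linear orders -/
theorem POU_odf (κ : Type) (hκ : Countable κ) (ar : κ → ℕ) (K : Cla ar) (hO : Odf K)
    (hK : MonN K) : VCU K := by
  intro ι hι T hT
  have hL : Countable (LU ι ar).Symbols := POU_ctb hι hκ
  have h := Pool.Agent.MNO.all_MAINP (LU ι ar) hL T
    (fun S hS => POU_hyp hι hK hO S (hT S hS))
  have hf : ∀ n, IsEmpty ((LU ι ar).Functions n) := fun n => (inferInstance : IsEmpty Empty)
  rcases h with ⟨g, hg⟩ | ⟨f, h1, h2, h3, _⟩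
  · exact Or.inl ⟨g, fun S hS => (hg S hS).imp fun n h => VPF.CC.iso_of_equiv h⟩
  · exact Or.inr ⟨f, h1, fun x y h => h2 x y (VPF.CC.equiv_of_iso h), h3⟩

end Pool.Agent.UNS
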