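import Pool.Agent.UNS.StT

/-!
UNS, module SMS: a stable and monadically NIP structure is monadically stable (helper45).
-/

set_option autoImplicit false
set_option linter.unusedVariables false

namespace Pool.Agent.UNS

open FirstOrder.Language Set
open scoped FirstOrder
open Pool.Agent.WOM (CtT PerfT ThS)

/-- the last variable goes to the second tuple -/
def SMS_r1 (m n : ℕ) : (Fin m ⊕ Fin n) ⊕ Unit → Fin m ⊕ Fin (n + 1) :=
  Sum.elim (Sum.elim Sum.inl fun i => Sum.inr i.castSucc) fun _ => Sum.inr (Fin.last n)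

/-- the last variable goes to the first tuple -/
def SMS_r2 (m n : ℕ) : (Fin m ⊕ Fin n) ⊕ Unit → Fin (m + 1) ⊕ Fin n :=
  Sum.elim (Sum.elim (fun i => Sum.inl i.castSucc) Sum.inr) fun _ => Sum.inl (Fin.last m)

theorem SMS_e1 {M : Type} (m n : ℕ) (x : Fin m → M) (y : Fin n → M) (z : M) :
    (Sum.elim x (Fin.snoc y z : Fin (n + 1) → M)) ∘ SMS_r1 m n =
      Sum.elim (Sum.elim x y) fun _ => z := by
  funext i
  rcases i with (i | i) | i
  · rfl
  · show (Fin.snoc y z : Fin (n + 1) → M) i.castSucc = y i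
    exact Fin.snoc_castSucc (α := fun _ => M) z y i
  · show (Fin.snoc y z : Fin (n + 1) → M) (Fin.last n) = z
    exact Fin.snoc_last (α := fun _ => M) z y

theorem SMS_e2 {M : Type} (m n : ℕ) (x : Fin m → M) (y : Fin n → M) (z : M) :
    (Sum.elim (Fin.snoc x z : Fin (m + 1) → M) y) ∘ SMS_r2 m n =
      Sum.elim (Sum.elim x y) fun _ => z := by
  funext i
  rcases i with (i | i) | i
  · show (Fin.snoc x z : Fin (m + 1) → M) i.castSucc = x i
    exact Fin.snoc_castSucc (α := fun _ => M) z x i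
  · rfl
  · show (Fin.snoc x z : Fin (m + 1) → M) (Fin.last m) = z
    exact Fin.snoc_last (α := fun _ => M) z x

theorem thm_SMS (hSMC : St_SMC) (hSBD : St_SBD) (hSNE : St_SNE) : St_SMS := by
  classical
  intro L hL S hS
  let _ := S
  intro P m n φ a b hab
  have hex : ∀ j l, ∃ z, j < l → z ∈ P ∧
      φ.Realize (Sum.elim (Sum.elim (a j) (b l)) fun _ => z) := by
    intro j l
    by_cases h : j < l
    · obtain ⟨z, h1, h2⟩ := (hab j l).2 h
      exact ⟨z, fun _ => ⟨h1, h2⟩⟩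
    · exact ⟨0, fun h' => absurd h' h⟩
  choose z hz using hex
  obtain ⟨k, hk⟩ := hSNE L hL S (fun S' hS' => (hS S' hS').2) m n φ
  refine hk (hSMC (Fin m → ℕ) (Fin n → ℕ) ℕ
    (fun x y z => φ.Realize (Sum.elim (Sum.elim x y) fun _ => z)) a b z
    (fun j l h => (hz j l h).2) ?_ ?_ ?_ k)
  · intro i k j l hjl hki h
    exact absurd ((hab i k).1 ⟨z j l, (hz j l hjl).1, h⟩) (by omega)
  · obtain ⟨k, hk⟩ := hSBD L hL S (fun S' hS' => (hS S' hS').1) m (n + 1)
      (φ.relabel (SMS_r1 m n))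
    refine ⟨k, fun ⟨x, y, h⟩ => hk ⟨x, fun j => Fin.snoc (y j).1 (y j).2, fun i j => ?_⟩⟩
    rw [← h i j]
    show (φ.relabel (SMS_r1 m n)).Realize _ ↔ _
    rw [FirstOrder.Language.Formula.realize_relabel, SMS_e1]
  · obtain ⟨k, hk⟩ := hSBD L hL S (fun S' hS' => (hS S' hS').1) (m + 1) n
      (φ.relabel (SMS_r2 m n))
    refine ⟨k, fun ⟨x, y, h⟩ => hk ⟨fun i => Fin.snoc (x i).1 (x i).2, y, fun i j => ?_⟩⟩
    rw [← h i j]
    show (φ.relabel (SMS_r2 m n)).Realize _ ↔ _
    rw [FirstOrder.Language.Formula.realize_relabel, SMS_e2]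

end Pool.Agent.UNS
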