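import Pool.Agent.UNS.Defs

/-!
UNS, statements of parts I-III (helper45), with proofs in the docstrings.  The paper proof is
`GC_UNI_helper45.md` in the team store.  `Pool/Agent/UNS/Base.lean` has the facts on supports (`ext`, `ls_spec`, `su_fix`, `su_min`, `su_act`,
`su_eq`, `su_stab`) and the invariance of first-order formulas (`inv`, `inv2`, `aut`); `Pool/Agent/AAD/Kit.lean` the toolkit `UD` for
first-order definable relations (with `J = Unit` for one structure).
-/

set_option autoImplicit false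
set_option linter.unusedVariables false

namespace Pool.Agent.UNS

open FirstOrder.Language Set
open scoped FirstOrder
open Pool.Agent.AAD (Gam Fx ls St su Ctx Pcs Sha)

/-! ### I. Iterated ultrapower -/

/-- [SHT] the choice of `t`.
PROOF.  `ShT φ N 1` is false: `y ∅ = y univ` (all entries are equal), but `φ (x 0, y s) ↔ 0 ∈ s`.  So the set of `t ≤ N` such that `∀ k, ShT φ t k` contains `0`
and not `N`; take a `t < N` in it with `t + 1` not in it. -/
def St_SHT : Prop :=
  ∀ (L : FirstOrder.Language.{0, 0}) (M : Type) [L.Structure M] (m N : ℕ)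
    (φ : L.Formula (Fin m ⊕ Fin N)), (∀ k, ShT M φ 0 k) →
    ∃ t < N, (∀ k, ShT M φ t k) ∧ ∃ k, ¬ ShT M φ (t + 1) k

/-- [ARR3] an ultrapower.
PROOF.  As AAD/ARR2.lean: the ultrapower `M'` of `M` by `Filter.hyperfilter ℕ`; for each `n`: `x^n : Fin n → ..`, `y^n : Set (Fin n) → ..` (`ShT φ t n`); `x r` = the class of
`n ↦ x^n r` (`r < n`), `y b` = the class of `n ↦ y^n {i | ∃ j, b j = i}`; the entries `j < t` of `y^n s` do not depend on `s`.  `ShT M' φ (t+1) k' → ShT M φ (t+1) k'`: represent the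
finitely many tuples by functions; by Łoś (`Fin k'`, `Set (Fin k')` are finite) some (in fact almost all) `n` is good. -/
def St_ARR3 : Prop :=
  ∀ (L : FirstOrder.Language.{0, 0}), (∀ n, IsEmpty (L.Functions n)) →
    ∀ (M : Type) [L.Structure M] [Nonempty M] (m N : ℕ) (φ : L.Formula (Fin m ⊕ Fin N)) (t k : ℕ),
    (∀ n, ShT M φ t n) →
    ∃ (M' : Type) (_ : L.Structure M') (x : ℕ → Fin m → M') (y : (Fin k → ℕ) → Fin N → M'),
      Nonempty M' ∧ Pcs L M' M ∧ (∀ k', ShT M' φ (t + 1) k' → ShT M φ (t + 1) k') ∧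
      (∀ r b, φ.Realize (Sum.elim (x r) (y b)) ↔ ∃ j, b j = r) ∧
      ∀ b b' (j : Fin N), j.1 < t → y b j = y b' j

/-- [ITU3] iterated ultrapower along `ℚ`.
PROOF.  As AAD/ITU2.lean (which can be imported and used: `ITU_S`, `ITU_ctx`, `ITU_pcs`, `ITU_losS`, `ITU_el`, `ITU_smul`, `ITU_ne`; for the array see `ITU_arr`):
`x q i = [v ↦ x (v q) i]`, `y b i = [v ↦ y (v ∘ b) i]`.  `ShT C φ (t+1) k' → ShT M φ (t+1) k'`: represent the finitely many entries by functions (`ITU_elim`, `ITU_losS`,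
`ITU_el_eq`), finitely many conditions hold for almost all `v`, so for some `v`. -/
def St_ITU3 : Prop :=
  ∀ (L : FirstOrder.Language.{0, 0}), (∀ n, IsEmpty (L.Functions n)) →
    ∀ (M : Type) [L.Structure M] [Nonempty M] (m N : ℕ) (φ : L.Formula (Fin m ⊕ Fin N)) (t k : ℕ)
      (x : ℕ → Fin m → M) (y : (Fin k → ℕ) → Fin N → M),
    (∀ r b, φ.Realize (Sum.elim (x r) (y b)) ↔ ∃ j, b j = r) →
    (∀ b b' (j : Fin N), j.1 < t → y b j = y b' j) →
    ∃ (C : Type) (_ : L.Structure C) (_ : MulAction Gam C),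
      Ctx L C ∧ Pcs L C M ∧ (∀ k', ShT C φ (t + 1) k' → ShT M φ (t + 1) k') ∧
      Nonempty (ArT C φ t k)

/-- [VIS] facts on `vs`.
PROOF.  `H = {g | Tr (g • c) c}` is a subgroup: `Tr` is an equivalence relation and invariant: `Tr c c' → Tr (g • c) (g • c')` (`inv2`, applied to `g⁻¹ • z h`; the sizes of
the supports are preserved, `su_act`).  `H` contains `Fx (su c)` (`su_fix`).  `ls_spec`.  If all `g` fixing `su c` without `p` were in `H` then `vs c ⊆ (su c).erase p`. -/
def St_VIS : Prop :=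
  ∀ (L : FirstOrder.Language.{0, 0}) (C : Type) [L.Structure C] [MulAction Gam C], Ctx L C →
    ∀ c : C, vs L c ⊆ su c ∧ (∀ g : Gam, (∀ a ∈ vs L c, g a = a) → Tr L (g • c) c) ∧
      ∀ p ∈ vs L c, ∃ g : Gam, (∀ a ∈ su c, a ≠ p → g a = a) ∧ ¬ Tr L (g • c) c

/-- [RED] some element sees two points.
PROOF.  `b j = j` (`j : Fin (2 * k' + 1)`), `c = y b t`.  Suppose `(vs c).card ≤ 1`: there is `v` with `vs c ⊆ {v}`.  Offset `o = 0` if `k' - 1 < v` (or `k' = 0`), else
`o = k' + 1` (then `v ≤ k' - 1 < k' + 1`).  In the first case `o + i < v` and `o + i - 1/2 < v`, in the second `v < o + i`, `v < o + i + 1/2` for `i < k'`.  For `s : Set (Fin k')` let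
`q i = o + i` if `i ∈ s`, `o + i ∓ 1/2` else; `φ (x (q i), y b) ↔ i ∈ s` (`ArT.ex`).  `g` (`ext`) fixes `v` and `g (o + i) = q i`.  Let `θ` be the formula, with variables `(i, l) : Fin k' × Fin m`,
`j : {j : Fin N // j < t}` and `c`: there is a tuple `y'` with `y' j` = the variable `j` for `j < t`, `y' t = c`, and `φ (x_i, y') ↔ i ∈ s` for all `i` (AAD.Kit `UD` for `J = Unit`).  It is
true for the `x (q i) l`, `y b j`, `c`; apply `g⁻¹` (`inv2`): true for the `x (o + i) l`, `y b j` (`ya`, `co`), `g⁻¹ • c`; `Tr (g⁻¹ • c) c` (VIS; the supports of the `x q l`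
are in `{q}`, those of the `y b j`, `j < t`, are empty: `su_min`): true for `c`.  So `ShT C φ (t + 1) k'` with the `x (o + i)`: contradiction. -/
def St_RED : Prop :=
  ∀ (L : FirstOrder.Language.{0, 0}) (C : Type) [L.Structure C] [MulAction Gam C], Ctx L C →
    ∀ (m N : ℕ) (φ : L.Formula (Fin m ⊕ Fin N)) (t k' : ℕ), t < N → ArT C φ t (2 * k' + 1) →
      ¬ ShT C φ (t + 1) k' → ∃ c : C, 2 ≤ (vs L c).card

/-- [WIT] PROOF.  `Sha` is `ShT 0`.  SHT, ARR3 (`k = 2 k' + 1`), ITU3, RED; `Pcs` is transitive. -/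
def St_WIT : Prop :=
  ∀ (L : FirstOrder.Language.{0, 0}), (∀ n, IsEmpty (L.Functions n)) →
    ∀ (M : Type) [L.Structure M] [Nonempty M] (m N : ℕ) (φ : L.Formula (Fin m ⊕ Fin N)),
    (∀ k, Sha (fun (x : Fin m → M) (y : Fin N → M) => φ.Realize (Sum.elim x y)) k) →
    ∃ (C : Type) (_ : L.Structure C) (_ : MulAction Gam C),
      Ctx L C ∧ Pcs L C M ∧ ∃ c : C, 2 ≤ (vs L c).card

/-! ### II. The first coordinate is definable -/

/-- [EMB] `Γ` as the group of automorphisms with support in an open interval.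
PROOF.  `m = (l + r) / 2`, `ε = (r - l) / 2`, `b q = m + ε * (q / (1 + |q|))` with inverse `x ↦ y / (1 - |y|)`, `y = (x - m) / ε`; or any other increasing bijection of `ℚ` with the
open interval (e.g. `Order.iso_of_countable_dense`).  `j g x = b (g (b⁻¹ x))` in the interval, `x` outside. -/
def St_EMB : Prop :=
  ∀ l r : ℚ, l < r → ∃ (b : ℚ → ℚ) (j : Gam →* Gam), StrictMono b ∧
    (∀ x, x ∈ Ioo l r ↔ ∃ q, b q = x) ∧ (∀ (g : Gam) q, j g (b q) = b (g q)) ∧
    ∀ (g : Gam) x, x ∉ Ioo l r → j g x = x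

/-- [LOC] moves in an open interval.
PROOF.  EMB; `ext` for the finite set `b⁻¹ A` and `b⁻¹ ∘ f ∘ b`; `j` of the result. -/
def St_LOC : Prop :=
  ∀ (l r : ℚ) (A : Finset ℚ) (f : ℚ → ℚ), (∀ a ∈ A, a ∈ Ioo l r) → (∀ a ∈ A, f a ∈ Ioo l r) →
    (∀ a ∈ A, ∀ b ∈ A, a < b → f a < f b) →
    ∃ g : Gam, (∀ a ∈ A, g a = f a) ∧ ∀ x, x ∉ Ioo l r → g x = x

/-- [SEE] configurations exist.
PROOF.  VIS: `g` fixing `su c` without `p`, not `Tr (g • c) c`: so there are `H` (finite), `θ`, `z` with `|su (z h)| ≤ 1` and `dif`.  Take such a configuration (over all `H`, `θ`, `z`, `g`) with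
minimal `Nat.card {h // su (z h) = {p'}}` (`Nat.find`, or well-foundedness of `<`): this gives `min`.  `g p ≠ p` (else `g • c = c`); no point of `su c` except `p` is between `p` and `g p`
(`g` is increasing and fixes it).  `F` = the finite set of all points of `su c` and of the `su (z h)` and `g p`; `η > 0` smaller than all distances of different points of `F` (and half of it):
`I = (min p (g p) - η, max p (g p) + η)`, `J = (p' - η, p' + η)`. -/
def St_SEE : Prop :=
  ∀ (L : FirstOrder.Language.{0, 0}) (C : Type) [L.Structure C] [MulAction Gam C], Ctx L C →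
    ∀ (c : C) (p p' : ℚ), p ∈ vs L c → p' ∈ su c → p' ≠ p →
      ∃ (l r l' r' : ℚ), Disjoint (Ioo l r) (Ioo l' r') ∧ ∃ (H : Type) (_ : Finite H),
        Nonempty (Cfg L c p p' (Ioo l r) (Ioo l' r') H)

/-- [EQ1] the relation `E` is equality of the first coordinates.  See section 3 of the paper.
Notation: for `a ∈ I`, `b ∈ J` let `c(a,b) = g • c` for `g` admissible on `su c` with `g p = a`, `g p' = b` (exists by LOC, does not depend on `g` by `su_eq`); `H₂ = {h | su (z h) = {p'}}`;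
`w^b` : a tuple with `lev w^b` and `su (w^b h) = {b}` for `h ∈ H₂`; if `lev w`, `lev w'`, `su (w h) = su (w' h)`, `h ∈ H₂`, then `w h = w' h` (both are `g • z h`, `su_eq`).  Elements `τ` with `τ = id` outside `I`
(LOC) map `Lev z` to itself, fix the `u h` (`h ∈ H₂`) and the `w^b h`..; `τ = id` outside `J` fixes the `u h` for `h ∉ H₂`.
(1) `lev w`, `lev u`, not all `su (w h) = {b}` (`h ∈ H₂`): `T w u c(a,b) ↔ T w u c(a',b)` for `a, a' ∈ I`: otherwise apply `γ⁻¹`, `γ • c = c(a,b)`: `z' = γ⁻¹ • mix w u`, `g' = γ⁻¹ γ'`: against `D.min`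
(`su (z' h) = {p'} ↔ su (mix w u h) = {b}`, false for `h ∉ H₂`, `D.zz`).
(2) `a ≠ a'`: there is `u`, `lev u`, with not `(T w^b u c(a,b) ↔ T w^b u c(a',b))`: `D.dif`, translated by `δ`, `δ p = a`, `δ (g p) = a'` (or the other way round if the order is
different), `δ p' = b`, `δ = id` outside `I ∪ J` (LOC twice): `u = δ • z`.
(3) `sel c(a,b) w ↔ ∀ h ∈ H₂, su (w h) = {b}` for `lev w`.  `←`: let `T w^b u y ↔ T w' u y` for all `u`, `w' ≠ w^b` on `H₂`, `y = c(a,b)`; choose `a' ≠ a` in `I`, `τ = id` outside `I`, `τ a = a'`: `T w^b u c(a',b) ↔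
T w^b (τ⁻¹ u) y ↔ T w' (τ⁻¹ u) y ↔ T w' u c(a',b) ↔ T w' u y` (1) `↔ T w^b u y`, against (2).  `→`: if `su (w h) = {j}`, `j ≠ b`: `τ = id` outside `J`, `τ b = b`, `τ j ≠ j`; `w' = τ • w`: `T w' u y ↔ T w u y`.
(4) `E`: if `a = a'`: `τ = id` outside `J`, `τ b = b'`.  If `a ≠ a'`: `E` gives `T w^b u c(a,b) ↔ T w^b' u c(a',b') ↔ T w^b u c(a',b)` for all `u`, against (2). -/
def St_EQ1 : Prop :=
  ∀ (L : FirstOrder.Language.{0, 0}) (C : Type) [L.Structure C] [MulAction Gam C], Ctx L C →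
    ∀ (c : C) (p p' l r l' r' : ℚ), Disjoint (Ioo l r) (Ioo l' r') → ∀ (H : Type) [Finite H]
      (D : Cfg L c p p' (Ioo l r) (Ioo l' r') H) (g g' : Gam),
      Adm (Ioo l r) (Ioo l' r') (su c) g → Adm (Ioo l r) (Ioo l' r') (su c) g' →
      (D.E (g • c) (g' • c) ↔ g p = g' p)

/-- [EDF] `E` is first-order if the levels are named.
PROOF.  AAD.Kit, `J = Unit`.  `lev w` is the conjunction over `h : H` (finite) of `uu S' (j h) (w h)`; `T w u y` is `θ` (in the language `LU ι' ar`: `LHom.onFormula` for `un i ↦ un (f i)`,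
`rl c ↦ rl c`, an expansion; compare AAD/KTR.lean) with a substitution of variables; quantifiers over `H → C` by `UD_ex`, `UD_all`. -/
def St_EDF : Prop :=
  ∀ (κ : Type) (ar : κ → ℕ) (ι ι' : Type) (C : Type) (S : (LU ι ar).Structure C)
    (S' : (LU ι' ar).Structure C) (A : MulAction Gam C) (c : C) (p p' : ℚ) (I J : Set ℚ) (H : Type)
    (_ : Finite H) (D : @Cfg (LU ι ar) C S A c p p' I J H) (f : ι → ι') (j : H → ι'),
    (∀ c v, rr S' c v ↔ rr S c v) → (∀ i x, uu S' (f i) x ↔ uu S i x) →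
    (∀ h x, uu S' (j h) x ↔ x ∈ @Lev C A I J (@Cfg.z (LU ι ar) C S A c p p' I J H D h)) →
    ∃ e : (LU ι' ar).Formula (Fin 2), ∀ x y, @Formula.Realize _ C S' _ e ![x, y] ↔
      @Cfg.E (LU ι ar) C S A c p p' I J H D x y

/-- [GRD] grids.
PROOF.  `p₁ ≠ p₂` in `vs c ⊆ su c` (VIS).  SEE for `(p₁, p₂)`: `I₁, J₁, H₁, D₁`; for `(p₂, p₁)`: `I₂, J₂, H₂, D₂` (`p₂ ∈ I₂`, `p₁ ∈ J₂`).  Open intervals `P₁ ⊆ I₁ ∩ J₂` around `p₁`, `P₂ ⊆ J₁ ∩ I₂` around `p₂`.  EMB for `P₁`, `P₂`:
`b₁, j₁, b₂, j₂`; `jj g = j₁ g * j₂ g` is a homomorphism (`j₁ g`, `j₂ h` commute: disjoint intervals).  New action: `MulAction.compHom` for `jj`.  New structure, `J = H₁ ⊕ H₂`: the old relations and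
unary predicates, and `Lev I₁ J₁ (D₁.z h)`, `Lev I₂ J₂ (D₂.z h)`.  `Ctx`: the levels are invariant under `jj g` (which is `id` outside `P₁ ∪ P₂` and maps `P₁`, `P₂` to themselves; section 4
of the paper); finite supports: `A' = {q | b₁ q ∈ A ∨ b₂ q ∈ A}`.  `c a b = γ • c` for `γ` (`ext`) with `γ p₁ = b₁ a`, `γ p₂ = b₂ b`, fixing the other points of `su c` (the order is preserved: no point of
`su c` except `p₁` is in `I₁ ∪ J₂`..); `ca`: `su_eq`.  `e₁`: EDF, EQ1 for `D₁` (`γ` is admissible for `(I₁, J₁)`), `b₁` injective; `e₂`: for `D₂`. -/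
def St_GRD : Prop :=
  ∀ (κ : Type) (ar : κ → ℕ) (ι : Type) (C : Type) (S : (LU ι ar).Structure C)
    (A : MulAction Gam C), @Ctx (LU ι ar) C S A → ∀ c : C, 2 ≤ (@vs (LU ι ar) C S A c).card →
    ∃ (J : Type) (_ : Finite J) (S' : (LU (ι ⊕ J) ar).Structure C) (A' : MulAction Gam C),
      (∀ c v, rr S' c v ↔ rr S c v) ∧ Nonempty (@Grd (LU (ι ⊕ J) ar) C S' A')

/-! ### III. Finitely many orbits -/

/-- [FOT] finitely many orbits on tuples.
PROOF.  Let `T` be a finite set of representatives on `N`, `k` the maximal size of their supports.  Every `v : Fin n → N` has a translate with all supports in `{0, ..., n k}` (`ext`: the union of the supports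
has at most `n k` elements).  `{x | su x ⊆ B}` is finite for finite `B`: `x = g • t` is determined by `t` and the map `g` from `su t` to `su x ⊆ B` (`su_act`, `su_eq`).  So finitely many tuples have
supports in `{0, ..., n k}`. -/
def St_FOT : Prop :=
  ∀ (L : FirstOrder.Language.{0, 0}) (N : Type) [L.Structure N] [MulAction Gam N], Ctx L N →
    (∃ T : Finset N, ∀ x, ∃ t ∈ T, ∃ g : Gam, x = g • t) →
    ∀ n : ℕ, ∃ T : Set (Fin n → N), T.Finite ∧ ∀ v : Fin n → N, ∃ t ∈ T, ∃ g : Gam,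
      v = fun i => g • t i

/-- [REL] relativisation.
PROOF.  Induction on `φ : (LU ι ar).BoundedFormula α n` (for all `T₀`; variables `α ⊕ Fin n`; `α` finite).  Atomic formulas: the same (`un i ↦ un (inl i)`, equality).  `imp`: the union of the two sets `T₁`.
`all ψ` (think of `ex`, with `¬ ψ`): by FOT for `Orb T₀` (the action `orbA`; or directly) there are finitely many orbits of tuples `v` of elements of `Orb T₀`; for each representative for which
there is a `z` with `¬ ψ (v, z)` choose one; `T₀' = T₀ ∪` these `z`.  Then `∀ z, ψ (v, z) ↔ ∀ z ∈ Orb T₀', ψ (v, z)` (`inv`).  Induction for `ψ` and `T₀'`: `T₁ ⊇ T₀'`; the quantifier is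
relativised to the disjunction of the predicates `inr t`, `t ∈ T₀'`. -/
def St_REL : Prop :=
  ∀ (κ : Type) (ar : κ → ℕ) (ι : Type) (C : Type) (S : (LU ι ar).Structure C)
    (A : MulAction Gam C), @Ctx (LU ι ar) C S A → ∀ (α : Type) (_ : Finite α)
    (φ : (LU ι ar).Formula α) (T₀ : Finset C), ∃ T₁ : Finset C, ∀ T : Finset C, T₁ ⊆ T →
      ∃ ψ : (LU (ι ⊕ {t // t ∈ T}) ar).Formula α, ∀ v : α → @Orb C A T,
        (∀ i, (v i).1 ∈ @Orb C A T₀) →
        (@Formula.Realize _ _ (@rst ι κ C ar A S T) _ ψ v ↔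
          @Formula.Realize _ _ S _ φ fun i => (v i).1)

/-- [FGR] grids with finitely many orbits.
PROOF.  `T₀ = {c 0 0, c 0 1, c 1 0}`, so all `c a b ∈ Orb T₀` (`ext`).  REL for `e₁`, `e₂`: `T₁`, `T₁'`; `T = T₀ ∪ T₁ ∪ T₁'`.  `N = Orb T`, the structure `rst S T`, the action `orbA`; `Ctx`: `inv`: the predicates
`inr t` are invariant; supports as in `C`.  Countable: every orbit is countable (`g • t` is determined by the restriction of `g` to `su t`).  `dd`, `dl`, `dg` = the names of the orbits of `c 0 0`,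
`c 0 1`, `c 1 0`.  `fo`: `T`.  `InX` is inherited by restrictions. -/
def St_FGR : Prop :=
  ∀ (κ : Type) (ar : κ → ℕ) (K : Cla ar) (ι : Type) (_ : Countable ι) (C : Type)
    (S : (LU ι ar).Structure C) (A : MulAction Gam C), @Grd (LU ι ar) C S A → InX K S →
    Nonempty (FG K)

/-- [PCA] PROOF.  As AAD/AGC.lean: by `Clo` it suffices to treat finitely many relations; `Pcs` for the tuple `z` gives an injective tuple in `M` with the same relations. -/
def St_PCA : Prop :=
  ∀ (ι κ : Type) (ar : κ → ℕ) (K : Cla ar) (C M : Type) (S : (LU ι ar).Structure C)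
    (S' : (LU ι ar).Structure M), Clo K → @Pcs (LU ι ar) C M S S' → InX K S' → InX K S

/-- [FGE] PROOF.  `¬ MonN K`: a structure on `ℕ`, in `K`, and a formula which shatters arbitrarily large finite sets (`Sha` is monotone in `k`, `¬ ∃ k, ¬ Sha k`).  WIT, PCA, GRD, FGR. -/
def St_FGE : Prop :=
  ∀ (κ : Type) (ar : κ → ℕ) (K : Cla ar), Clo K → ¬ MonN K → Nonempty (FG K)

/-- [CAT] structures with finitely many orbits on tuples are determined by their theory.
PROOF.  For each `n` finitely many types of `n`-tuples are realised in `N` (FOT, `inv`), so for every `n`-tuple `v` of `N` there is a formula `χ` true at `v` which implies the type of `v` (`χ` = the conjunction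
of formulas separating `v` from the representatives with a different type).  Back-and-forth between `N` and `M`: tuples `v`, `w` with the same type (the same formulas): given `a : N`, let `χ` isolate the type
of `(v, a)` among the tuples of `N`: `∃ x χ (v, x)`, so `∃ x χ (w, x)`, say `χ (w, b)`; `N ⊨ ∀ x y (χ → ψ)` or `N ⊨ ∀ x y (χ → ¬ ψ)` for every `ψ`, so the same in `M`.  Given `b : M`: `N ⊨ ∀ x y, ⋁ χ_i` (finite disjunction
over the types of `n + 1`-tuples), so `χ_i (w, b)` for some `i`, `∃ y χ_i (w, y)`, so `∃ y χ_i (v, y)`, as before.  `N`, `M` countable: enumerate both. -/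
def St_CAT : Prop :=
  ∀ (L : FirstOrder.Language.{0, 0}) (N M : Type) [L.Structure N] [L.Structure M]
    [MulAction Gam N], Countable N → Countable M → Ctx L N →
    (∃ T : Finset N, ∀ x, ∃ t ∈ T, ∃ g : Gam, x = g • t) →
    (∀ σ : L.Sentence, N ⊨ σ → M ⊨ σ) → Nonempty (N ≃[L] M)

end Pool.Agent.UNS
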