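import Pool.Agent.UNS.POU
import Pool.Agent.MST.ALLF
import Pool.Agent.MNO.HYC
import Pool.Agent.HERN.RAMN

/-!
UNS, addition: monadically NIP classes whose structures are ordered or stable (helper45).

The only mathematical point is [SMC]: a stable structure in which a formula `∃ z ∈ P, φ(x, y, z)` has an
infinite ladder has arbitrarily large exact arrays for `φ`.
-/

set_option autoImplicit false
set_option linter.unusedVariables false

namespace Pool.Agent.UNS

open FirstOrder.Language Set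
open scoped FirstOrder
open VPF (ModF)
open Pool.Agent.WOM (CtT PerfT ThS)

/-- an exact array of size `k` -/
def ExaT {A B Z : Type} (F : A → B → Z → Prop) (k : ℕ) : Prop :=
  ∃ (x : Fin k → A) (y : Fin k → B) (z : Fin k → Fin k → Z),
    ∀ i j a b, F (x i) (y j) (z a b) ↔ i = a ∧ j = b

/-- a ladder of length `k` -/
def LadT {A B : Type} (F : A → B → Prop) (k : ℕ) : Prop :=
  ∃ (x : Fin k → A) (y : Fin k → B), ∀ i j, F (x i) (y j) ↔ i < j

/-- [SMC] combinatorics.
PROOF.  `HERN.thm_RAMN` for `k = 4` and the colour of `v` = the truth values of `F (a (v p)) (b (v q)) (z (v r) (v s))`,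
`p q r s : Fin 4` (colours `Fin 4 → Fin 4 → Fin 4 → Fin 4 → Prop`): we may replace `a`, `b`, `z` by subsequences, so
the truth of `F (a i) (b k) (z j l)` depends only on the order type of `(i, k, j, l)`.  Exclude one by one, always by
ladders of arbitrary length (indices of the form `c + 2 s`, `c + 2 t + 1` in the right order), that
`F (a i) (b k) (z j l)` is true for (recall that it is false for `k ≤ i`; `[x;yz]`, `[xz;y]`: which bound):
 (1) `j < i < k < l`   (z fixed, `a_i` against `b_k`) [x;yz]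
 (2) `j < l < i < k`   (z fixed) [x;yz]
 (3) `i < j < k < l`   (k, l fixed and large; true iff `i < j`, by (1) and `k ≤ i`) [x;yz]
 (4) `j < i < l < k`   (j, k fixed; true iff `i < l`, by (2)) [x;yz]
 (5) `i < j < l < k`   (l, k fixed; true iff `i < j`, by (4)) [x;yz]
 (6) `i = j < k < l`   (l fixed; `(a_j, z_jl)` against `b_k`: true iff `j < k`) [xz;y]
 (7) `i = j < l < k`   (j fixed; `(a_j, z_jl)` against `b_k`: true iff `l < k`, by (6)) [xz;y]
 (8) `j < i < l = k`   (j fixed; `a_i` against `(b_l, z_jl)`: true iff `i < l`) [x;yz]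
 (9) `i < j < l = k`   (l fixed; `a_i` against `(b_l, z_jl)`: true iff `i < j`, by (8)) [x;yz].
So for `i, j < N ≤ k, l` it is true only if `(i, k) = (j, l)`: the array `x i = a i`, `y k = b (N + k)`,
`z i k = z_(i, N + k)`. -/
def St_SMC : Prop :=
  ∀ (A B Z : Type) (F : A → B → Z → Prop) (a : ℕ → A) (b : ℕ → B) (z : ℕ → ℕ → Z),
    (∀ j l, j < l → F (a j) (b l) (z j l)) →
    (∀ i k j l, j < l → k ≤ i → ¬ F (a i) (b k) (z j l)) →
    (∃ k, ¬ LadT (fun (x : A) (y : B × Z) => F x y.1 y.2) k) →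
    (∃ k, ¬ LadT (fun (x : A × Z) (y : B) => F x.1 y x.2) k) →
    ∀ k, ExaT F k

/-- [SBD] bounded ladders.
PROOF.  `MST.thm_SAW`: `V`, `SatW L V`, `j : S ↪ₑ V`.  If there are ladders of all lengths in `S` then `SatW` (variables
`(ℕ × Fin m) ⊕ (ℕ × Fin n)`, as in `MNO.thm_INA_of`) gives an infinite one in `V`, and `MST.St_HYP` (`MST.all_HYP`,
first part; `completeTheory V = ThS L S`) says `Stb L V`. -/
def St_SBD : Prop :=
  ∀ (L : FirstOrder.Language.{0, 0}), Countable L.Symbols → ∀ S : L.Structure ℕ,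
    (∀ S' : L.Structure ℕ, @FirstOrder.Language.Theory.Model L ℕ S' (ThS L S) →
      @Pool.Agent.MST.Stb L ℕ S') →
    ∀ (m n : ℕ) (φ : L.Formula (Fin m ⊕ Fin n)), ∃ k, ¬ LadT (fun (x : Fin m → ℕ) (y : Fin n → ℕ) =>
      @FirstOrder.Language.Formula.Realize L ℕ S _ φ (Sum.elim x y)) k

/-- for every set `P` no formula `∃ z ∈ P, φ(x, y, z)` has the independence property -/
def NiP (L : FirstOrder.Language.{0, 0}) (M : Type) [L.Structure M] : Prop :=
  ∀ (P : Set M) (m n : ℕ) (φ : L.Formula ((Fin m ⊕ Fin n) ⊕ Unit)), ∃ k : ℕ,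
    ¬ Pool.Agent.MNO.Shat (fun (x : Fin m → M) (y : Fin n → M) =>
      ∃ z ∈ P, φ.Realize (Sum.elim (Sum.elim x y) fun _ => z)) k

/-- [SNE] no exact arrays of all sizes.
PROOF.  `MNO.thm_INA` for `U = S` gives `S'` with an infinite exact array; then `NiP L S'` fails for
`P = {z a b | a ∈ g b}` (`g : ℕ → Finset ℕ` surjective), word for word as at the end of `MNO.hyc_of`. -/
def St_SNE : Prop :=
  ∀ (L : FirstOrder.Language.{0, 0}), Countable L.Symbols → ∀ S : L.Structure ℕ,
    (∀ S' : L.Structure ℕ, @FirstOrder.Language.Theory.Model L ℕ S' (ThS L S) → @NiP L ℕ S') →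
    ∀ (m n : ℕ) (φ : L.Formula ((Fin m ⊕ Fin n) ⊕ Unit)), ∃ k,
      ¬ ExaT (fun (x : Fin m → ℕ) (y : Fin n → ℕ) (z : ℕ) =>
        @FirstOrder.Language.Formula.Realize L ℕ S _ φ (Sum.elim (Sum.elim x y) fun _ => z)) k

/-- [SMS] stable and monadically NIP: monadically stable.
PROOF.  A ladder `(∃ z ∈ P, φ (a i) (b k) z) ↔ i < k` in `S`: choose `z j l ∈ P` with `φ (a j) (b l) (z j l)` for `j < l`.
SMC, the bounds from SBD (variables `(y, z)` = `Fin (n + 1)`, `(x, z)` = `Fin (m + 1)`, relabel `φ`), contradiction to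
SNE. -/
def St_SMS : Prop :=
  ∀ (L : FirstOrder.Language.{0, 0}), Countable L.Symbols → ∀ S : L.Structure ℕ,
    (∀ S' : L.Structure ℕ, @FirstOrder.Language.Theory.Model L ℕ S' (ThS L S) →
      @Pool.Agent.MST.Stb L ℕ S' ∧ @NiP L ℕ S') → @Pool.Agent.MST.MSt L ℕ S

/-- some linear order is definable with parameters -/
def OrP (L : FirstOrder.Language.{0, 0}) (M : Type) [L.Structure M] : Prop :=
  ∃ r : M → M → Prop, (univ : Set M).Definable L {v : Fin 2 → M | r (v 0) (v 1)} ∧
    (∀ x, ¬ r x x) ∧ (∀ x y z, r x y → r y z → r x z) ∧ ∀ x y, x ≠ y → r x y ∨ r y x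

/-- [SOR] `OrP` depends only on the theory.
PROOF.  The definition of `r` uses finitely many parameters (`MNO.PRM` has a lemma of this kind; or
`MST`'s `Dfp`): a formula `φ(x, y, c)`, `c : Fin n → ℕ`; the sentence `∃ c, (φ(x, y, c) is a strict linear order)` is in
`ThS L S`. -/
def St_SOR : Prop :=
  ∀ (L : FirstOrder.Language.{0, 0}) (S S' : L.Structure ℕ),
    @FirstOrder.Language.Theory.Model L ℕ S' (ThS L S) → @OrP L ℕ S → @OrP L ℕ S'

/-- every structure of the class is ordered or stable -/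
def OrS {κ : Type} {ar : κ → ℕ} (K : Cla ar) : Prop :=
  ∀ (ι : Type), Countable ι → ∀ S : (LU ι ar).Structure ℕ, InX K S →
    @OrP (LU ι ar) ℕ S ∨ @Pool.Agent.MST.Stb (LU ι ar) ℕ S

/-- [POT] monadically NIP classes of structures which are ordered or stable.
PROOF.  `WOM.thm_INC`; for a model `S` of `T` all models `S'` of `ThS L S` on `ℕ` are models of `T`, so in the class.  If `OrP S`:
`MNO.all_MAINP` for `ThS L S` (SOR).  If not: by SOR no `S'` has `OrP`, so all are stable; `MST.all_three` with SMS. -/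
def St_POT : Prop :=
  ∀ (κ : Type), Countable κ → ∀ (ar : κ → ℕ) (K : Cla ar), OrS K → MonN K → VCU K

end Pool.Agent.UNS
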