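import Pool.Agent.UNS.StB

/-!
UNS, [WCR]: the predicates of a code (helper45).
-/

set_option autoImplicit false
set_option linter.unusedVariables false

namespace Pool.Agent.UNS

open FirstOrder.Language Set
open scoped FirstOrder
open Pool.Agent.AAD (Gam Fx ls St su Ctx Pcs Sha)
open Pool.Agent.PMC (Sy LP us Two)

theorem WCR_rd {κ : Type} {ar : κ → ℕ} {K : Cla ar} (G : FG K) {ι' : Type} (d : Dat ι') :
    rd G (W G d) = G.S := by
  refine FirstOrder.Language.Structure.ext ?_ ?_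
  · funext n f
    exact Empty.elim f
  · funext n R v
    cases R with
    | un i =>
      have hx : (fun _ => v 0) = v := by
        funext k
        have : k = 0 := Subsingleton.elim _ _
        rw [this]
      show G.S.RelMap (n := 1) (Sm.un i : Sm G.ι ar 1) (fun _ => v 0) =
        G.S.RelMap (n := 1) (Sm.un i : Sm G.ι ar 1) v
      rw [hx]
    | rl c => rfl

theorem WCR_e1 {κ : Type} {ar : κ → ℕ} {K : Cla ar} (G : FG K) (a b a' b' : ℚ) :
    @Formula.Realize _ _ G.S _ (@Grd.e₁ _ _ G.S G.A G.G) ![G.c a b, G.c a' b'] ↔ a = a' :=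
  @Grd.h₁ _ _ G.S G.A G.G a b a' b'

theorem WCR_e2 {κ : Type} {ar : κ → ℕ} {K : Cla ar} (G : FG K) (a b a' b' : ℚ) :
    @Formula.Realize _ _ G.S _ (@Grd.e₂ _ _ G.S G.A G.G) ![G.c a b, G.c a' b'] ↔ b = b' :=
  @Grd.h₂ _ _ G.S G.A G.G a b a' b'

theorem WCR_inj {κ : Type} {ar : κ → ℕ} {K : Cla ar} (G : FG K) {a b a' b' : ℚ}
    (h : G.c a b = G.c a' b') : a = a' ∧ b = b' := by
  constructor
  · have h1 := (WCR_e1 G a b a b).2 rfl
    have h2 : (![G.c a b, G.c a b] : Fin 2 → G.N) = ![G.c a b, G.c a' b'] := by rw [← h]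
    rw [h2] at h1
    exact (WCR_e1 G a b a' b').1 h1
  · have h1 := (WCR_e2 G a b a b).2 rfl
    have h2 : (![G.c a b, G.c a b] : Fin 2 → G.N) = ![G.c a b, G.c a' b'] := by rw [← h]
    rw [h2] at h1
    exact (WCR_e2 G a b a' b').1 h1

theorem WCR_q1 {κ : Type} {ar : κ → ℕ} {K : Cla ar} (G : FG K) {ι' : Type} (d : Dat ι')
    (a b a' b' : ℚ) : q1 G (W G d) (G.c a b) (G.c a' b') ↔ a = a' := by
  unfold q1
  rw [WCR_rd G d]
  exact WCR_e1 G a b a' b'

theorem WCR_q2 {κ : Type} {ar : κ → ℕ} {K : Cla ar} (G : FG K) {ι' : Type} (d : Dat ι')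
    (a b a' b' : ℚ) : q2 G (W G d) (G.c a b) (G.c a' b') ↔ b = b' := by
  unfold q2
  rw [WCR_rd G d]
  exact WCR_e2 G a b a' b'

/-- a predicate which consists of grid elements -/
theorem WCR_pr {κ : Type} {ar : κ → ℕ} {K : Cla ar} (G : FG K) {ι' : Type} (d : Dat ι')
    (i : G.ι ⊕ Cl ι') (P : ℚ → ℚ → Prop) (h : ∀ x, uu (W G d) i x ↔ ∃ a b, P a b ∧ x = G.c a b)
    (a b : ℚ) : pr G (W G d) i (G.c a a) (G.c b b) ↔ P a b := by
  constructor
  · rintro ⟨z, h1, h2, h3⟩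
    obtain ⟨a', b', h4, rfl⟩ := (h z).1 h1
    rw [WCR_q1] at h2
    rw [WCR_q2] at h3
    rw [← h2, ← h3]
    exact h4
  · intro hP
    exact ⟨G.c a b, (h _).2 ⟨a, b, hP, rfl⟩, (WCR_q1 G d a b a a).2 rfl,
      (WCR_q2 G d a b b b).2 rfl⟩

/-- [WCR] -/
theorem thm_WCR : St_WCR := by
  intro κ ar K G ι' d
  refine ⟨WCR_rd G d, fun a b a' b' h => WCR_inj G h, WCR_q1 G d, WCR_q2 G d,
    WCR_pr G d _ (fun a b => a < b) (fun x => G.hl x), WCR_pr G d _ d.bl (fun x => Iff.rfl),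
    WCR_pr G d _ d.sn (fun x => Iff.rfl), fun x => Iff.rfl, fun i a => ?_⟩
  show (∃ a', d.u i a' ∧ G.c a a = G.c a' a') ↔ _
  constructor
  · rintro ⟨a', h1, h2⟩
    rw [(WCR_inj G h2).1]
    exact h1
  · intro h
    exact ⟨a, h, rfl⟩

end Pool.Agent.UNS
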